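import Mathlib

/-! A second derivative test for complex phases. -/

set_option autoImplicit false

namespace Pool.Agent.TH949.RES

open Filter Topology Complex MeasureTheory Set intervalIntegral

/-- the part of the interval far from the stationary point -/
theorem far {c d t₀ δ ρ K M : ℝ} (hcd : c ≤ d) (hρ : 0 < ρ) (hδ : 0 < δ) (hM : 0 ≤ M) (hK : 0 ≤ K)
    {u Λ Λ' : ℝ → ℂ}
    (hu : ∀ t ∈ Icc c d, HasDerivAt u (I * Λ t * u t) t)
    (hΛ : ∀ t ∈ Icc c d, HasDerivAt Λ (Λ' t) t)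
    (hcont : ContinuousOn Λ' (Icc c d))
    (h2 : ∀ t ∈ Icc c d, ‖Λ' t‖ ≤ K * ρ)
    (hu2 : ∀ t ∈ Icc c d, ‖u t‖ ≤ M)
    (h3 : ∀ t ∈ Icc c d, ρ * |t - t₀| ≤ ‖Λ t‖)
    (h4 : t₀ + δ ≤ c ∨ d ≤ t₀ - δ) :
    ‖∫ t in c..d, u t‖ ≤ (2 + K) * M / (ρ * δ) := by
  have hne : ∀ t ∈ Icc c d, δ ≤ |t - t₀| := by
    intro t ht
    rcases h4 with h | h
    · rw [abs_of_nonneg (by linarith [ht.1])]
      linarith [ht.1]
    · rw [abs_of_nonpos (by linarith [ht.2])]
      linarith [ht.2]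
  have hΛpos : ∀ t ∈ Icc c d, ρ * δ ≤ ‖Λ t‖ := fun t ht =>
    (mul_le_mul_of_nonneg_left (hne t ht) hρ.le).trans (h3 t ht)
  have hρδ : 0 < ρ * δ := mul_pos hρ hδ
  have hΛne : ∀ t ∈ Icc c d, Λ t ≠ 0 := fun t ht => by
    rw [← norm_pos_iff]
    exact lt_of_lt_of_le hρδ (hΛpos t ht)
  have hIcc : uIcc c d = Icc c d := uIcc_of_le hcd
  -- integration by parts
  set F : ℝ → ℂ := fun t => u t / (I * Λ t) with hF
  set R : ℝ → ℂ := fun t => u t * Λ' t / (I * Λ t ^ 2) with hR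
  have hcu : ContinuousOn u (Icc c d) := fun t ht => (hu t ht).continuousAt.continuousWithinAt
  have hcΛ : ContinuousOn Λ (Icc c d) := fun t ht => (hΛ t ht).continuousAt.continuousWithinAt
  have hRc : ContinuousOn R (Icc c d) := by
    refine ContinuousOn.div (hcu.mul hcont) (continuousOn_const.mul (hcΛ.pow 2)) ?_
    intro t ht
    exact mul_ne_zero I_ne_zero (pow_ne_zero 2 (hΛne t ht))
  have hder : ∀ t ∈ uIcc c d, HasDerivAt F (u t - R t) t := by
    intro t ht
    rw [hIcc] at ht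
    have h5 := (hu t ht).div ((hΛ t ht).const_mul I) (mul_ne_zero I_ne_zero (hΛne t ht))
    refine h5.congr_deriv ?_
    have := hΛne t ht
    rw [hR]
    simp only
    field_simp
  have hint : IntervalIntegrable (fun t => u t - R t) volume c d := by
    refine ContinuousOn.intervalIntegrable ?_
    rw [hIcc]
    exact hcu.sub hRc
  have h5 := integral_eq_sub_of_hasDerivAt hder hint
  have hiu : IntervalIntegrable u volume c d := by
    refine ContinuousOn.intervalIntegrable ?_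
    rwa [hIcc]
  have hiR : IntervalIntegrable R volume c d := by
    refine ContinuousOn.intervalIntegrable ?_
    rwa [hIcc]
  rw [intervalIntegral.integral_sub hiu hiR] at h5
  have h6 : ∫ t in c..d, u t = F d - F c + ∫ t in c..d, R t := by
    rw [← h5]
    ring
  have hFb : ∀ t ∈ Icc c d, ‖F t‖ ≤ M / (ρ * δ) := by
    intro t ht
    rw [hF]
    simp only
    rw [norm_div, norm_mul, Complex.norm_I, one_mul]
    exact div_le_div₀ hM (hu2 t ht) hρδ (hΛpos t ht)
  -- the remaining integral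
  have hab : ∀ t ∈ Icc c d, t - t₀ ≠ 0 := by
    intro t ht h
    have := hne t ht
    rw [h, abs_zero] at this
    linarith
  have hRb : ∀ t ∈ Icc c d, ‖R t‖ ≤ M * K / ρ * (1 / (t - t₀) ^ 2) := by
    intro t ht
    rw [hR]
    simp only
    rw [norm_div, norm_mul, norm_mul, Complex.norm_I, one_mul, norm_pow]
    have h7 : 0 < |t - t₀| := abs_pos.2 (hab t ht)
    have h8 : (ρ * |t - t₀|) ^ 2 ≤ ‖Λ t‖ ^ 2 := pow_le_pow_left₀ (by positivity) (h3 t ht) 2
    have h9 : ‖u t‖ * ‖Λ' t‖ ≤ M * (K * ρ) := mul_le_mul (hu2 t ht) (h2 t ht) (norm_nonneg _) hM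
    calc ‖u t‖ * ‖Λ' t‖ / ‖Λ t‖ ^ 2 ≤ M * (K * ρ) / (ρ * |t - t₀|) ^ 2 :=
          div_le_div₀ (by positivity) h9 (by positivity) h8
      _ = M * K / ρ * (1 / (t - t₀) ^ 2) := by
          rw [mul_pow, sq_abs]
          have := hab t ht
          field_simp
  have hgder : ∀ t ∈ uIcc c d, HasDerivAt (fun t : ℝ => M * K / ρ * (-(t - t₀)⁻¹))
      (M * K / ρ * (1 / (t - t₀) ^ 2)) t := by
    intro t ht
    rw [hIcc] at ht
    have h7 : HasDerivAt (fun t : ℝ => t - t₀) 1 t := (hasDerivAt_id t).sub_const t₀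
    have h8 := ((h7.inv (hab t ht)).neg).const_mul (M * K / ρ)
    refine h8.congr_deriv ?_
    ring
  have hgcont : ContinuousOn (fun t : ℝ => M * K / ρ * (1 / (t - t₀) ^ 2)) (Icc c d) := by
    refine continuousOn_const.mul (ContinuousOn.div continuousOn_const (by fun_prop) ?_)
    intro t ht
    exact pow_ne_zero 2 (hab t ht)
  have hgint : IntervalIntegrable (fun t : ℝ => M * K / ρ * (1 / (t - t₀) ^ 2)) volume c d := by
    refine ContinuousOn.intervalIntegrable ?_
    rwa [hIcc]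
  have h10 : ‖∫ t in c..d, R t‖ ≤ ∫ t in c..d, M * K / ρ * (1 / (t - t₀) ^ 2) := by
    refine norm_integral_le_of_norm_le hcd (Eventually.of_forall fun t ht => ?_) hgint
    exact hRb t (Ioc_subset_Icc_self ht)
  rw [integral_eq_sub_of_hasDerivAt hgder hgint] at h10
  have h11 : M * K / ρ * (-(d - t₀)⁻¹) - M * K / ρ * (-(c - t₀)⁻¹) ≤ K * M / (ρ * δ) := by
    have h12 : (c - t₀)⁻¹ - (d - t₀)⁻¹ ≤ δ⁻¹ := by
      rcases h4 with h | h
      · have h13 : (c - t₀)⁻¹ ≤ δ⁻¹ := inv_anti₀ hδ (by linarith)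
        have h14 : 0 ≤ (d - t₀)⁻¹ := inv_nonneg.2 (by linarith)
        linarith
      · have h13 : (t₀ - d)⁻¹ ≤ δ⁻¹ := inv_anti₀ hδ (by linarith)
        have h14 : 0 ≤ (t₀ - c)⁻¹ := inv_nonneg.2 (by linarith)
        have e1 : (c - t₀)⁻¹ = -(t₀ - c)⁻¹ := by rw [← inv_neg, neg_sub]
        have e2 : (d - t₀)⁻¹ = -(t₀ - d)⁻¹ := by rw [← inv_neg, neg_sub]
        rw [e1, e2]
        linarith
    calc _ = M * K / ρ * ((c - t₀)⁻¹ - (d - t₀)⁻¹) := by ring
      _ ≤ M * K / ρ * δ⁻¹ := mul_le_mul_of_nonneg_left h12 (by positivity)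
      _ = _ := by field_simp
  rw [h6]
  have hc := hFb c (left_mem_Icc.2 hcd)
  have hd := hFb d (right_mem_Icc.2 hcd)
  calc _ ≤ ‖F d - F c‖ + ‖∫ t in c..d, R t‖ := norm_add_le _ _
    _ ≤ (M / (ρ * δ) + M / (ρ * δ)) + K * M / (ρ * δ) :=
        add_le_add ((norm_sub_le _ _).trans (add_le_add hd hc)) (h10.trans h11)
    _ = _ := by ring

/-- **Second derivative test** for a function `u` with `u' = i Λ u`, `Re Λ' ≥ ρ > 0`. -/
theorem vdc {a b ρ K M : ℝ} (hab : a ≤ b) (hρ : 0 < ρ) (hM : 0 ≤ M) (hK : 0 ≤ K)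
    {u Λ Λ' : ℝ → ℂ}
    (hu : ∀ t ∈ Icc a b, HasDerivAt u (I * Λ t * u t) t)
    (hΛ : ∀ t ∈ Icc a b, HasDerivAt Λ (Λ' t) t)
    (hcont : ContinuousOn Λ' (Icc a b))
    (h1 : ∀ t ∈ Icc a b, ρ ≤ (Λ' t).re)
    (h2 : ∀ t ∈ Icc a b, ‖Λ' t‖ ≤ K * ρ)
    (hu2 : ∀ t ∈ Icc a b, ‖u t‖ ≤ M) :
    ‖∫ t in a..b, u t‖ ≤ (6 + 2 * K) * M / √ρ := by
  -- growth of the real part
  have hre : ∀ t ∈ Icc a b, HasDerivAt (fun t => (Λ t).re) (Λ' t).re t := fun t ht =>
    (Complex.reCLM.hasFDerivAt (x := Λ t)).comp_hasDerivAt t (hΛ t ht)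
  have hcre : ContinuousOn (fun t => (Λ t).re) (Icc a b) :=
    fun t ht => (hre t ht).continuousAt.continuousWithinAt
  have hgrow : ∀ x ∈ Icc a b, ∀ y ∈ Icc a b, x ≤ y → ρ * (y - x) ≤ (Λ y).re - (Λ x).re := by
    intro x hx y hy hxy
    have hsub : Icc x y ⊆ Icc a b := Icc_subset_Icc hx.1 hy.2
    refine Convex.mul_sub_le_image_sub_of_le_deriv (convex_Icc x y) (hcre.mono hsub) ?_ ?_ x
      (left_mem_Icc.2 hxy) y (right_mem_Icc.2 hxy) hxy
    · intro t ht
      rw [interior_Icc] at ht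
      exact (hre t (hsub (Ioo_subset_Icc_self ht))).differentiableAt.differentiableWithinAt
    · intro t ht
      rw [interior_Icc] at ht
      rw [(hre t (hsub (Ioo_subset_Icc_self ht))).deriv]
      exact h1 t (hsub (Ioo_subset_Icc_self ht))
  -- the stationary point
  obtain ⟨t₀, ht₀, hr, hl⟩ : ∃ t₀ ∈ Icc a b, (∀ t ∈ Icc a b, t₀ < t → ρ * (t - t₀) ≤ (Λ t).re) ∧
      (∀ t ∈ Icc a b, t < t₀ → ρ * (t₀ - t) ≤ -(Λ t).re) := by
    rcases le_or_gt 0 (Λ a).re with ha | ha
    · refine ⟨a, left_mem_Icc.2 hab, fun t ht h => ?_, fun t ht h => absurd h (not_lt.2 ht.1)⟩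
      have := hgrow a (left_mem_Icc.2 hab) t ht h.le
      linarith
    · rcases le_or_gt (Λ b).re 0 with hb | hb
      · refine ⟨b, right_mem_Icc.2 hab, fun t ht h => absurd h (not_lt.2 ht.2), fun t ht h => ?_⟩
        have := hgrow t ht b (right_mem_Icc.2 hab) h.le
        linarith
      · obtain ⟨t₀, ht₀, h0⟩ := intermediate_value_Icc hab hcre ⟨ha.le, hb.le⟩
        simp only at h0
        refine ⟨t₀, ht₀, fun t ht h => ?_, fun t ht h => ?_⟩
        · have := hgrow t₀ ht₀ t ht h.le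
          linarith
        · have := hgrow t ht t₀ ht₀ h.le
          linarith
  set δ : ℝ := 1 / √ρ with hδ
  have hsq : 0 < √ρ := Real.sqrt_pos.2 hρ
  have hδ0 : 0 < δ := by positivity
  have hρδ : ρ * δ = √ρ := by
    rw [hδ]
    field_simp
    rw [Real.sq_sqrt hρ.le]
  set p : ℝ := max a (t₀ - δ) with hp
  set q : ℝ := min b (t₀ + δ) with hq
  have hap : a ≤ p := le_max_left _ _
  have hqb : q ≤ b := min_le_left _ _
  have hpt : p ≤ t₀ := max_le ht₀.1 (by linarith)
  have htq : t₀ ≤ q := le_min ht₀.2 (by linarith)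
  have hcu : ContinuousOn u (Icc a b) := fun t ht => (hu t ht).continuousAt.continuousWithinAt
  have hiu : ∀ x y : ℝ, a ≤ x → y ≤ b → x ≤ y → IntervalIntegrable u volume x y := by
    intro x y hx hy hxy
    refine ContinuousOn.intervalIntegrable ?_
    rw [uIcc_of_le hxy]
    exact hcu.mono (Icc_subset_Icc hx hy)
  -- left part
  have hL : ‖∫ t in a..p, u t‖ ≤ (2 + K) * M / (ρ * δ) := by
    rcases le_or_gt (t₀ - δ) a with h | h
    · have : p = a := max_eq_left h
      rw [this, integral_same, norm_zero]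
      positivity
    · have hpe : p = t₀ - δ := max_eq_right h.le
      have hsub : Icc a p ⊆ Icc a b := Icc_subset_Icc le_rfl (by linarith)
      refine far (t₀ := t₀) hap hρ hδ0 hM hK (fun t ht => hu t (hsub ht)) (fun t ht => hΛ t (hsub ht))
        (hcont.mono hsub) (fun t ht => h2 t (hsub ht)) (fun t ht => hu2 t (hsub ht)) (fun t ht => ?_)
        (Or.inr hpe.le)
      have ht2 : t < t₀ := by linarith [ht.2]
      have h3 := hl t (hsub ht) ht2
      rw [abs_of_neg (by linarith)]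
      have h4 := Complex.abs_re_le_norm (Λ t)
      have h5 := neg_abs_le (Λ t).re
      linarith
  -- right part
  have hR : ‖∫ t in q..b, u t‖ ≤ (2 + K) * M / (ρ * δ) := by
    rcases le_or_gt b (t₀ + δ) with h | h
    · have : q = b := min_eq_left h
      rw [this, integral_same, norm_zero]
      positivity
    · have hqe : q = t₀ + δ := min_eq_right h.le
      have hsub : Icc q b ⊆ Icc a b := Icc_subset_Icc (by linarith) le_rfl
      refine far (t₀ := t₀) hqb hρ hδ0 hM hK (fun t ht => hu t (hsub ht)) (fun t ht => hΛ t (hsub ht))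
        (hcont.mono hsub) (fun t ht => h2 t (hsub ht)) (fun t ht => hu2 t (hsub ht)) (fun t ht => ?_)
        (Or.inl hqe.ge)
      have ht2 : t₀ < t := by linarith [ht.1]
      have h3 := hr t (hsub ht) ht2
      rw [abs_of_pos (by linarith)]
      have h4 := Complex.re_le_norm (Λ t)
      linarith
  -- middle part
  have hMid : ‖∫ t in p..q, u t‖ ≤ M * (2 * δ) := by
    have hpq : p ≤ q := hpt.trans htq
    have h3 := norm_integral_le_of_norm_le_const (a := p) (b := q) (f := u) (C := M) (fun t ht => by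
      rw [uIoc_of_le hpq] at ht
      exact hu2 t ⟨by linarith [ht.1], by linarith [ht.2]⟩)
    refine h3.trans (mul_le_mul_of_nonneg_left ?_ hM)
    rw [abs_of_nonneg (by linarith)]
    have h4 : t₀ - δ ≤ p := le_max_right _ _
    have h5 : q ≤ t₀ + δ := min_le_right _ _
    linarith
  have hsplit : ∫ t in a..b, u t = (∫ t in a..p, u t) + (∫ t in p..q, u t) + ∫ t in q..b, u t := by
    rw [integral_add_adjacent_intervals (hiu a p le_rfl (by linarith) hap)
      (hiu p q hap hqb (hpt.trans htq)), integral_add_adjacent_intervals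
      (hiu a q le_rfl hqb (by linarith)) (hiu q b (by linarith) le_rfl hqb)]
  rw [hsplit]
  calc _ ≤ (2 + K) * M / (ρ * δ) + M * (2 * δ) + (2 + K) * M / (ρ * δ) :=
        (norm_add_le _ _).trans (add_le_add ((norm_add_le _ _).trans (add_le_add hL hMid)) hR)
    _ = _ := by
        rw [hρδ, hδ]
        field_simp
        ring

end Pool.Agent.TH949.RES
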