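import Pool.Agent.TH949.RES.Tri
import Pool.Agent.TH949.RES.VdC
import Pool.Agent.W189.TP.Main

/-! The quotient of the Gamma factors. -/

set_option autoImplicit false

namespace Pool.Agent.TH949.RES

open Filter Topology Complex MeasureTheory Set

theorem hd_of {f : ℂ → ℂ} {s : ℂ} (hd : DifferentiableAt ℂ f s) (hne : f s ≠ 0) :
    HasDerivAt f (f s * logDeriv f s) s := by
  rw [logDeriv_apply, mul_div_cancel₀ _ hne]
  exact hd.hasDerivAt

theorem gr_ne0 {w : ℂ} (h : w.im ≠ 0) : Gammaℝ w ≠ 0 :=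
  Pool.Agent.W355.LJ.gr_ne w fun n => Pool.Agent.W355.LJ.im_ne h n

theorem gr_hd {w : ℂ} (h : w.im ≠ 0) : HasDerivAt Gammaℝ (Gammaℝ w * logDeriv Gammaℝ w) w :=
  hd_of (Pool.Agent.W355.LJ.gr_diff w fun n => Pool.Agent.W355.LJ.im_ne h n) (gr_ne0 h)

variable {N : ℕ}

/-- `Q^{2s-1} ∏ Γ_ℝ(s + κ_j) / Γ_ℝ(1 - s + κ_j)` -/
noncomputable def YY (κ : Fin N → ℂ) (Q : ℝ) (s : ℂ) : ℂ :=
  cexp ((2 * s - 1) * (Real.log Q : ℝ)) * ∏ j, (Gammaℝ (s + κ j) / Gammaℝ (1 - s + κ j))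

/-- its logarithmic derivative -/
noncomputable def PP (κ : Fin N → ℂ) (Q : ℝ) (s : ℂ) : ℂ :=
  2 * (Real.log Q : ℝ) + ∑ j, (logDeriv Gammaℝ (s + κ j) + logDeriv Gammaℝ (1 - s + κ j))

/-- and the derivative of this -/
noncomputable def PD (κ : Fin N → ℂ) (s : ℂ) : ℂ := ∑ j, (TR (s + κ j) - TR (1 - s + κ j))

/-- a bound for the shifts -/
noncomputable def KK (κ : Fin N → ℂ) : ℝ := ∑ j, ‖κ j‖

theorem KK_nonneg (κ : Fin N → ℂ) : 0 ≤ KK κ := Finset.sum_nonneg fun _ _ => norm_nonneg _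

theorem le_KK (κ : Fin N → ℂ) (j : Fin N) : ‖κ j‖ ≤ KK κ :=
  Finset.single_le_sum (f := fun j => ‖κ j‖) (fun _ _ => norm_nonneg _) (Finset.mem_univ j)

theorem im1 {κ : Fin N → ℂ} {s : ℂ} (hs : 2 * KK κ + 5 ≤ s.im) (j : Fin N) :
    s.im / 2 + 2 < (s + κ j).im := by
  have h1 := le_KK κ j
  have h2 := Complex.abs_im_le_norm (κ j)
  have h3 := neg_abs_le (κ j).im
  rw [Complex.add_im]
  linarith

theorem im2 {κ : Fin N → ℂ} {s : ℂ} (hs : 2 * KK κ + 5 ≤ s.im) (j : Fin N) :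
    (1 - s + κ j).im < -(s.im / 2 + 2) := by
  have h1 := le_KK κ j
  have h2 := Complex.abs_im_le_norm (κ j)
  have h3 := le_abs_self (κ j).im
  rw [Complex.add_im, Complex.sub_im, Complex.one_im]
  linarith

theorem YY_hd {κ : Fin N → ℂ} {Q : ℝ} {s : ℂ} (hs : 2 * KK κ + 5 ≤ s.im) :
    HasDerivAt (YY κ Q) (YY κ Q s * PP κ Q s) s := by
  have hK := KK_nonneg κ
  have hfac : ∀ j, HasDerivAt (fun s : ℂ => Gammaℝ (s + κ j) / Gammaℝ (1 - s + κ j))
      (Gammaℝ (s + κ j) / Gammaℝ (1 - s + κ j) *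
        (logDeriv Gammaℝ (s + κ j) + logDeriv Gammaℝ (1 - s + κ j))) s := by
    intro j
    have a1 : (s + κ j).im ≠ 0 := by have := im1 hs j; intro h; linarith
    have a2 : (1 - s + κ j).im ≠ 0 := by have := im2 hs j; intro h; linarith
    have b1 : HasDerivAt (fun s : ℂ => s + κ j) 1 s := (hasDerivAt_id s).add_const _
    have b2 : HasDerivAt (fun s : ℂ => 1 - s + κ j) (-1) s := ((hasDerivAt_id s).const_sub 1).add_const _
    have c1 := (gr_hd a1).comp s b1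
    have c2 := (gr_hd a2).comp s b2
    have n2 := gr_ne0 a2
    have h3 := c1.div c2 n2
    refine h3.congr_deriv ?_
    simp only [Function.comp_apply]
    field_simp
    ring
  have hprod : HasDerivAt (fun s : ℂ => ∏ j, (Gammaℝ (s + κ j) / Gammaℝ (1 - s + κ j)))
      ((∏ j, (Gammaℝ (s + κ j) / Gammaℝ (1 - s + κ j))) *
        ∑ j, (logDeriv Gammaℝ (s + κ j) + logDeriv Gammaℝ (1 - s + κ j))) s := by
    have h1 := HasDerivAt.fun_finsetProd (u := Finset.univ) (fun j _ => hfac j)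
    refine h1.congr_deriv ?_
    rw [Finset.mul_sum]
    refine Finset.sum_congr rfl fun j _ => ?_
    rw [smul_eq_mul, ← mul_assoc, Finset.prod_erase_mul _ _ (Finset.mem_univ j)]
  have hexp : HasDerivAt (fun s : ℂ => cexp ((2 * s - 1) * (Real.log Q : ℝ)))
      (cexp ((2 * s - 1) * (Real.log Q : ℝ)) * (2 * (Real.log Q : ℝ))) s := by
    have h1 : HasDerivAt (fun s : ℂ => (2 * s - 1) * ((Real.log Q : ℝ) : ℂ)) (2 * (Real.log Q : ℝ)) s := by
      have h2 := ((((hasDerivAt_id s).const_mul 2).sub_const 1).mul_const ((Real.log Q : ℝ) : ℂ))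
      refine h2.congr_deriv ?_
      ring
    exact h1.cexp
  have h2 := hexp.mul hprod
  refine h2.congr_deriv ?_
  unfold YY PP
  ring

theorem PP_hd {κ : Fin N → ℂ} {Q : ℝ} {s : ℂ} (hs : 2 * KK κ + 5 ≤ s.im) :
    HasDerivAt (PP κ Q) (PD κ s) s := by
  have hK := KK_nonneg κ
  unfold PP PD
  refine HasDerivAt.const_add _ (HasDerivAt.fun_sum fun j _ => ?_)
  have a1 : 2 < |(s + κ j).im| := by
    have := im1 hs j
    rw [abs_of_pos (by linarith)]
    linarith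
  have a2 : 2 < |(1 - s + κ j).im| := by
    have := im2 hs j
    rw [abs_of_neg (by linarith)]
    linarith
  have b1 : HasDerivAt (fun s : ℂ => s + κ j) 1 s := (hasDerivAt_id s).add_const _
  have b2 : HasDerivAt (fun s : ℂ => 1 - s + κ j) (-1) s := ((hasDerivAt_id s).const_sub 1).add_const _
  have c1 := (psiR_deriv a1).comp s b1
  have c2 := (psiR_deriv a2).comp s b2
  refine (c1.add c2).congr_deriv ?_
  ring

theorem PD_near (κ : Fin N → ℂ) (σ : ℝ) : ∃ C : ℝ, 0 ≤ C ∧ ∀ t : ℝ, 2 * KK κ + 5 ≤ t →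
    ‖PD κ (σ + t * I) - N / (t * I)‖ ≤ C / t ^ 2 := by
  have hK := KK_nonneg κ
  obtain ⟨k, hk⟩ := exists_nat_ge (|σ| + 1 + KK κ)
  have hσ := abs_nonneg σ
  refine ⟨∑ j : Fin N, (2 * |σ| + 1 + 2 * KK κ + 8 * ((k : ℝ) + 4)), Finset.sum_nonneg fun j _ => by positivity,
    fun t ht => ?_⟩
  have ht0 : 0 < t := by linarith
  set s : ℂ := σ + t * I with hs
  have hsim : s.im = t := by simp [hs]
  have hsre : s.re = σ := by simp [hs]
  have e1 : PD κ s - N / (t * I) = ∑ j, (TR (s + κ j) - TR (1 - s + κ j) - 1 / (t * I)) := by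
    unfold PD
    have : (N : ℂ) / (t * I) = ∑ j : Fin N, 1 / (t * I) := by
      rw [Finset.sum_const, Finset.card_univ, Fintype.card_fin, nsmul_eq_mul]
      ring
    rw [this, ← Finset.sum_sub_distrib]
  rw [e1, Finset.sum_div]
  refine (norm_sum_le _ _).trans (Finset.sum_le_sum fun j _ => ?_)
  have hκ := le_KK κ j
  have hr := abs_le.1 ((Complex.abs_re_le_norm (κ j)).trans hκ)
  have i1 := im1 (s := s) (by rw [hsim]; exact ht) j
  have i2 := im2 (s := s) (by rw [hsim]; exact ht) j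
  rw [hsim] at i1 i2
  have hσ1 := abs_le.1 (le_refl |σ|)
  have n1 := TR_near (w := s + κ j) (k := k) (by
    rw [Complex.add_re, hsre]
    linarith) (by rw [abs_of_pos (by linarith)]; linarith)
  have n2 := TR_near (w := 1 - s + κ j) (k := k) (by
    rw [Complex.add_re, Complex.sub_re, hsre, Complex.one_re]
    linarith) (by rw [abs_of_neg (by linarith)]; linarith)
  have m1 : ((k : ℝ) + 4) / |(s + κ j).im| ^ 2 ≤ 4 * ((k : ℝ) + 4) / t ^ 2 := by
    have : t / 2 ≤ |(s + κ j).im| := by rw [abs_of_pos (by linarith)]; linarith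
    rw [div_le_div_iff₀ (by have : 0 < |(s + κ j).im| := by linarith
                            positivity) (by positivity)]
    have h5 : t ^ 2 ≤ 4 * |(s + κ j).im| ^ 2 := by nlinarith
    have h6 : (0 : ℝ) ≤ (k : ℝ) + 4 := by positivity
    nlinarith
  have m2 : ((k : ℝ) + 4) / |(1 - s + κ j).im| ^ 2 ≤ 4 * ((k : ℝ) + 4) / t ^ 2 := by
    have : t / 2 ≤ |(1 - s + κ j).im| := by rw [abs_of_neg (by linarith)]; linarith
    rw [div_le_div_iff₀ (by have : 0 < |(1 - s + κ j).im| := by linarith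
                            positivity) (by positivity)]
    have h5 : t ^ 2 ≤ 4 * |(1 - s + κ j).im| ^ 2 := by nlinarith
    have h6 : (0 : ℝ) ≤ (k : ℝ) + 4 := by positivity
    nlinarith
  have z1 : s + κ j ≠ 0 := by
    intro h
    rw [h] at i1
    simp at i1
    linarith
  have z2 : 1 - s + κ j ≠ 0 := by
    intro h
    rw [h] at i2
    simp at i2
    linarith
  have ht' : (t : ℂ) ≠ 0 := by exact_mod_cast ht0.ne'
  have q1 : ‖1 / (2 * (s + κ j)) - 1 / (2 * (t * I))‖ ≤ (|σ| + KK κ) / t ^ 2 := by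
    have e : 1 / (2 * (s + κ j)) - 1 / (2 * (t * I)) = -(σ + κ j) / (2 * (s + κ j) * (t * I)) := by
      have h2 := I_ne_zero
      rw [div_sub_div _ _ (by simpa using z1) (by simp [ht']), div_eq_div_iff (by simp [z1, ht']) (by simp [z1, ht'])]
      rw [hs]
      ring
    rw [e, norm_div, norm_neg, norm_mul, norm_mul, norm_mul, Complex.norm_I, mul_one, Complex.norm_real,
      Real.norm_of_nonneg ht0.le]
    have e2 : ‖(2 : ℂ)‖ = 2 := by simp
    rw [e2]
    have h1 : ‖(σ : ℂ) + κ j‖ ≤ |σ| + KK κ := by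
      refine (norm_add_le _ _).trans (add_le_add ?_ hκ)
      rw [Complex.norm_real, Real.norm_eq_abs]
    have h2 : t / 2 ≤ ‖s + κ j‖ := by
      refine le_trans ?_ (Complex.abs_im_le_norm _)
      rw [abs_of_pos (by linarith)]
      linarith
    refine div_le_div₀ (by positivity) h1 (by positivity) ?_
    nlinarith
  have q2 : ‖-(1 / (2 * (1 - s + κ j))) - 1 / (2 * (t * I))‖ ≤ (|σ| + 1 + KK κ) / t ^ 2 := by
    have e : -(1 / (2 * (1 - s + κ j))) - 1 / (2 * (t * I)) =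
        -(1 - σ + κ j) / (2 * (1 - s + κ j) * (t * I)) := by
      have h2 := I_ne_zero
      rw [← neg_div, div_sub_div _ _ (by simpa using z2) (by simp [ht']),
        div_eq_div_iff (by simp [z2, ht']) (by simp [z2, ht'])]
      rw [hs]
      ring
    rw [e, norm_div, norm_neg, norm_mul, norm_mul, norm_mul, Complex.norm_I, mul_one, Complex.norm_real,
      Real.norm_of_nonneg ht0.le]
    have e2 : ‖(2 : ℂ)‖ = 2 := by simp
    rw [e2]
    have h1 : ‖1 - (σ : ℂ) + κ j‖ ≤ |σ| + 1 + KK κ := by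
      refine (norm_add_le _ _).trans (add_le_add ?_ hκ)
      refine (norm_sub_le _ _).trans ?_
      rw [Complex.norm_real, Real.norm_eq_abs, norm_one]
      linarith
    have h2 : t / 2 ≤ ‖1 - s + κ j‖ := by
      refine le_trans ?_ (Complex.abs_im_le_norm _)
      rw [abs_of_neg (by linarith)]
      linarith
    refine div_le_div₀ (by positivity) h1 (by positivity) ?_
    nlinarith
  have e3 : TR (s + κ j) - TR (1 - s + κ j) - 1 / (t * I) =
      (TR (s + κ j) - 1 / (2 * (s + κ j))) - (TR (1 - s + κ j) - 1 / (2 * (1 - s + κ j))) +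
      ((1 / (2 * (s + κ j)) - 1 / (2 * (t * I))) + (-(1 / (2 * (1 - s + κ j))) - 1 / (2 * (t * I)))) := by
    have : (1 : ℂ) / (t * I) = 1 / (2 * (t * I)) + 1 / (2 * (t * I)) := by
      field_simp
      ring
    rw [this]
    ring
  rw [e3]
  refine (norm_add_le _ _).trans ?_
  have f1 := (norm_sub_le (TR (s + κ j) - 1 / (2 * (s + κ j))) (TR (1 - s + κ j) - 1 / (2 * (1 - s + κ j)))).trans
    (add_le_add (n1.trans m1) (n2.trans m2))
  have f2 := (norm_add_le (1 / (2 * (s + κ j)) - 1 / (2 * (t * I)))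
    (-(1 / (2 * (1 - s + κ j))) - 1 / (2 * (t * I)))).trans (add_le_add q1 q2)
  refine (add_le_add f1 f2).trans (le_of_eq ?_)
  ring

/-- growth along horizontal segments -/
theorem gr_seg (μ : ℂ) {σ₁ σ₂ : ℝ} (h12 : σ₁ ≤ σ₂) : ∃ K T0 : ℝ, 0 ≤ K ∧ 1 ≤ T0 ∧ ∀ t : ℝ, T0 ≤ t →
    ‖Gammaℝ (σ₂ + t * I + μ)‖ ≤ ‖Gammaℝ (σ₁ + t * I + μ)‖ *
      (Real.exp (K * (σ₂ - σ₁)) * t ^ ((σ₂ - σ₁) / 2)) := by
  obtain ⟨K, T0, hK, hT0, h⟩ := Pool.Agent.W355.LJ.gr_logd μ
  refine ⟨K, max T0 (2 * (|σ₁| + |σ₂|)), hK, hT0.trans (le_max_left _ _), fun t ht => ?_⟩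
  have ht1 : T0 ≤ t := (le_max_left _ _).trans ht
  have ht2 : 2 * (|σ₁| + |σ₂|) ≤ t := (le_max_right _ _).trans ht
  have ht0 : 0 < t := by linarith
  have hlog : 0 ≤ Real.log t := Real.log_nonneg (hT0.trans ht1)
  set f : ℝ → ℂ := fun x => Gammaℝ (x + t * I + μ) with hf
  set f' : ℝ → ℂ := fun x => Gammaℝ (x + t * I + μ) * logDeriv (fun s : ℂ => Gammaℝ (s + μ)) (x + t * I)
    with hf'
  have hreg : ∀ x ∈ Icc σ₁ σ₂, T0 ≤ ((x : ℂ) + t * I).im ∧ |((x : ℂ) + t * I).re| ≤ 3 / 4 * ((x : ℂ) + t * I).im := by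
    intro x hx
    have e1 : ((x : ℂ) + t * I).im = t := by simp
    have e2 : ((x : ℂ) + t * I).re = x := by simp
    rw [e1, e2]
    refine ⟨ht1, ?_⟩
    have h1 : |x| ≤ |σ₁| + |σ₂| := by
      rw [abs_le]
      have := neg_abs_le σ₁
      have := le_abs_self σ₂
      have := abs_nonneg σ₁
      have := abs_nonneg σ₂
      constructor <;> linarith [hx.1, hx.2]
    linarith
  have hder : ∀ x ∈ Icc σ₁ σ₂, HasDerivAt f (f' x) x := by
    intro x hx
    obtain ⟨a1, a2⟩ := hreg x hx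
    obtain ⟨b1, b2, -⟩ := h _ a1 a2
    have h1 := hd_of b2 b1
    have h2 : HasDerivAt (fun x : ℝ => (x : ℂ) + t * I) 1 x := (Complex.ofRealCLM.hasDerivAt (x := x)).add_const _
    have h3 := h1.comp x h2
    rw [mul_one] at h3
    exact h3
  have hbd : ∀ x ∈ Icc σ₁ σ₂, ‖f' x‖ ≤ (1 / 2 * Real.log t + K) * ‖f x‖ + 0 := by
    intro x hx
    obtain ⟨a1, a2⟩ := hreg x hx
    obtain ⟨-, -, b3⟩ := h _ a1 a2
    have e1 : ((x : ℂ) + t * I).im = t := by simp
    rw [e1] at b3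
    have h1 : ‖logDeriv (fun s : ℂ => Gammaℝ (s + μ)) (x + t * I)‖ ≤ 1 / 2 * Real.log t + K := by
      have h2 := norm_le_norm_add_norm_sub' (logDeriv (fun s : ℂ => Gammaℝ (s + μ)) (x + t * I))
        (((1 / 2 * Real.log t : ℝ) : ℂ))
      rw [Complex.norm_real, Real.norm_of_nonneg (by positivity)] at h2
      linarith
    rw [hf', hf]
    simp only
    rw [norm_mul, add_zero, mul_comm]
    exact mul_le_mul_of_nonneg_right h1 (norm_nonneg _)
  have hg := norm_le_gronwallBound_of_norm_deriv_right_le (f := f) (f' := f') (δ := ‖f σ₁‖)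
    (K := 1 / 2 * Real.log t + K) (ε := 0) (a := σ₁) (b := σ₂)
    (fun x hx => (hder x hx).continuousAt.continuousWithinAt)
    (fun x hx => (hder x (Ico_subset_Icc_self hx)).hasDerivWithinAt) le_rfl
    (fun x hx => hbd x (Ico_subset_Icc_self hx)) σ₂ (right_mem_Icc.2 h12)
  rw [gronwallBound_ε0] at hg
  refine hg.trans (le_of_eq ?_)
  congr 1
  rw [Real.rpow_def_of_pos ht0, ← Real.exp_add]
  congr 1
  ring

theorem YY_norm {κ : Fin N → ℂ} (hκ : Multiset.map (fun j => (starRingEnd ℂ) (κ j)) Finset.univ.val =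
      Multiset.map κ Finset.univ.val) (Q : ℝ) {σ : ℝ} (hσ : 1 / 2 ≤ σ) :
    ∃ C T1 : ℝ, 0 ≤ C ∧ 1 ≤ T1 ∧ ∀ t : ℝ, T1 ≤ t →
      ‖YY κ Q (σ + t * I)‖ ≤ C * t ^ ((N : ℝ) * (σ - 1 / 2)) := by
  have h12 : 1 - σ ≤ σ := by linarith
  choose K T0 hK hT0 h using fun j => gr_seg (κ j) h12
  have hT : ∀ j, T0 j ≤ ∑ j, T0 j := fun j =>
    Finset.single_le_sum (f := T0) (fun j _ => by linarith [hT0 j]) (Finset.mem_univ j)
  refine ⟨Real.exp ((2 * σ - 1) * Real.log Q) * ∏ j, Real.exp (K j * (σ - (1 - σ))),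
    1 + (2 * KK κ + 5) + ∑ j, T0 j, by positivity, ?_, fun t ht => ?_⟩
  · have := KK_nonneg κ
    have : 0 ≤ ∑ j, T0 j := Finset.sum_nonneg fun j _ => by linarith [hT0 j]
    linarith
  have hK0 := KK_nonneg κ
  have hS : 0 ≤ ∑ j, T0 j := Finset.sum_nonneg fun j _ => by linarith [hT0 j]
  have ht0 : 0 < t := by linarith
  set s : ℂ := σ + t * I with hs
  have hsim : s.im = t := by simp [hs]
  -- conjugation
  have hconj : ∏ j, ‖Gammaℝ (1 - s + κ j)‖ = ∏ j, ‖Gammaℝ (((1 - σ : ℝ) : ℂ) + t * I + κ j)‖ := by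
    rw [Pool.Agent.W189.TP.conj_prod hκ (fun z => ‖Gammaℝ (1 - s + z)‖)]
    refine Finset.prod_congr rfl fun j _ => ?_
    rw [← Pool.Agent.W189.TP.norm_Gammaℝ_conj]
    congr 2
    rw [hs]
    simp only [map_add, map_sub, map_one, map_mul, Complex.conj_I, Complex.conj_ofReal,
      Complex.conj_conj]
    push_cast
    ring
  have hpos : ∀ j, 0 < ‖Gammaℝ (((1 - σ : ℝ) : ℂ) + t * I + κ j)‖ := by
    intro j
    refine norm_pos_iff.2 (gr_ne0 ?_)
    have h1 := im1 (κ := κ) (s := ((1 - σ : ℝ) : ℂ) + t * I) (by simp; linarith) j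
    have e : (((1 - σ : ℝ) : ℂ) + t * I).im = t := by simp
    rw [e] at h1
    intro h0
    rw [h0] at h1
    linarith
  unfold YY
  rw [norm_mul, norm_prod]
  have e1 : ‖cexp ((2 * s - 1) * (Real.log Q : ℝ))‖ = Real.exp ((2 * σ - 1) * Real.log Q) := by
    rw [Complex.norm_exp]
    congr 1
    simp [hs]
  have e2 : ∏ j, ‖Gammaℝ (s + κ j) / Gammaℝ (1 - s + κ j)‖ =
      (∏ j, ‖Gammaℝ (s + κ j)‖) / ∏ j, ‖Gammaℝ (((1 - σ : ℝ) : ℂ) + t * I + κ j)‖ := by
    rw [← hconj, ← Finset.prod_div_distrib]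
    exact Finset.prod_congr rfl fun j _ => norm_div _ _
  rw [e1, e2, mul_assoc]
  refine mul_le_mul_of_nonneg_left ?_ (Real.exp_pos _).le
  rw [div_le_iff₀ (Finset.prod_pos fun j _ => hpos j)]
  have e3 : t ^ ((N : ℝ) * (σ - 1 / 2)) = ∏ j : Fin N, t ^ ((σ - (1 - σ)) / 2) := by
    rw [Finset.prod_const, Finset.card_univ, Fintype.card_fin, ← Real.rpow_natCast, ← Real.rpow_mul ht0.le]
    congr 1
    ring
  rw [e3, ← Finset.prod_mul_distrib, ← Finset.prod_mul_distrib]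
  refine Finset.prod_le_prod (fun j _ => norm_nonneg _) fun j _ => ?_
  rw [mul_comm]
  exact h j t ((hT j).trans (by linarith))

end Pool.Agent.TH949.RES
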