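import Pool.Agent.TH949.RES.RAM

/-! Cuspidal representations of `GL_n` over `ℚ`: the main theorem. -/

set_option autoImplicit false

namespace Pool.Agent.TH949.RES

open Filter Topology Complex
open Pool.Agent.W189.TP (DS extend extend_id DS_diff PS LL LL_nonneg exp_LL rexp_LL summable_pp zetaS norm_term
  summable_primes_subtype summ_cplx summ_mono logRS bad bad_diff)

variable {n : ℕ} {S : Finset Nat.Primes}

theorem pr_cpow (p : Nat.Primes) (s : ℂ) :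
    ((p : ℕ) : ℂ) ^ (-s) = Complex.exp (-(s * Real.log ((p : ℕ) : ℝ))) := by
  have hne : ((p : ℕ) : ℂ) ≠ 0 := by exact_mod_cast p.2.ne_zero
  rw [Complex.cpow_def_of_ne_zero hne, Complex.natCast_log]
  congr 1
  ring

/-- the weights of the unramified primes -/
noncomputable def smS (α : PS S → Fin n → ℂ) (p : PS S) : ℝ := max 0 (1 - ‖∑ i, α p i‖ ^ 2)

theorem sm_ez {α : PS S → Fin n → ℂ} {c : ℝ}
    (hs : Summable fun p : PS S => max 0 (1 - ‖∑ i, α p i‖ ^ 2) * ((p.1 : ℕ) : ℝ) ^ (-c)) :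
    Summable fun p : PS ∅ => sm (ez α) p * ((p.1 : ℕ) : ℝ) ^ (-c) := by
  set e : PS ∅ ≃ Nat.Primes := Equiv.subtypeUnivEquiv fun p => Finset.notMem_empty p
  set f : Nat.Primes → ℝ := fun p => sm (ez α) (e.symm p) * ((p : ℕ) : ℝ) ^ (-c) with hf
  have h1 : Summable f := by
    rw [← S.summable_compl_iff]
    refine hs.congr fun p => ?_
    rw [hf]
    simp only
    congr 1
    have h2 : ez α (e.symm p.1) = α p := ez_of α p
    unfold sm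
    rw [h2]
  have h3 := e.summable_iff.2 h1
  refine h3.congr fun p => ?_
  simp only [Function.comp, hf, Equiv.symm_apply_apply]
  rfl

theorem ram_exponent (hn : 2 ≤ n) {α : PS S → Fin n → ℂ} {β : Nat.Primes → Fin (n ^ 2) → ℂ}
    {κ : Fin (n ^ 2 - 1) → ℂ}
    (hκ : Multiset.map (fun j => (starRingEnd ℂ) (κ j)) Finset.univ.val = Multiset.map κ Finset.univ.val)
    (hss : ∀ t : ℝ, 1 < t → Summable fun x : PS ∅ × ℕ => |d0 (ez α) x| * Real.exp (-(t * LL x)))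
    {G Ξ : ℂ → ℂ} {Q : ℝ} {ω : ℂ} (hG : Differentiable ℂ G) (hΞ : Differentiable ℂ Ξ) (hQ : 0 < Q) (hω : ω ≠ 0)
    (hE : ∀ s : ℂ, 1 < s.re → G s * ∏ p ∈ S, ∏ i, (1 - β p i * ((p : ℕ) : ℂ) ^ (-s)) =
      (s - 1) * Complex.exp (logRS α s))
    (hgr : ∀ a b : ℝ, ∃ C A : ℝ, ∀ s : ℂ, a ≤ s.re → s.re ≤ b → ‖G s‖ ≤ C * (1 + |s.im|) ^ A)
    (hid : ∀ s : ℂ, 1 < s.re → Ξ s = s * G s * ((Q : ℂ) ^ s * Gammaℝ s * ∏ j, Gammaℝ (s + κ j)))
    (hfe : ∀ s : ℂ, Ξ (1 - s) = ω * Ξ s) {c : ℝ}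
    (hs : ∀ t, c < t → Summable fun x : PS ∅ × ℕ => |d1 (ez α) x| * Real.exp (-(t * LL x)))
    (hL : ∀ s : ℂ, c < s.re → cexp (DS (d1 (ez α)) LL s) * riemannZeta₁ s =
      G s * ∏ p ∈ S, ∏ i, (1 - β p i * ((p : ℕ) : ℂ) ^ (-s))) :
    (n : ℝ) ^ 2 / (2 * (n : ℝ) ^ 2 - 1) ≤ c := by
  have hn2 : 4 ≤ n ^ 2 := by nlinarith
  obtain ⟨m, hm⟩ : ∃ m, m = n ^ 2 - 1 := ⟨_, rfl⟩
  have hmr : ((n ^ 2 - 1 : ℕ) : ℝ) + 1 = (n : ℝ) ^ 2 := by
    have : ((n ^ 2 - 1 + 1 : ℕ) : ℝ) = ((n ^ 2 : ℕ) : ℝ) := by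
      rw [show n ^ 2 - 1 + 1 = n ^ 2 by omega]
    push_cast at this
    exact this
  have e1 : (n : ℝ) ^ 2 / (2 * (n : ℝ) ^ 2 - 1) =
      (((n ^ 2 - 1 : ℕ) : ℝ) + 1) / (2 * ((n ^ 2 - 1 : ℕ) : ℝ) + 1) := by
    rw [← hmr]
    congr 1
    ring
  rw [e1]
  have hcnt : Countable (PS ∅ × ℕ) := inferInstance
  set β' : S × Fin (n ^ 2) → ℂ := fun x => β x.1 x.2 with hβ'
  set q : S × Fin (n ^ 2) → ℝ := fun x => ((x.1.1 : ℕ) : ℝ) with hq
  have hbf : ∀ s : ℂ, ∏ p ∈ S, ∏ i, (1 - β p i * ((p : ℕ) : ℂ) ^ (-s)) = bf β' q s := by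
    intro s
    unfold bf
    rw [Fintype.prod_prod_type, ← Finset.prod_coe_sort]
    refine Finset.prod_congr rfl fun v _ => Finset.prod_congr rfl fun i _ => ?_
    rw [pr_cpow]
  simp_rw [hbf] at hE hL
  have hGF : ∀ s : ℂ, GF (c0 κ) Q s = (Q : ℂ) ^ s * Gammaℝ s * ∏ j, Gammaℝ (s + κ j) := by
    intro s
    unfold GF
    rw [Fin.prod_univ_succ, Q_cpow hQ]
    simp [c0, mul_assoc]
  set Lf : ℂ → ℂ := fun s => G s / (s - 1) with hLf
  refine le_of_forall_gt_imp_ge_of_dense fun σ hσ => ?_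
  set T0 : ℝ := 1 + ∑ i, ‖κ i‖ with hT0
  have hle : ∀ i, ‖κ i‖ ≤ ∑ i, ‖κ i‖ := fun i =>
    Finset.single_le_sum (f := fun i => ‖κ i‖) (fun _ _ => norm_nonneg _) (Finset.mem_univ i)
  have hnn : 0 ≤ ∑ i, ‖κ i‖ := Finset.sum_nonneg fun _ _ => norm_nonneg _
  have hT1 : 1 ≤ T0 := by
    rw [hT0]
    linarith
  have hs1 : ∀ s : ℂ, T0 < |s.im| → s - 1 ≠ 0 := by
    intro s hs h0
    rw [sub_eq_zero] at h0
    rw [h0] at hs
    simp at hs
    linarith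
  have hs0 : ∀ s : ℂ, T0 < |s.im| → s ≠ 0 := by
    intro s hs h0
    rw [h0] at hs
    simp at hs
    linarith
  have hss0 : Summable fun x : PS ∅ × ℕ => |d0 (ez α) x| * Real.exp (-(2 * LL x)) := hss 2 (by norm_num)
  have hgam : ∀ s : ℂ, T0 < |s.im| → Gammaℝ s ≠ 0 ∧ ∏ j, Gammaℝ (s + κ j) ≠ 0 := by
    intro s hs
    refine ⟨gr_ne0 fun h0 => ?_, ?_⟩
    · rw [h0, abs_zero] at hs
      linarith
    · rw [Finset.prod_ne_zero_iff]
      intro j _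
      refine gr_ne0 ?_
      rw [Complex.add_im]
      intro h0
      have a1 := Complex.abs_im_le_norm (κ j)
      have a3 := hle j
      have a5 : s.im = -(κ j).im := by linarith
      rw [a5, abs_neg] at hs
      linarith
  have hxi : ∀ s : ℂ, T0 < |s.im| → Ξ s = s * G s * ((Q : ℂ) ^ s * Gammaℝ s * ∏ j, Gammaℝ (s + κ j)) := by
    intro s hs
    have h1 := xi_id' hQ hG hΞ hid s
    obtain ⟨h2, h2'⟩ := hgam s hs
    have h3 : (∏ j, (Gammaℝ (s + κ j))⁻¹) = (∏ j, Gammaℝ (s + κ j))⁻¹ := by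
      rw [← Finset.prod_inv_distrib]
    have h4 : cexp (-(s * Real.log Q)) * (Q : ℂ) ^ s = 1 := by
      rw [Q_cpow hQ, ← Complex.exp_add]
      simp
    rw [h3] at h1
    rw [h1]
    field_simp
    linear_combination (-Ξ s) * h4
  refine resonanceZB (d := d1 (ez α)) (L := LL) (d0 := d0 (ez α)) (L0 := LL) (by omega : 1 ≤ n ^ 2 - 1) hκ
    (Q := Q) (σ := σ) LL_nonneg (hs σ hσ) (σ0 := 2) (Real.log_pos (by norm_num : (1 : ℝ) < 2)) log2_le hss0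
    (β := β') (q := q) (fun x => by
      have h9 : (1 : ℝ) < ((x.1.1 : ℕ) : ℝ) := by exact_mod_cast x.1.1.2.one_lt
      exact h9) hQ (G := Lf) (T0 := T0)
    (ω := ω⁻¹) (inv_ne_zero hω) (fun s h1 h2 => ?_) (fun s h1 h2 => ?_) (fun a b => ?_) (fun s h1 => ?_)
    (fun s h1 => ?_)
  · rw [hLf]
    simp only
    have h3 := hE s (by linarith)
    rw [ez_logRS] at h3
    rw [div_mul_eq_mul_div, h3, mul_div_cancel_left₀ _ (hs1 s h2)]
  · rw [hLf]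
    simp only
    have hne1 : s ≠ 1 := sub_ne_zero.1 (hs1 s h2)
    have h3 := hL s (by linarith)
    rw [div_mul_eq_mul_div, ← h3, riemannZeta_eq_inv_sub_mul hne1]
    have := hs1 s h2
    field_simp
  · obtain ⟨C, A, hCA⟩ := hgr a b
    refine ⟨|C| * 2 ^ |A|, |A|, fun s h1 h2 h3 => ?_⟩
    have h4 := hCA s h1 h2
    have h5 : 1 ≤ |s.im| := by linarith
    have h6 : 1 ≤ ‖s - 1‖ := by
      have := Complex.abs_im_le_norm (s - 1)
      rw [Complex.sub_im, Complex.one_im, sub_zero] at this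
      linarith
    have h7 : (1 + |s.im|) ^ A ≤ (2 * |s.im|) ^ |A| := by
      calc (1 + |s.im|) ^ A ≤ (1 + |s.im|) ^ |A| :=
            Real.rpow_le_rpow_of_exponent_le (by linarith) (le_abs_self A)
        _ ≤ _ := Real.rpow_le_rpow (by linarith) (by linarith) (abs_nonneg A)
    rw [Real.mul_rpow (by norm_num) (by linarith)] at h7
    rw [hLf]
    simp only
    rw [norm_div]
    have h8 : 0 ≤ (1 + |s.im|) ^ A := by positivity
    calc ‖G s‖ / ‖s - 1‖ ≤ ‖G s‖ := div_le_self (norm_nonneg _) h6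
      _ ≤ C * (1 + |s.im|) ^ A := h4
      _ ≤ |C| * (2 ^ |A| * |s.im| ^ |A|) := mul_le_mul (le_abs_self C) h7 h8 (abs_nonneg C)
      _ = _ := by ring
  · rw [hLf]
    exact (hG s).div (by fun_prop) (hs1 s h1)
  · have h2 : T0 < |(1 - s).im| := by simpa using h1
    have a1 := hxi s h1
    have a2 := hxi (1 - s) h2
    have b1 := hs1 s h1
    have b2 := hs1 (1 - s) h2
    have b3 := hs0 s h1
    have b4 := hs0 (1 - s) h2
    have a3 := hfe s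
    rw [a1, a2] at a3
    rw [hGF, hGF, hLf]
    simp only
    set P := (Q : ℂ) ^ s * Gammaℝ s * ∏ j, Gammaℝ (s + κ j)
    set P' := (Q : ℂ) ^ (1 - s) * Gammaℝ (1 - s) * ∏ j, Gammaℝ (1 - s + κ j)
    have h5 : 1 - s - 1 = -s := by ring
    rw [h5]
    have h6 : s - 1 = -(1 - s) := by ring
    rw [h6]
    have h7 : -s ≠ 0 := neg_ne_zero.2 b3
    have h8 : -(1 - s) ≠ 0 := neg_ne_zero.2 b4
    field_simp
    linear_combination a3

/-- **Main theorem.** -/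
theorem ram_main (hn : 2 ≤ n) {α : PS S → Fin n → ℂ} {β : Nat.Primes → Fin (n ^ 2) → ℂ}
    {κ : Fin (n ^ 2 - 1) → ℂ} (h : CuspidalRep S α β κ) {c : ℝ}
    (hc : Summable fun p : PS S => max 0 (1 - ‖∑ i, α p i‖ ^ 2) * ((p.1 : ℕ) : ℝ) ^ (-c)) :
    (n : ℝ) ^ 2 / (2 * (n : ℝ) ^ 2 - 1) ≤ c ∧
      (∀ (p : PS S) (i : Fin n), |Real.logb ((p.1 : ℕ) : ℝ) ‖α p i‖| ≤ c / 2) ∧
      (∀ p ∈ S, ∀ (i : Fin (n ^ 2)) (x : ℝ), β p i = ((p : ℕ) : ℂ) ^ (x : ℂ) → x ≤ c) ∧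
      ∀ (j : Fin (n ^ 2 - 1)) (x : ℝ), κ j = -(x : ℂ) → x ≤ c := by
  obtain ⟨G, Ξ, Q, ω, hG, hΞ, hQ, hω, hE, hgr, hid, hfe⟩ := h.continuation
  obtain ⟨c', hc'⟩ : ∃ c' : ℝ, c' = max c (1 / 2) := ⟨_, rfl⟩
  have hcc : c ≤ c' := by rw [hc']; exact le_max_left _ _
  have hcc2 : 1 / 2 ≤ c' := by rw [hc']; exact le_max_right _ _
  have hnr : (2 : ℝ) ≤ n := by exact_mod_cast hn
  have hq : 1 / 2 < (n : ℝ) ^ 2 / (2 * (n : ℝ) ^ 2 - 1) := by
    have : 0 < 2 * (n : ℝ) ^ 2 - 1 := by nlinarith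
    rw [div_lt_div_iff₀ (by norm_num) this]
    linarith
  have hB : Summable fun p : PS ∅ => sm (ez α) p * ((p.1 : ℕ) : ℝ) ^ (-c') := by
    refine sm_ez (Summable.of_nonneg_of_le (fun p => mul_nonneg (le_max_left _ _) (by positivity)) (fun p => ?_) hc)
    have hp : (1 : ℝ) ≤ ((p.1 : ℕ) : ℝ) := by exact_mod_cast p.1.2.one_lt.le
    exact mul_le_mul_of_nonneg_left (Real.rpow_le_rpow_of_exponent_le hp (neg_le_neg hcc)) (le_max_left _ _)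
  have hss : ∀ t : ℝ, 1 < t → Summable fun x : PS ∅ × ℕ => |d0 (ez α) x| * Real.exp (-(t * LL x)) :=
    fun t ht => ez_summable (h.summable t ht)
  have hUd : Differentiable ℂ fun s => G s * ∏ p ∈ S, ∏ i, (1 - β p i * ((p : ℕ) : ℂ) ^ (-s)) :=
    hG.mul (bad_diff S β)
  obtain ⟨h1, h2⟩ := land hss hUd (fun s hs => by rw [hE s hs, ez_logRS]) hcc2 hB
  have h3 := ram_exponent hn h.conj hss hG hΞ hQ hω hE hgr hid hfe h1 h2
  have h4 : c' = c := by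
    rcases le_total c (1 / 2) with h5 | h5
    · rw [hc', max_eq_right h5] at h3
      linarith
    · rw [hc', max_eq_left h5]
  rw [h4] at h1 h2 h3
  have hc0 : 0 < c := by linarith
  -- no zeros on the real line
  have hnz : ∀ x : ℝ, c < x → G x ≠ 0 ∧ ∏ p ∈ S, ∏ i, (1 - β p i * ((p : ℕ) : ℂ) ^ (-(x : ℂ))) ≠ 0 := by
    intro x hx
    have h5 := h2 x (by simpa using hx)
    have h6 : cexp (DS (d1 (ez α)) LL x) * riemannZeta₁ x ≠ 0 := by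
      refine mul_ne_zero (Complex.exp_ne_zero _) fun h0 => ?_
      exact Pool.Agent.H437R2.z1_zero_im (by simp; linarith) h0 (by simp)
    rw [h5] at h6
    exact ⟨left_ne_zero_of_mul h6, right_ne_zero_of_mul h6⟩
  refine ⟨h3, fun p i => ?_, fun p hp i x hx => ?_, fun j x hx => ?_⟩
  · have h5 := finite_bound' (a := ez α) (p := ⟨p.1, Finset.notMem_empty _⟩) hc0
      (by rw [ez_of]; exact h.ne_zero p) (by rw [ez_of]; exact h.unitary p) h1 i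
    rw [ez_of] at h5
    exact h5
  · by_contra hcon
    push Not at hcon
    refine (hnz x hcon).2 (Finset.prod_eq_zero hp (Finset.prod_eq_zero (Finset.mem_univ i) ?_))
    have hne : ((p : ℕ) : ℂ) ≠ 0 := by exact_mod_cast p.2.ne_zero
    rw [hx, ← Complex.cpow_add _ _ hne]
    simp
  · by_contra hcon
    push Not at hcon
    have h5 := xi_id' hQ hG hΞ hid (x : ℂ)
    have h6 : ∏ j, (Gammaℝ ((x : ℂ) + κ j))⁻¹ = 0 := by
      refine Finset.prod_eq_zero (Finset.mem_univ j) ?_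
      rw [hx, inv_eq_zero, Gammaℝ_eq_zero_iff]
      exact ⟨0, by simp⟩
    rw [h6, mul_zero, mul_zero, mul_eq_zero] at h5
    rcases h5 with h5 | h5
    · have : x = 0 := by exact_mod_cast h5
      linarith
    · exact (hnz x hcon).1 h5

/-- the range of the exponents: below `n² / (2 n² - 1)`, or below a real pole of a local factor of `L(s, Π × Π~)` -/
def Admissible (S : Finset Nat.Primes) (α : PS S → Fin n → ℂ) (β : Nat.Primes → Fin (n ^ 2) → ℂ)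
    (κ : Fin (n ^ 2 - 1) → ℂ) (c : ℝ) : Prop :=
  c < (n : ℝ) ^ 2 / (2 * (n : ℝ) ^ 2 - 1) ∨
  (∃ (p : PS S) (i : Fin n), c < 2 * |Real.logb ((p.1 : ℕ) : ℝ) ‖α p i‖|) ∨
  (∃ p ∈ S, ∃ (i : Fin (n ^ 2)) (x : ℝ), β p i = ((p : ℕ) : ℂ) ^ (x : ℂ) ∧ c < x) ∨
  ∃ (j : Fin (n ^ 2 - 1)) (x : ℝ), κ j = -(x : ℂ) ∧ c < x

theorem ram_main' (hn : 2 ≤ n) {α : PS S → Fin n → ℂ} {β : Nat.Primes → Fin (n ^ 2) → ℂ}
    {κ : Fin (n ^ 2 - 1) → ℂ} (h : CuspidalRep S α β κ) {c : ℝ} (hc : Admissible S α β κ c) :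
    ¬ Summable fun p : PS S => max 0 (1 - ‖∑ i, α p i‖ ^ 2) * ((p.1 : ℕ) : ℝ) ^ (-c) := by
  intro hs
  obtain ⟨h1, h2, h3, h4⟩ := ram_main hn h hs
  rcases hc with hc | ⟨p, i, hc⟩ | ⟨p, hp, i, x, hx, hc⟩ | ⟨j, x, hx, hc⟩
  · linarith
  · linarith [h2 p i]
  · linarith [h3 p hp i x hx]
  · linarith [h4 j x hx]

theorem small_ind' {α : PS S → Fin n → ℂ} {c : ℝ}
    (hs : Summable fun p : {p : PS S // ‖∑ i, α p i‖ < 1} => ((p.1.1 : ℕ) : ℝ) ^ (-c)) :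
    Summable fun p : PS S => max 0 (1 - ‖∑ i, α p i‖ ^ 2) * ((p.1 : ℕ) : ℝ) ^ (-c) := by
  classical
  have h2 := (summable_subtype_iff_indicator (s := {p : PS S | ‖∑ i, α p i‖ < 1})
    (f := fun p : PS S => ((p.1 : ℕ) : ℝ) ^ (-c))).1 hs
  refine Summable.of_nonneg_of_le (fun p => mul_nonneg (le_max_left _ _) (by positivity)) (fun p => ?_) h2
  have hp : 0 ≤ ((p.1 : ℕ) : ℝ) ^ (-c) := by positivity
  by_cases hv : ‖∑ i, α p i‖ < 1
  · rw [Set.indicator_of_mem (by exact hv)]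
    refine mul_le_of_le_one_left hp (max_le zero_le_one ?_)
    nlinarith [sq_nonneg ‖∑ i, α p i‖]
  · rw [Set.indicator_of_notMem (by exact hv)]
    push Not at hv
    have : max 0 (1 - ‖∑ i, α p i‖ ^ 2) = 0 := by
      refine max_eq_left ?_
      nlinarith
    rw [this, zero_mul]

theorem ram_count (hn : 2 ≤ n) {α : PS S → Fin n → ℂ} {β : Nat.Primes → Fin (n ^ 2) → ℂ}
    {κ : Fin (n ^ 2 - 1) → ℂ} (h : CuspidalRep S α β κ) {c : ℝ} (hc : Admissible S α β κ c)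
    (C X : ℝ) : ∃ x : ℝ, X ≤ x ∧
      C * x ^ c < (({p : PS S | ((p.1 : ℕ) : ℝ) ≤ x ∧ ‖∑ i, α p i‖ < 1}.ncard : ℕ) : ℝ) := by
  have hnr : (2 : ℝ) ≤ n := by exact_mod_cast hn
  have hq : 0 < (n : ℝ) ^ 2 / (2 * (n : ℝ) ^ 2 - 1) := by
    have : 0 < 2 * (n : ℝ) ^ 2 - 1 := by nlinarith
    positivity
  have key : ∀ c₁ : ℝ, c < c₁ → (∀ c' : ℝ, c' < c₁ → Admissible S α β κ c') →
      ∃ x : ℝ, X ≤ x ∧
      C * x ^ c < (({p : PS S | ((p.1 : ℕ) : ℝ) ≤ x ∧ ‖∑ i, α p i‖ < 1}.ncard : ℕ) : ℝ) := by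
    intro c₁ h1 h3
    refine count_large (N := fun p : PS S => (p.1 : ℕ)) (fun p => p.1.2.one_lt.le)
      (fun b => (primes_finite b).preimage Subtype.val_injective.injOn)
      (fun p : PS S => ‖∑ i, α p i‖ < 1) (lt_max_of_lt_right hq : 0 < max c₁ ((n : ℝ) ^ 2 / (2 * (n : ℝ) ^ 2 - 1)))
      (fun c' hc' hs => ram_main' hn h ?_ (small_ind' hs)) c (lt_max_of_lt_left h1) C X
    rcases lt_max_iff.1 hc' with h5 | h5
    · exact h3 c' h5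
    · exact Or.inl h5
  rcases hc with hc | ⟨p, i, hc⟩ | ⟨p, hp, i, x, hx, hc⟩ | ⟨j, x, hx, hc⟩
  · exact key _ hc fun c' hc' => Or.inl hc'
  · exact key _ hc fun c' hc' => Or.inr (Or.inl ⟨p, i, hc'⟩)
  · exact key _ hc fun c' hc' => Or.inr (Or.inr (Or.inl ⟨p, hp, i, x, hx, hc'⟩))
  · exact key _ hc fun c' hc' => Or.inr (Or.inr (Or.inr ⟨j, x, hx, hc'⟩))

end Pool.Agent.TH949.RES
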