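import Pool.Agent.TH949.RES.PGL3
import Pool.Agent.W189.TP.Fin

/-! Spherical cusp forms on `PGL_n` over `ℚ`: counting, and `n ≤ 3`. -/

set_option autoImplicit false

namespace Pool.Agent.TH949.RES

open Filter Topology Complex

variable {n : ℕ}

theorem tempered2 {a : Fin 2 → ℂ} (h0 : ∀ i, a i ≠ 0)
    (hU : ∃ τ : Equiv.Perm (Fin 2), ∀ i, a (τ i) = ((starRingEnd ℂ) (a i))⁻¹) (hs : ‖∑ i, a i‖ < 1) :
    ∀ i, ‖a i‖ = 1 := by
  obtain ⟨τ, hτ⟩ := hU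
  have key : ∀ i, τ i = i → ‖a i‖ = 1 := by
    intro i hi
    have h1 := congrArg norm (hτ i)
    rw [hi, norm_inv, RCLike.norm_conj] at h1
    have h2 : 0 < ‖a i‖ := norm_pos_iff.2 (h0 i)
    have h3 : ‖a i‖ * ‖a i‖ = 1 := by
      nth_rewrite 1 [h1]
      field_simp
    nlinarith
  by_cases h : τ 0 = 0
  · have h' : τ 1 = 1 := by
      have h2 : τ 1 ≠ 0 := by
        rw [← h]
        exact fun h3 => absurd (τ.injective h3) (by decide)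
      omega
    intro i
    fin_cases i
    · exact key 0 h
    · exact key 1 h'
  · exfalso
    have h' : τ 0 = 1 := by omega
    have h1 := hτ 0
    rw [h'] at h1
    rw [Fin.sum_univ_two, h1] at hs
    have h2 : 0 < ‖a 0‖ := norm_pos_iff.2 (h0 0)
    have h3 : (starRingEnd ℂ) (a 0) ≠ 0 := (map_ne_zero _).2 (h0 0)
    have h4 : a 0 + ((starRingEnd ℂ) (a 0))⁻¹ = (((‖a 0‖ ^ 2 + 1 : ℝ)) : ℂ) / (starRingEnd ℂ) (a 0) := by
      have h5 : (((‖a 0‖ ^ 2 + 1 : ℝ)) : ℂ) = a 0 * (starRingEnd ℂ) (a 0) + 1 := by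
        rw [Complex.mul_conj, Complex.normSq_eq_norm_sq]
        push_cast
        rfl
      rw [h5]
      field_simp
    rw [h4, norm_div, RCLike.norm_conj, Complex.norm_real, Real.norm_of_nonneg (by positivity), div_lt_one h2] at hs
    nlinarith [sq_nonneg (‖a 0‖ - 1)]

theorem tempered23 (hn : 2 ≤ n) (hn3 : n ≤ 3) {a : Fin n → ℂ} (h0 : ∀ i, a i ≠ 0)
    (hU : ∃ τ : Equiv.Perm (Fin n), ∀ i, a (τ i) = ((starRingEnd ℂ) (a i))⁻¹) (hs : ‖∑ i, a i‖ < 1) :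
    ∀ i, ‖a i‖ = 1 := by
  rcases (by omega : n = 2 ∨ n = 3) with rfl | rfl
  · exact tempered2 h0 hU hs
  · by_contra hcon
    obtain ⟨τ, hτ⟩ := hU
    have h1 : Pool.Agent.W189.RS.Unitary a := by
      refine ⟨h0, ?_⟩
      have h2 : (fun i => ((starRingEnd ℂ) (a i))⁻¹) = a ∘ τ := by
        funext i
        rw [Function.comp, hτ]
      rw [h2, ← Multiset.map_map, Multiset.map_univ_val_equiv]
    have h2 := Pool.Agent.W189.TP.pw3 h1 hcon 1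
    simp only [pow_one] at h2
    linarith

theorem primes_finite (b : ℕ) : {p : Nat.Primes | (p : ℕ) ≤ b}.Finite := by
  refine Set.Finite.of_finite_image (f := fun p : Nat.Primes => (p : ℕ)) ?_ (fun a _ b _ h => Subtype.ext h)
  refine (Set.finite_Iic b).subset ?_
  rintro _ ⟨p, hp, rfl⟩
  exact hp

theorem small_ind {α : Nat.Primes → Fin n → ℂ} {c : ℝ}
    (hs : Summable fun p : {p : Nat.Primes // ‖∑ i, α p i‖ < 1} => ((p.1 : ℕ) : ℝ) ^ (-c)) :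
    Summable fun p : Nat.Primes => max 0 (1 - ‖∑ i, α p i‖ ^ 2) * ((p : ℕ) : ℝ) ^ (-c) := by
  classical
  have h2 := (summable_subtype_iff_indicator (s := {p : Nat.Primes | ‖∑ i, α p i‖ < 1})
    (f := fun p : Nat.Primes => ((p : ℕ) : ℝ) ^ (-c))).1 hs
  refine Summable.of_nonneg_of_le (fun p => mul_nonneg (le_max_left _ _) (by positivity)) (fun p => ?_) h2
  have hp : 0 ≤ ((p : ℕ) : ℝ) ^ (-c) := by positivity
  by_cases hv : ‖∑ i, α p i‖ < 1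
  · rw [Set.indicator_of_mem (by exact hv)]
    refine mul_le_of_le_one_left hp (max_le zero_le_one ?_)
    nlinarith [sq_nonneg ‖∑ i, α p i‖]
  · rw [Set.indicator_of_notMem (by exact hv)]
    push Not at hv
    have : max 0 (1 - ‖∑ i, α p i‖ ^ 2) = 0 := by
      refine max_eq_left ?_
      nlinarith
    rw [this, zero_mul]

theorem pgl_main' (hn : 2 ≤ n) {α : Nat.Primes → Fin n → ℂ} {μ : Fin n → ℂ} (h : SphericalCuspForm α μ) {c : ℝ}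
    (hc : c < (n : ℝ) ^ 2 / (2 * (n : ℝ) ^ 2 - 1) ∨
      (∃ (p : Nat.Primes) (i : Fin n), c < 2 * |Real.logb ((p : ℕ) : ℝ) ‖α p i‖|) ∨ ∃ i, c < 2 * |(μ i).re|) :
    ¬ Summable fun p : Nat.Primes => max 0 (1 - ‖∑ i, α p i‖ ^ 2) * ((p : ℕ) : ℝ) ^ (-c) := by
  intro hs
  obtain ⟨h1, h2, h3⟩ := pgl_main hn h hs
  rcases hc with hc | ⟨p, i, hc⟩ | ⟨i, hc⟩
  · linarith
  · linarith [h2 p i]
  · linarith [h3 i]

theorem pgl_count (hn : 2 ≤ n) {α : Nat.Primes → Fin n → ℂ} {μ : Fin n → ℂ} (h : SphericalCuspForm α μ) {c : ℝ}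
    (hc : c < (n : ℝ) ^ 2 / (2 * (n : ℝ) ^ 2 - 1) ∨
      (∃ (p : Nat.Primes) (i : Fin n), c < 2 * |Real.logb ((p : ℕ) : ℝ) ‖α p i‖|) ∨ ∃ i, c < 2 * |(μ i).re|)
    (C X : ℝ) : ∃ x : ℝ, X ≤ x ∧
      C * x ^ c < (({p : Nat.Primes | ((p : ℕ) : ℝ) ≤ x ∧ ‖∑ i, α p i‖ < 1}.ncard : ℕ) : ℝ) := by
  have hnr : (2 : ℝ) ≤ n := by exact_mod_cast hn
  have hq : 0 < (n : ℝ) ^ 2 / (2 * (n : ℝ) ^ 2 - 1) := by
    have : 0 < 2 * (n : ℝ) ^ 2 - 1 := by nlinarith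
    positivity
  have key : ∀ c₁ : ℝ, c < c₁ → 0 < c₁ → (∀ c' : ℝ, c' < c₁ →
      (c' < (n : ℝ) ^ 2 / (2 * (n : ℝ) ^ 2 - 1) ∨
      (∃ (p : Nat.Primes) (i : Fin n), c' < 2 * |Real.logb ((p : ℕ) : ℝ) ‖α p i‖|) ∨ ∃ i, c' < 2 * |(μ i).re|)) →
      ∃ x : ℝ, X ≤ x ∧
      C * x ^ c < (({p : Nat.Primes | ((p : ℕ) : ℝ) ≤ x ∧ ‖∑ i, α p i‖ < 1}.ncard : ℕ) : ℝ) := by
    intro c₁ h1 h2 h3
    exact count_large (N := fun p : Nat.Primes => (p : ℕ)) (fun p => p.2.one_lt.le) primes_finite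
      (fun p : Nat.Primes => ‖∑ i, α p i‖ < 1) h2
      (fun c' hc' hs => pgl_main' hn h (h3 c' hc') (small_ind hs)) c h1 C X
  rcases hc with hc | ⟨p, i, hc⟩ | ⟨i, hc⟩
  · exact key _ hc hq fun c' hc' => Or.inl hc'
  · refine key (max (2 * |Real.logb ((p : ℕ) : ℝ) ‖α p i‖|) ((n : ℝ) ^ 2 / (2 * (n : ℝ) ^ 2 - 1)))
      (lt_max_of_lt_left hc) (lt_max_of_lt_right hq) fun c' hc' => ?_
    rcases lt_max_iff.1 hc' with h1 | h1
    · exact Or.inr (Or.inl ⟨p, i, h1⟩)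
    · exact Or.inl h1
  · refine key (max (2 * |(μ i).re|) ((n : ℝ) ^ 2 / (2 * (n : ℝ) ^ 2 - 1)))
      (lt_max_of_lt_left hc) (lt_max_of_lt_right hq) fun c' hc' => ?_
    rcases lt_max_iff.1 hc' with h1 | h1
    · exact Or.inr (Or.inr ⟨i, h1⟩)
    · exact Or.inl h1

end Pool.Agent.TH949.RES
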