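import Pool.Agent.TH949.RES.Left

/-! **The resonance theorem**: a Dirichlet series with a functional equation with `N` Gamma factors does not
converge absolutely to the left of `1/2 + 1/(2N)`. -/

set_option autoImplicit false

namespace Pool.Agent.TH949.RES

open Filter Topology Complex MeasureTheory Set
open Pool.Agent.W189.TP (DS norm_term DS_norm_le)

variable {X : Type*} {d L : X → ℝ} {J : Type*} [Fintype J] {N : ℕ}

/-- `Q^s ∏ Γ_ℝ(s + κ_j)` -/
noncomputable def GF (κ : Fin N → ℂ) (Q : ℝ) (s : ℂ) : ℂ :=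
  cexp (s * Real.log Q) * ∏ j, Gammaℝ (s + κ j)

theorem GF_quot {κ : Fin N → ℂ} {Q : ℝ} {s : ℂ} (hs : 2 * KK κ + 5 ≤ s.im) :
    GF κ Q s = YY κ Q s * GF κ Q (1 - s) := by
  have hK := KK_nonneg κ
  unfold GF YY
  rw [Finset.prod_div_distrib]
  have h1 : ∏ j, Gammaℝ (1 - s + κ j) ≠ 0 := by
    rw [Finset.prod_ne_zero_iff]
    intro j _
    refine gr_ne0 ?_
    have := im2 hs j
    intro h
    linarith
  have e : cexp (s * Real.log Q) = cexp ((2 * s - 1) * (Real.log Q : ℝ)) * cexp ((1 - s) * Real.log Q) := by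
    rw [← Complex.exp_add]
    congr 1
    ring
  rw [e]
  field_simp

/-- the kernel without the weight -/
noncomputable def ker (β : J → ℂ) (q : J → ℝ) (G : ℂ → ℂ) (s : ℂ) : ℂ :=
  cexp (s * el β q) * bf β q s * G (1 - s)

theorem bf_norm_le {β : J → ℂ} {q : J → ℝ} (hq : ∀ j, 1 < q j) {A : ℝ} :
    ∃ C : ℝ, 0 ≤ C ∧ ∀ s : ℂ, A ≤ s.re → ‖bf β q s‖ ≤ C := by
  refine ⟨∏ j, (1 + ‖β j‖ * Real.exp (-(A * Real.log (q j)))), by positivity, fun s hs => ?_⟩
  unfold bf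
  rw [norm_prod]
  refine Finset.prod_le_prod (fun j _ => norm_nonneg _) fun j _ => ?_
  refine (norm_sub_le _ _).trans ?_
  rw [norm_one, norm_mul, Complex.norm_exp]
  have e : (-(s * ((Real.log (q j) : ℝ) : ℂ))).re = -(s.re * Real.log (q j)) := by simp
  rw [e]
  have := Real.log_pos (hq j)
  gcongr

/-- polynomial growth of the kernel to the left of `σ` -/
theorem ker_growth {σ a : ℝ} (ha : 0 < a) (hL : ∀ x, a ≤ L x)
    (hs : Summable fun i => |d i| * Real.exp (-(σ * L i))) {β : J → ℂ} {q : J → ℝ} (hq : ∀ j, 1 < q j)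
    {G : ℂ → ℂ} {T0 : ℝ} (hT0 : 1 ≤ T0)
    (hid : ∀ s : ℂ, σ ≤ s.re → T0 < |s.im| → G s * bf β q s = cexp (DS d L s))
    (hgr : ∀ b c : ℝ, ∃ C A : ℝ, ∀ s : ℂ, b ≤ s.re → s.re ≤ c → T0 < |s.im| → ‖G s‖ ≤ C * |s.im| ^ A) :
    ∃ C A : ℝ, 0 ≤ C ∧ 0 ≤ A ∧ ∀ s : ℂ, s.re ≤ σ → T0 < |s.im| → ‖ker β q G s‖ ≤ C * |s.im| ^ A := by
  obtain ⟨A1, hA1⟩ := kernel_lf ha hL hs hq hid (ε := 1) one_pos
  obtain ⟨C2, A2, h2⟩ := hgr (1 - σ) (1 - A1)
  obtain ⟨C3, hC3, h3⟩ := bf_norm_le (β := β) hq (A := A1)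
  set E : ℝ := Real.exp ((|A1| + |σ|) * |el β q|) with hE
  refine ⟨(1 + ‖p0 β‖) + E * C3 * |C2|, max A2 0, by positivity, le_max_right _ _, fun s hs1 hs2 => ?_⟩
  have him : 1 ≤ |s.im| := by linarith
  have hpow : 1 ≤ |s.im| ^ (max A2 0) := Real.one_le_rpow him (le_max_right _ _)
  rcases le_or_gt s.re A1 with h | h
  · have h4 := hA1 s h hs2
    have h5 : ‖ker β q G s‖ ≤ 1 + ‖p0 β‖ := by
      have := norm_le_norm_add_norm_sub' (ker β q G s) (p0 β)
      unfold ker at this ⊢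
      linarith
    have h6 : 0 ≤ E * C3 * |C2| := by positivity
    have h7 : 0 ≤ 1 + ‖p0 β‖ := by positivity
    nlinarith
  · have h4 := h2 (1 - s) (by simp; linarith) (by simp; linarith) (by simpa using hs2)
    have e1 : |(1 - s).im| = |s.im| := by simp
    rw [e1] at h4
    have h5 : ‖cexp (s * el β q)‖ ≤ E := by
      rw [Complex.norm_exp]
      refine Real.exp_le_exp.2 ?_
      have e2 : (s * (el β q : ℂ)).re = s.re * el β q := by simp
      rw [e2]
      refine (le_abs_self _).trans ?_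
      rw [abs_mul]
      refine mul_le_mul_of_nonneg_right ?_ (abs_nonneg _)
      rw [abs_le]
      have := neg_abs_le A1
      have := le_abs_self σ
      have := abs_nonneg A1
      have := abs_nonneg σ
      constructor <;> linarith
    have h6 := h3 s h.le
    have h7 : ‖G (1 - s)‖ ≤ |C2| * |s.im| ^ (max A2 0) := by
      refine h4.trans ?_
      have h8 : |s.im| ^ A2 ≤ |s.im| ^ (max A2 0) := Real.rpow_le_rpow_of_exponent_le him (le_max_left _ _)
      have h9 : 0 ≤ |s.im| ^ A2 := by positivity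
      exact mul_le_mul (le_abs_self _) h8 h9 (abs_nonneg _)
    unfold ker
    rw [norm_mul, norm_mul]
    have h8 : ‖cexp (s * el β q)‖ * ‖bf β q s‖ ≤ E * C3 := mul_le_mul h5 h6 (norm_nonneg _) (Real.exp_pos _).le
    calc _ ≤ E * C3 * (|C2| * |s.im| ^ (max A2 0)) := mul_le_mul h8 h7 (norm_nonneg _) (by positivity)
      _ ≤ _ := by
        have : 0 ≤ (1 + ‖p0 β‖) * |s.im| ^ (max A2 0) := by positivity
        nlinarith

/-- the horizontal edges are negligible -/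
theorem horiz {σ : ℝ} (hσ0 : 0 ≤ σ) (hσ1 : σ ≤ 1) {k : ℂ → ℂ} {T0 C A : ℝ} (hC : 0 ≤ C) (hA : 0 ≤ A)
    (hk : ∀ s : ℂ, s.re ≤ σ → T0 < |s.im| → ‖k s‖ ≤ C * |s.im| ^ A) {c : ℝ} (hc0 : 0 < c) (hc2 : c ≤ 2)
    (hc : 1 / 2 ≤ |c - 1|) :
    Tendsto (fun T : ℝ => ∫ x in (-DD T)..σ, ww T (DD T) (x + ((c * T : ℝ) : ℂ) * I) * k (x + ((c * T : ℝ) : ℂ) * I))
      atTop (𝓝 0) := by
  rw [tendsto_zero_iff_norm_tendsto_zero]
  have hlim : Tendsto (fun T : ℝ => C * 2 ^ A * (2 * Real.exp 1) * Real.exp ((A + 1) * Real.log T - (Real.log T) ^ 2 / 4))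
      atTop (𝓝 0) := by
    have h1 : Tendsto (fun y : ℝ => (A + 1) * y - y ^ 2 / 4) atTop atBot := by
      have h2 : ∀ y : ℝ, (A + 1) * y - y ^ 2 / 4 = -(y * (y / 4 - (A + 1))) := fun y => by ring
      simp_rw [h2]
      refine tendsto_neg_atTop_atBot.comp ?_
      refine tendsto_id.atTop_mul_atTop₀ ?_
      exact tendsto_atTop_add_const_right _ _ (tendsto_id.atTop_div_const (by norm_num))
    have h3 := (Real.tendsto_exp_atBot.comp (h1.comp Real.tendsto_log_atTop)).const_mul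
      (C * 2 ^ A * (2 * Real.exp 1))
    rw [mul_zero] at h3
    exact h3
  refine squeeze_zero' (Eventually.of_forall fun T => norm_nonneg _) ?_ hlim
  filter_upwards [eventually_ge_atTop (Real.exp 1), eventually_gt_atTop (T0 / c), eventually_ge_atTop 1] with T hT1 hT2 hT3
  have hT0 : 0 < T := by linarith
  have hl1 : 1 ≤ Real.log T := by
    rw [Real.le_log_iff_exp_le hT0]
    exact hT1
  have hlT : Real.log T ≤ T := (Real.log_le_sub_one_of_pos hT0).trans (by linarith)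
  have hD1 : 1 ≤ DD T := by
    unfold DD
    rw [le_div_iff₀ (by linarith)]
    linarith
  have hDT : DD T ≤ T := by
    unfold DD
    exact div_le_self hT0.le hl1
  have hTD : T / DD T = Real.log T := by
    unfold DD
    field_simp
  have hcT : T0 < c * T := by
    rw [div_lt_iff₀ hc0] at hT2
    linarith
  have hbd : ∀ x ∈ uIoc (-DD T) σ, ‖ww T (DD T) (x + ((c * T : ℝ) : ℂ) * I) * k (x + ((c * T : ℝ) : ℂ) * I)‖ ≤
      Real.exp (1 - (Real.log T) ^ 2 / 4) * (C * (2 ^ A * T ^ A)) := by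
    intro x hx
    rw [uIoc_of_le (by linarith)] at hx
    have e1 : ((x : ℂ) + ((c * T : ℝ) : ℂ) * I).im = c * T := by simp
    have e2 : ((x : ℂ) + ((c * T : ℝ) : ℂ) * I).re = x := by simp
    rw [norm_mul]
    refine mul_le_mul ?_ ?_ (norm_nonneg _) (Real.exp_pos _).le
    · rw [ww_norm, e1, e2]
      refine Real.exp_le_exp.2 ?_
      rw [sub_div]
      have h1 : x ^ 2 / DD T ^ 2 ≤ 1 := by
        rw [div_le_one (by positivity)]
        exact sq_le_sq' (by linarith [hx.1]) (by linarith [hx.2])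
      have h2 : (Real.log T) ^ 2 / 4 ≤ (c * T - T) ^ 2 / DD T ^ 2 := by
        have e3 : (c * T - T) ^ 2 / DD T ^ 2 = (c - 1) ^ 2 * (T / DD T) ^ 2 := by
          field_simp
        rw [e3, hTD]
        have h3 : 1 / 4 ≤ (c - 1) ^ 2 := by
          rw [← sq_abs]
          nlinarith
        nlinarith [sq_nonneg (Real.log T)]
      linarith
    · refine (hk _ (by rw [e2]; exact hx.2) (by rw [e1, abs_of_pos (by positivity)]; exact hcT)).trans ?_
      rw [e1, abs_of_pos (by positivity), ← Real.mul_rpow (by norm_num) hT0.le]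
      refine mul_le_mul_of_nonneg_left ?_ hC
      refine Real.rpow_le_rpow (by positivity) ?_ hA
      nlinarith
  refine (intervalIntegral.norm_integral_le_of_norm_le_const hbd).trans ?_
  have h5 : |σ - -DD T| ≤ 2 * T := by
    rw [abs_of_nonneg (by linarith)]
    linarith
  have h6 : 0 ≤ Real.exp (1 - (Real.log T) ^ 2 / 4) * (C * (2 ^ A * T ^ A)) := by positivity
  refine (mul_le_mul_of_nonneg_left h5 h6).trans (le_of_eq ?_)
  have e4 : T ^ A = Real.exp (A * Real.log T) := by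
    rw [Real.rpow_def_of_pos hT0, mul_comm]
  have e5 : Real.exp ((A + 1) * Real.log T - (Real.log T) ^ 2 / 4) = Real.exp (A * Real.log T) * T *
      Real.exp (- ((Real.log T) ^ 2 / 4)) := by
    conv_rhs => rw [← Real.exp_log hT0]
    rw [Real.log_exp, ← Real.exp_add, ← Real.exp_add]
    congr 1
    ring
  rw [e5, e4, sub_eq_add_neg, Real.exp_add]
  ring

/-- the rectangle -/
theorem rect {σ : ℝ} {k : ℂ → ℂ} {T0 : ℝ} (hT0 : 0 < T0)
    (hd : ∀ s : ℂ, T0 < s.im → DifferentiableAt ℂ k s) {T : ℝ} (hT : 2 * T0 < T) :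
    I * (∫ t in (T / 2)..(2 * T), ww T (DD T) (σ + t * I) * k (σ + t * I)) =
    I * (∫ t in (T / 2)..(2 * T), ww T (DD T) (((-DD T : ℝ) : ℂ) + t * I) * k (((-DD T : ℝ) : ℂ) + t * I)) +
    (∫ x in (-DD T)..σ, ww T (DD T) (x + ((2 * T : ℝ) : ℂ) * I) * k (x + ((2 * T : ℝ) : ℂ) * I)) -
    ∫ x in (-DD T)..σ, ww T (DD T) (x + ((1 / 2 * T : ℝ) : ℂ) * I) * k (x + ((1 / 2 * T : ℝ) : ℂ) * I) := by
  have h1 := Complex.integral_boundary_rect_eq_zero_of_differentiableOn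
    (fun s => ww T (DD T) s * k s) (((-DD T : ℝ) : ℂ) + ((1 / 2 * T : ℝ) : ℂ) * I)
    ((σ : ℂ) + ((2 * T : ℝ) : ℂ) * I) (by
      intro s hs
      have h2 := hs.2
      simp only [Set.mem_preimage] at h2
      have e1 : (((-DD T : ℝ) : ℂ) + ((1 / 2 * T : ℝ) : ℂ) * I).im = 1 / 2 * T := by simp
      have e2 : ((σ : ℂ) + ((2 * T : ℝ) : ℂ) * I).im = 2 * T := by simp
      rw [e1, e2, uIcc_of_le (by linarith)] at h2
      refine ((ww_diff T (DD T) s).mul (hd s ?_)).differentiableWithinAt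
      linarith [h2.1])
  have e1 : (((-DD T : ℝ) : ℂ) + ((1 / 2 * T : ℝ) : ℂ) * I).im = 1 / 2 * T := by simp
  have e2 : ((σ : ℂ) + ((2 * T : ℝ) : ℂ) * I).im = 2 * T := by simp
  have e3 : (((-DD T : ℝ) : ℂ) + ((1 / 2 * T : ℝ) : ℂ) * I).re = -DD T := by simp
  have e4 : ((σ : ℂ) + ((2 * T : ℝ) : ℂ) * I).re = σ := by simp
  rw [e1, e2, e3, e4] at h1
  simp only [smul_eq_mul] at h1
  have e5 : 1 / 2 * T = T / 2 := by ring
  rw [e5] at h1 ⊢
  linear_combination h1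

theorem ker_right {κ : Fin N → ℂ} {Q σ : ℝ} {β : J → ℂ} {q : J → ℝ} {G : ℂ → ℂ} {T0 : ℝ} {ω : ℂ} (hω : ω ≠ 0)
    (hT0 : 2 * KK κ + 5 ≤ T0)
    (hid : ∀ s : ℂ, σ ≤ s.re → T0 < |s.im| → G s * bf β q s = cexp (DS d L s))
    (hfe : ∀ s : ℂ, T0 < |s.im| → G s * GF κ Q s = ω * (G (1 - s) * GF κ Q (1 - s)))
    {s : ℂ} (hs1 : σ ≤ s.re) (hs2 : T0 < s.im) :
    ker β q G s = ω⁻¹ * cexp (s * el β q) * (YY κ Q s * cexp (DS d L s)) := by
  have hK := KK_nonneg κ
  have hT : 0 < s.im := by linarith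
  have h1 := hfe s (by rwa [abs_of_pos hT])
  rw [GF_quot (by linarith)] at h1
  have h2 : GF κ Q (1 - s) ≠ 0 := by
    unfold GF
    refine mul_ne_zero (Complex.exp_ne_zero _) ?_
    rw [Finset.prod_ne_zero_iff]
    intro j _
    refine gr_ne0 ?_
    have := im2 (κ := κ) (s := s) (by linarith) j
    intro h
    linarith
  have h3 : G s * YY κ Q s = ω * G (1 - s) := by
    apply mul_right_cancel₀ h2
    linear_combination h1
  have h4 : G (1 - s) = ω⁻¹ * (G s * YY κ Q s) := by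
    rw [h3]
    field_simp
  unfold ker
  rw [h4, ← hid s hs1 (by rwa [abs_of_pos hT])]
  ring

theorem right_bound [Countable X] (hN : 1 ≤ N) {κ : Fin N → ℂ}
    (hκ : Multiset.map (fun j => (starRingEnd ℂ) (κ j)) Finset.univ.val = Multiset.map κ Finset.univ.val)
    {Q : ℝ} {σ : ℝ} (hσ : 1 / 2 ≤ σ)
    (hs : Summable fun i => |d i| * Real.exp (-(σ * L i))) {β : J → ℂ} {q : J → ℝ}
    {G : ℂ → ℂ} {T0 : ℝ} {ω : ℂ} (hω : ω ≠ 0) (hT0 : 2 * KK κ + 5 ≤ T0)
    (hid : ∀ s : ℂ, σ ≤ s.re → T0 < |s.im| → G s * bf β q s = cexp (DS d L s))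
    (hfe : ∀ s : ℂ, T0 < |s.im| → G s * GF κ Q s = ω * (G (1 - s) * GF κ Q (1 - s))) :
    ∃ C T1 : ℝ, 0 ≤ C ∧ ∀ T : ℝ, T1 ≤ T → T ≤ DD T ^ 2 →
      ‖∫ t in (T / 2)..(2 * T), ww T (DD T) (σ + t * I) * ker β q G (σ + t * I)‖ ≤
        C * (T ^ ((N : ℝ) * (σ - 1 / 2)) * √T) := by
  obtain ⟨C, T1, hC, hT1, h⟩ := osc hN hκ Q hσ
  have hK := KK_nonneg κ
  refine ⟨‖ω⁻¹‖ * Real.exp (σ * el β q) * (Real.exp (∑' i, |d i| * Real.exp (-(σ * L i))) * C),
    max T1 (2 * T0 + 1), by positivity, fun T hT hD => ?_⟩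
  have hT1' : T1 ≤ T := (le_max_left _ _).trans hT
  have hT2 : 2 * T0 + 1 ≤ T := (le_max_right _ _).trans hT
  have hab : T / 2 ≤ 2 * T := by linarith
  have hW : ContinuousOn (fun t : ℝ => ww T (DD T) (σ + t * I) * YY κ Q (σ + t * I)) (Icc (T / 2) (2 * T)) := by
    intro t ht
    have hl := line_hd σ t
    have a1 := (ww_hd T (DD T) (σ + t * I)).comp t hl
    have e1 : ((σ : ℂ) + t * I).im = t := by simp
    have a2 := (YY_hd (κ := κ) (Q := Q) (s := σ + t * I) (by rw [e1]; linarith [ht.1])).comp t hl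
    exact ((a1.mul a2).continuousAt).continuousWithinAt
  have h1 := exp_bound (d := d) (L := L) hab (σ := σ) (B := C * (T ^ ((N : ℝ) * (σ - 1 / 2)) * √T)) hW
    (fun lam => h T (DD T) lam hT1' hD) hs (-el β q)
  have e : ∫ t in (T / 2)..(2 * T), ww T (DD T) (σ + t * I) * ker β q G (σ + t * I) =
      (ω⁻¹ * cexp (σ * el β q)) * ∫ t in (T / 2)..(2 * T), ww T (DD T) (σ + t * I) * YY κ Q (σ + t * I) *
        cexp (DS d L (σ + t * I)) * cexp (-(((-el β q : ℝ) : ℂ) * t) * I) := by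
    rw [← intervalIntegral.integral_const_mul]
    refine intervalIntegral.integral_congr fun t ht => ?_
    rw [uIcc_of_le hab] at ht
    have e1 : ((σ : ℂ) + t * I).im = t := by simp
    have e2 : ((σ : ℂ) + t * I).re = σ := by simp
    have h3 := ker_right (d := d) (L := L) (β := β) (q := q) hω hT0 hid hfe (s := σ + t * I) (by rw [e2])
      (by rw [e1]; linarith [ht.1])
    rw [h3]
    have e3 : cexp (((σ : ℂ) + t * I) * el β q) = cexp (σ * el β q) * cexp (-(((-el β q : ℝ) : ℂ) * t) * I) := by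
      rw [← Complex.exp_add]
      congr 1
      push_cast
      ring
    rw [e3]
    ring
  rw [e, norm_mul, norm_mul]
  have e4 : ‖cexp (σ * el β q)‖ = Real.exp (σ * el β q) := by
    rw [Complex.norm_exp]
    simp
  rw [e4]
  calc _ ≤ ‖ω⁻¹‖ * Real.exp (σ * el β q) * (Real.exp (∑' i, |d i| * Real.exp (-(σ * L i))) *
        (C * (T ^ ((N : ℝ) * (σ - 1 / 2)) * √T))) := mul_le_mul_of_nonneg_left h1 (by positivity)
    _ = _ := by ring

theorem e_sqrt_pi : Real.exp 1 * √Real.pi ≤ 5 := by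
  have h1 := Real.exp_one_lt_d9
  have h2 : √Real.pi ≤ 1.8 := by
    rw [Real.sqrt_le_left (by norm_num)]
    have := Real.pi_lt_d2
    linarith
  have h3 : 0 ≤ √Real.pi := Real.sqrt_nonneg _
  have h4 := Real.exp_pos 1
  nlinarith

theorem sqrt_pi_ge : 7 / 4 ≤ √Real.pi := by
  refine Real.le_sqrt_of_sq_le ?_
  have := Real.pi_gt_d2
  linarith

/-- the left edge is large -/
theorem left_bound {σ a : ℝ} (ha : 0 < a) (hL : ∀ x, a ≤ L x)
    (hs : Summable fun i => |d i| * Real.exp (-(σ * L i))) {β : J → ℂ} {q : J → ℝ} (hq : ∀ j, 1 < q j)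
    {G : ℂ → ℂ} {T0 : ℝ} (hT0 : 0 < T0)
    (hid : ∀ s : ℂ, σ ≤ s.re → T0 < |s.im| → G s * bf β q s = cexp (DS d L s))
    (hG : ∀ s : ℂ, T0 < |s.im| → DifferentiableAt ℂ (ker β q G) s) :
    ∀ᶠ T : ℝ in atTop, ‖p0 β‖ * DD T ≤
      ‖∫ t in (T / 2)..(2 * T), ww T (DD T) (((-DD T : ℝ) : ℂ) + t * I) * ker β q G (((-DD T : ℝ) : ℂ) + t * I)‖ := by
  have hp : 0 < ‖p0 β‖ := norm_pos_iff.2 (p0_ne β)
  obtain ⟨A, hA⟩ := kernel_lf ha hL hs hq hid (ε := ‖p0 β‖ / 10) (by positivity)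
  have hD : Tendsto DD atTop atTop := by
    have h1 : Tendsto (fun x : ℝ => x / Real.log x) atTop atTop := by
      have h2 := Real.tendsto_exp_div_pow_atTop 1
      have h3 := h2.comp Real.tendsto_log_atTop
      refine h3.congr' ?_
      filter_upwards [eventually_gt_atTop 0] with x hx
      simp [Real.exp_log hx]
    exact h1
  have hg := (Metric.tendsto_nhds.1 left_tendsto) (1 / 4) (by norm_num)
  filter_upwards [hg, hD.eventually_ge_atTop (max 1 (-A)), eventually_gt_atTop (2 * T0)] with T h1 h2 h3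
  have hD1 : 1 ≤ DD T := (le_max_left _ _).trans h2
  have hD2 : -DD T ≤ A := by
    have := (le_max_right _ _).trans h2
    linarith
  have hT : 0 < T := by linarith
  have hab : T / 2 ≤ 2 * T := by linarith
  have hcont : ∀ f : ℂ → ℂ, (∀ s : ℂ, T0 < |s.im| → DifferentiableAt ℂ f s) →
      ContinuousOn (fun t : ℝ => f (((-DD T : ℝ) : ℂ) + t * I)) (Icc (T / 2) (2 * T)) := by
    intro f hf t ht
    have e1 : (((-DD T : ℝ) : ℂ) + t * I).im = t := by simp
    have h4 := (hf (((-DD T : ℝ) : ℂ) + t * I) (by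
      rw [e1, abs_of_pos (by linarith [ht.1])]
      linarith [ht.1])).continuousAt
    exact (ContinuousAt.comp (f := fun t : ℝ => ((-DD T : ℝ) : ℂ) + t * I) h4 (by fun_prop)).continuousWithinAt
  have hwc := hcont (ww T (DD T)) fun s _ => ww_diff T (DD T) s
  have hkc := hcont (ker β q G) hG
  have hint : ∀ f : ℝ → ℂ, ContinuousOn f (Icc (T / 2) (2 * T)) → IntervalIntegrable f volume (T / 2) (2 * T) := by
    intro f hf
    refine ContinuousOn.intervalIntegrable ?_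
    rwa [uIcc_of_le hab]
  set W := ∫ t in (T / 2)..(2 * T), ww T (DD T) (((-DD T : ℝ) : ℂ) + t * I) with hW
  have hdiff : ‖(∫ t in (T / 2)..(2 * T), ww T (DD T) (((-DD T : ℝ) : ℂ) + t * I) *
      ker β q G (((-DD T : ℝ) : ℂ) + t * I)) - W * p0 β‖ ≤ ‖p0 β‖ / 10 * (Real.exp 1 * √Real.pi * DD T) := by
    have hi1 : IntervalIntegrable (fun t : ℝ => ww T (DD T) (((-DD T : ℝ) : ℂ) + t * I) *
      ker β q G (((-DD T : ℝ) : ℂ) + t * I)) volume (T / 2) (2 * T) := hint _ (hwc.mul hkc)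
    have hi2 : IntervalIntegrable (fun t : ℝ => ww T (DD T) (((-DD T : ℝ) : ℂ) + t * I) * p0 β) volume
      (T / 2) (2 * T) := hint _ (hwc.mul continuousOn_const)
    rw [hW, ← intervalIntegral.integral_mul_const, ← intervalIntegral.integral_sub hi1 hi2]
    have h4 : ‖∫ t in (T / 2)..(2 * T), (ww T (DD T) (((-DD T : ℝ) : ℂ) + t * I) *
        ker β q G (((-DD T : ℝ) : ℂ) + t * I) - ww T (DD T) (((-DD T : ℝ) : ℂ) + t * I) * p0 β)‖ ≤
        ∫ t in (T / 2)..(2 * T), ‖p0 β‖ / 10 * ‖ww T (DD T) (((-DD T : ℝ) : ℂ) + t * I)‖ := by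
      refine intervalIntegral.norm_integral_le_of_norm_le hab (Eventually.of_forall fun t ht => ?_) ?_
      · have e1 : (((-DD T : ℝ) : ℂ) + t * I).im = t := by simp
        have e2 : (((-DD T : ℝ) : ℂ) + t * I).re = -DD T := by simp
        rw [← mul_sub, norm_mul, mul_comm]
        refine mul_le_mul_of_nonneg_right ?_ (norm_nonneg _)
        refine hA _ (by rw [e2]; exact hD2) ?_
        rw [e1, abs_of_pos (by linarith [ht.1])]
        linarith [ht.1]
      · refine ContinuousOn.intervalIntegrable ?_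
        rw [uIcc_of_le hab]
        exact continuousOn_const.mul hwc.norm
    refine h4.trans ?_
    rw [intervalIntegral.integral_const_mul]
    exact mul_le_mul_of_nonneg_left (left_norm_int hT (by linarith)) (by positivity)
  have hWe : W = DD T * ∫ u in (-(T / (2 * DD T)))..(T / DD T), cexp (1 - (u : ℂ) ^ 2 - 2 * I * u) :=
    left_int (by linarith)
  have hWn : 3 / 2 * DD T ≤ ‖W‖ := by
    rw [hWe, norm_mul, Complex.norm_real, Real.norm_of_nonneg (by linarith), mul_comm]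
    refine mul_le_mul_of_nonneg_left ?_ (by linarith)
    rw [dist_eq_norm] at h1
    have h5 := norm_sub_norm_le ((√Real.pi : ℝ) : ℂ)
      (∫ u in (-(T / (2 * DD T)))..(T / DD T), cexp (1 - (u : ℂ) ^ 2 - 2 * I * u))
    rw [norm_sub_rev, Complex.norm_real, Real.norm_of_nonneg (Real.sqrt_nonneg _)] at h5
    have := sqrt_pi_ge
    linarith
  have h6 := norm_sub_norm_le (W * p0 β) ((W * p0 β) - ∫ t in (T / 2)..(2 * T),
    ww T (DD T) (((-DD T : ℝ) : ℂ) + t * I) * ker β q G (((-DD T : ℝ) : ℂ) + t * I))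
  rw [sub_sub_cancel, norm_mul] at h6
  rw [norm_sub_rev] at hdiff
  have h7 : ‖p0 β‖ / 10 * (Real.exp 1 * √Real.pi * DD T) ≤ ‖p0 β‖ / 10 * (5 * DD T) := by
    refine mul_le_mul_of_nonneg_left ?_ (by positivity)
    exact mul_le_mul_of_nonneg_right e_sqrt_pi (by linarith)
  have h8 : 3 / 2 * DD T * ‖p0 β‖ ≤ ‖W‖ * ‖p0 β‖ := mul_le_mul_of_nonneg_right hWn hp.le
  nlinarith

/-- **The resonance theorem.** -/
theorem resonance [Countable X] (hN : 1 ≤ N) {κ : Fin N → ℂ}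
    (hκ : Multiset.map (fun j => (starRingEnd ℂ) (κ j)) Finset.univ.val = Multiset.map κ Finset.univ.val)
    {Q : ℝ} {σ a : ℝ} (ha : 0 < a) (hL : ∀ x, a ≤ L x)
    (hs : Summable fun i => |d i| * Real.exp (-(σ * L i))) {β : J → ℂ} {q : J → ℝ} (hq : ∀ j, 1 < q j)
    {G : ℂ → ℂ} {T0 : ℝ} {ω : ℂ} (hω : ω ≠ 0)
    (hid : ∀ s : ℂ, σ ≤ s.re → T0 < |s.im| → G s * bf β q s = cexp (DS d L s))
    (hgr : ∀ b c : ℝ, ∃ C A : ℝ, ∀ s : ℂ, b ≤ s.re → s.re ≤ c → T0 < |s.im| → ‖G s‖ ≤ C * |s.im| ^ A)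
    (hG : ∀ s : ℂ, T0 < |s.im| → DifferentiableAt ℂ G s)
    (hfe : ∀ s : ℂ, T0 < |s.im| → G s * GF κ Q s = ω * (G (1 - s) * GF κ Q (1 - s))) :
    1 / 2 + 1 / (2 * (N : ℝ)) ≤ σ := by
  by_contra hcon
  push Not at hcon
  have hN' : (1 : ℝ) ≤ N := by exact_mod_cast hN
  -- reductions
  set σ' : ℝ := max σ (1 / 2) with hσ'
  have hσσ : σ ≤ σ' := le_max_left _ _
  have hσ1 : 1 / 2 ≤ σ' := le_max_right _ _
  have hlt : σ' < 1 / 2 + 1 / (2 * (N : ℝ)) := max_lt hcon (by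
    have : 0 < 1 / (2 * (N : ℝ)) := by positivity
    linarith)
  have hle1 : σ' ≤ 1 := by
    have : 1 / (2 * (N : ℝ)) ≤ 1 / 2 := by
      rw [div_le_div_iff₀ (by positivity) (by norm_num)]
      linarith
    linarith
  have hL0 : ∀ x, 0 ≤ L x := fun x => ha.le.trans (hL x)
  have hs' := Pool.Agent.W189.TP.summ_mono hL0 hσσ hs
  have hK := KK_nonneg κ
  set T1 : ℝ := max T0 (2 * KK κ + 5) with hT1
  have hT01 : T0 ≤ T1 := le_max_left _ _
  have hT11 : 2 * KK κ + 5 ≤ T1 := le_max_right _ _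
  have hT1pos : 1 ≤ T1 := by linarith
  have hid' : ∀ s : ℂ, σ' ≤ s.re → T1 < |s.im| → G s * bf β q s = cexp (DS d L s) := fun s h1 h2 =>
    hid s (hσσ.trans h1) (hT01.trans_lt h2)
  have hgr' : ∀ b c : ℝ, ∃ C A : ℝ, ∀ s : ℂ, b ≤ s.re → s.re ≤ c → T1 < |s.im| → ‖G s‖ ≤ C * |s.im| ^ A := by
    intro b c
    obtain ⟨C, A, h⟩ := hgr b c
    exact ⟨C, A, fun s h1 h2 h3 => h s h1 h2 (hT01.trans_lt h3)⟩
  have hkd : ∀ s : ℂ, T1 < |s.im| → DifferentiableAt ℂ (ker β q G) s := by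
    intro s hs
    unfold ker
    have h1 : DifferentiableAt ℂ (fun s : ℂ => G (1 - s)) s := by
      have h2 : DifferentiableAt ℂ G (1 - s) := hG _ (by
        simp only [Complex.sub_im, Complex.one_im, zero_sub, abs_neg]
        exact hT01.trans_lt hs)
      exact DifferentiableAt.comp s h2 (by fun_prop)
    refine DifferentiableAt.mul (DifferentiableAt.mul (by fun_prop) ?_) h1
    unfold bf
    fun_prop
  obtain ⟨Cr, Tr, hCr, hr⟩ := right_bound (d := d) (L := L) (Q := Q) hN hκ hσ1 hs' (β := β) (q := q) hω hT11 hid'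
    (fun s h => hfe s (hT01.trans_lt h))
  obtain ⟨Ck, Ak, hCk, hAk, hk⟩ := ker_growth ha hL hs' hq hT1pos hid' hgr'
  have htop := horiz (by linarith) hle1 hCk hAk hk (c := 2) (by norm_num) le_rfl (by norm_num)
  have hbot := horiz (by linarith) hle1 hCk hAk hk (c := 1 / 2) (by norm_num) (by norm_num) (by norm_num)
  have hleft := left_bound ha hL hs' hq (by linarith : 0 < T1) hid' hkd
  have hp : 0 < ‖p0 β‖ := norm_pos_iff.2 (p0_ne β)
  -- comparison of powers of `T`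
  set x : ℝ := (N : ℝ) * (σ' - 1 / 2) with hx
  have hx1 : x < 1 / 2 := by
    rw [hx]
    have h1 : σ' - 1 / 2 < 1 / (2 * (N : ℝ)) := by linarith
    calc (N : ℝ) * (σ' - 1 / 2) < N * (1 / (2 * (N : ℝ))) := mul_lt_mul_of_pos_left h1 (by linarith)
      _ = 1 / 2 := by field_simp
  have hlo : Tendsto (fun T : ℝ => Real.log T * (Cr * T ^ (x - 1 / 2) + 2 * T⁻¹)) atTop (𝓝 0) := by
    have h1 : Tendsto (fun T : ℝ => Real.log T / T ^ (1 / 2 - x)) atTop (𝓝 0) :=
      (isLittleO_log_rpow_atTop (by linarith)).tendsto_div_nhds_zero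
    have h2 : Tendsto (fun T : ℝ => Real.log T / T ^ (1 : ℝ)) atTop (𝓝 0) :=
      (isLittleO_log_rpow_atTop one_pos).tendsto_div_nhds_zero
    have h3 := (h1.const_mul Cr).add (h2.const_mul 2)
    rw [mul_zero, mul_zero, add_zero] at h3
    refine h3.congr' ?_
    filter_upwards [eventually_gt_atTop 0] with T hT
    rw [Real.rpow_one, show x - 1 / 2 = -(1 / 2 - x) by ring, Real.rpow_neg hT.le]
    ring
  have hDsq : ∀ᶠ T : ℝ in atTop, T ≤ DD T ^ 2 := by
    have h1 : Tendsto (fun T : ℝ => Real.log T / T ^ (1 / 2 : ℝ)) atTop (𝓝 0) :=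
      (isLittleO_log_rpow_atTop (by norm_num)).tendsto_div_nhds_zero
    filter_upwards [h1.eventually (gt_mem_nhds one_pos), eventually_gt_atTop 1] with T h2 h3
    have hT : 0 < T := by linarith
    have hlog := Real.log_pos h3
    rw [div_lt_one (by positivity), ← Real.sqrt_eq_rpow] at h2
    unfold DD
    rw [div_pow, le_div_iff₀ (by positivity)]
    have h4 : Real.log T ^ 2 ≤ T := by
      have := pow_le_pow_left₀ hlog.le h2.le 2
      rwa [Real.sq_sqrt hT.le] at this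
    nlinarith
  have hfinal := ((((hlo.eventually (gt_mem_nhds hp)).and hDsq).and hleft).and
    ((htop.norm.eventually (gt_mem_nhds (by rw [norm_zero]; exact one_pos))).and
      (hbot.norm.eventually (gt_mem_nhds (by rw [norm_zero]; exact one_pos))))).and
      ((eventually_gt_atTop (2 * T1)).and (eventually_ge_atTop Tr))
  obtain ⟨T, ⟨⟨⟨h1, h2⟩, h3⟩, ⟨h4, h5⟩⟩, ⟨h6, h7⟩⟩ := hfinal.exists
  have hT : 1 < T := by linarith
  have hT0' : 0 < T := by linarith
  have hlog := Real.log_pos hT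
  have hrect := rect (σ := σ') (k := ker β q G) (by linarith : 0 < T1) (fun s hs => hkd s (by
    rwa [abs_of_pos (by linarith)])) h6
  have hr' := hr T h7 h2
  set R := ∫ t in (T / 2)..(2 * T), ww T (DD T) (σ' + t * I) * ker β q G (σ' + t * I) with hR
  set Lf := ∫ t in (T / 2)..(2 * T), ww T (DD T) (((-DD T : ℝ) : ℂ) + t * I) * ker β q G (((-DD T : ℝ) : ℂ) + t * I) with hLf
  set tp := ∫ x in (-DD T)..σ', ww T (DD T) (x + ((2 * T : ℝ) : ℂ) * I) * ker β q G (x + ((2 * T : ℝ) : ℂ) * I) with htp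
  set bt := ∫ x in (-DD T)..σ', ww T (DD T) (x + ((1 / 2 * T : ℝ) : ℂ) * I) * ker β q G (x + ((1 / 2 * T : ℝ) : ℂ) * I) with hbt
  have h8 : I * Lf = I * R - tp + bt := by linear_combination -hrect
  have h9 := congrArg norm h8
  rw [norm_mul, Complex.norm_I, one_mul] at h9
  have h10 : ‖Lf‖ ≤ ‖R‖ + 1 + 1 := by
    rw [h9]
    refine (norm_add_le _ _).trans (add_le_add ((norm_sub_le _ _).trans (add_le_add ?_ h4.le)) h5.le)
    rw [norm_mul, Complex.norm_I, one_mul]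
  have h11 : ‖p0 β‖ * DD T ≤ Cr * (T ^ x * √T) + 2 := by linarith
  have h12 : T ^ x * √T = T ^ (x - 1 / 2) * T := by
    rw [Real.sqrt_eq_rpow, ← Real.rpow_add hT0']
    nth_rewrite 3 [← Real.rpow_one T]
    rw [← Real.rpow_add hT0']
    congr 1
    ring
  rw [h12] at h11
  have h13 : ‖p0 β‖ * DD T * Real.log T = ‖p0 β‖ * T := by
    unfold DD
    field_simp
  have h14 : ‖p0 β‖ * T ≤ Real.log T * (Cr * T ^ (x - 1 / 2) + 2 * T⁻¹) * T := by
    rw [← h13]
    calc _ ≤ (Cr * (T ^ (x - 1 / 2) * T) + 2) * Real.log T := mul_le_mul_of_nonneg_right h11 hlog.le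
      _ = _ := by
        field_simp
  have h15 := le_of_mul_le_mul_right h14 hT0'
  linarith

end Pool.Agent.TH949.RES
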