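import Pool.Agent.TH949.RES.Main
import Pool.Agent.TH861.GL3.Main
import Pool.Agent.W189.TP.Fin

/-! Places with small Hecke eigenvalues for `GL(3)` over a number field. -/

set_option autoImplicit false

namespace Pool.Agent.TH949.RES

open NumberField IsDedekindDomain Filter Topology
open Pool.Agent.W189.TP (DS extend extend_id DS_diff)
open Pool.Agent.TH861.GL3

variable {K : Type*} [Field K] [NumberField K] {S : Finset (HeightOneSpectrum (𝓞 K))}

/-- Properties of the Satake parameters `α v`, `v ∉ S`, of a unitary cuspidal automorphic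
representation `π` of `GL_3` over the number field `K`; `G` is the finite part of its adjoint `L`-function. -/
structure AutomorphicGL3 (α : PL S → Fin 3 → ℂ) : Prop where
  /-- the local components are unitary -/
  unitary : ∀ v, (∀ i, α v i ≠ 0) ∧
    Multiset.map (fun i => ((starRingEnd ℂ) (α v i))⁻¹) Finset.univ.val =
      Multiset.map (α v) Finset.univ.val
  /-- absolute convergence of `L(s, π × π~)` for `Re s > 1` -/
  summable : ∀ σ : ℝ, 1 < σ → Summable fun x : PL S × ℕ =>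
    ‖∑ i, α x.1 i ^ (x.2 + 1)‖ ^ 2 / ((x.2 : ℝ) + 1) * (((qq x.1.1 : ℕ) : ℝ) ^ (-σ)) ^ (x.2 + 1)
  /-- the adjoint `L`-function -/
  adjoint : ∃ (G : ℂ → ℂ) (β : S → Fin 8 → ℂ) (Q T : ℝ) (ω : ℂ)
    (κ : Fin (8 * Module.finrank ℚ K) → ℂ), 0 < Q ∧ ‖ω‖ = 1 ∧
    Multiset.map (fun j => (starRingEnd ℂ) (κ j)) Finset.univ.val =
      Multiset.map κ Finset.univ.val ∧
    (∀ s : ℂ, 1 / 2 ≤ s.re ∨ T < |s.im| → AnalyticAt ℂ G s) ∧
    (∀ a b : ℝ, ∃ C A : ℝ, ∀ s : ℂ, a ≤ s.re → s.re ≤ b → T < |s.im| → ‖G s‖ ≤ C * |s.im| ^ A) ∧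
    (∀ s : ℂ, 1 < s.re → G s * ∏ v, ∏ i, (1 - β v i * ((qq v.1 : ℕ) : ℂ) ^ (-s)) =
      Complex.exp (logAd α s)) ∧
    ∀ s : ℂ, T < |s.im| →
      G s * ((Q : ℂ) ^ s * ∏ j, Complex.Gammaℝ (s + κ j)) =
        ω * (G (1 - s) * ((Q : ℂ) ^ (1 - s) * ∏ j, Complex.Gammaℝ (1 - s + κ j)))

theorem qq_cpow (v : HeightOneSpectrum (𝓞 K)) (s : ℂ) :
    ((qq v : ℕ) : ℂ) ^ (-s) = Complex.exp (-(s * Real.log (qq v))) := by
  have h := qq_pos v
  have hne : ((qq v : ℕ) : ℂ) ≠ 0 := by
    have : qq v ≠ 0 := by have := two_le_qq v; omega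
    exact_mod_cast this
  rw [Complex.cpow_def_of_ne_zero hne, Complex.natCast_log]
  congr 1
  ring

theorem Q_cpow {Q : ℝ} (hQ : 0 < Q) (s : ℂ) : (Q : ℂ) ^ s = Complex.exp (s * Real.log Q) := by
  have hne : (Q : ℂ) ≠ 0 := by exact_mod_cast hQ.ne'
  rw [Complex.cpow_def_of_ne_zero hne, Complex.ofReal_log hQ.le]
  congr 1
  ring

theorem AutomorphicGL3.cuspidal {α : PL S → Fin 3 → ℂ} (h : AutomorphicGL3 α) : CuspidalGL3 α := by
  obtain ⟨G, β, Q, T, ω, κ, -, -, -, hG, -, hE, -⟩ := h.adjoint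
  refine ⟨h.unitary, h.summable, fun s => G s * ∏ v, ∏ i, (1 - β v i * ((qq v.1 : ℕ) : ℂ) ^ (-s)),
    fun s hs => ?_, hE⟩
  refine (hG s (Or.inl hs)).mul ?_
  refine Finset.analyticAt_fun_prod _ fun v _ => Finset.analyticAt_fun_prod _ fun i _ => ?_
  refine analyticAt_const.sub (analyticAt_const.mul ?_)
  have e : (fun s : ℂ => ((qq v.1 : ℕ) : ℂ) ^ (-s)) = fun s : ℂ => Complex.exp (-(s * Real.log (qq v.1))) := by
    funext s
    exact qq_cpow v.1 s
  rw [e]
  fun_prop

theorem log_two_le (x : PL S × ℕ) : Real.log 2 ≤ LL x := by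
  unfold LL
  have h1 : Real.log 2 ≤ Real.log (qq x.1.1) := by
    refine Real.log_le_log (by norm_num) ?_
    exact_mod_cast two_le_qq x.1.1
  have h2 : (0 : ℝ) ≤ (x.2 : ℝ) := Nat.cast_nonneg _
  have h3 : 0 < Real.log 2 := Real.log_pos (by norm_num)
  nlinarith

/-- **Main theorem.** -/
theorem small_diverge {α : PL S → Fin 3 → ℂ} (h : AutomorphicGL3 α) {c : ℝ}
    (hc : c < 1 / 2 + 1 / (16 * (Module.finrank ℚ K : ℝ))) :
    ¬ Summable fun v : PL S => small α v * (qq v.1 : ℝ) ^ (-c) := by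
  classical
  intro hsum
  have := countable_primes K
  have hd : 1 ≤ Module.finrank ℚ K := Module.finrank_pos
  have hd' : (1 : ℝ) ≤ (Module.finrank ℚ K : ℝ) := by exact_mod_cast hd
  set c' : ℝ := max c (1 / 2) with hc'
  have hlt : c' < 1 / 2 + 1 / (16 * (Module.finrank ℚ K : ℝ)) := max_lt hc (by
    have : 0 < 1 / (16 * (Module.finrank ℚ K : ℝ)) := by positivity
    linarith)
  have hB : Summable fun v : PL S => small α v * (qq v.1 : ℝ) ^ (-c') := by
    refine Summable.of_nonneg_of_le (fun v => mul_nonneg (small_nonneg α v)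
      (by have := (qq_pos v.1).le; positivity)) (fun v => ?_) hsum
    refine mul_le_mul_of_nonneg_left ?_ (small_nonneg α v)
    exact Real.rpow_le_rpow_of_exponent_le (one_lt_qq v.1).le (neg_le_neg (le_max_left _ _))
  obtain ⟨h1, -⟩ := summable_all h.cuspidal (le_max_right _ _) hB
  obtain ⟨G, β, Q, T, ω, κ, hQ, hω, hκ, hG, hgr, hE, hFE⟩ := h.adjoint
  set β' : S × Fin 8 → ℂ := fun x => β x.1 x.2 with hβ'
  set q : S × Fin 8 → ℝ := fun x => (qq x.1.1 : ℝ) with hq
  have hbf : ∀ s : ℂ, ∏ v, ∏ i, (1 - β v i * ((qq v.1 : ℕ) : ℂ) ^ (-s)) = bf β' q s := by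
    intro s
    unfold bf
    rw [Fintype.prod_prod_type]
    refine Finset.prod_congr rfl fun v _ => Finset.prod_congr rfl fun i _ => ?_
    rw [qq_cpow]
  have hGF : ∀ s : ℂ, (Q : ℂ) ^ s * ∏ j, Complex.Gammaℝ (s + κ j) = GF κ Q s := by
    intro s
    unfold GF
    rw [Q_cpow hQ]
  simp_rw [hbf] at hE
  simp_rw [hGF] at hFE
  -- the identity
  have hid := extend_id (LL_nonneg (S := S)) h1 (U := fun s => G s * bf β' q s) (V := fun _ => 1)
    (by
      intro s hs
      have hs' : c' < s.re := hs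
      refine DifferentiableAt.differentiableWithinAt ?_
      refine (hG s (Or.inl (by
        have : 1 / 2 ≤ c' := le_max_right _ _
        linarith))).differentiableAt.mul ?_
      unfold bf
      fun_prop) (differentiableOn_const 1) (by
      intro s hs
      rw [mul_one, hE s hs, logAd_eq])
  set N : ℕ := 8 * Module.finrank ℚ K with hN
  have hN' : (N : ℝ) = 8 * (Module.finrank ℚ K : ℝ) := by rw [hN]; push_cast; ring
  set σ : ℝ := (c' + (1 / 2 + 1 / (2 * (N : ℝ)))) / 2 with hσ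
  have e16 : 1 / (16 * (Module.finrank ℚ K : ℝ)) = 1 / (2 * (N : ℝ)) := by
    rw [hN']
    congr 1
    ring
  rw [e16] at hlt
  have hres := resonance (d := dd α) (L := LL) (by omega : 1 ≤ N) hκ (Q := Q) (σ := σ)
    (Real.log_pos (by norm_num : (1 : ℝ) < 2)) log_two_le (h1 σ (by linarith)) (β := β') (q := q)
    (fun x => one_lt_qq x.1.1) (G := G) (T0 := T) (ω := ω) (by
      intro h0
      rw [h0, norm_zero] at hω
      norm_num at hω) (fun s hs _ => by
      have := hid s (by linarith)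
      rw [mul_one] at this
      exact this.symm) hgr (fun s hs => (hG s (Or.inr hs)).differentiableAt) hFE
  linarith

/-- from divergence to counting -/
theorem count_large {ι : Type*} {N : ι → ℕ} (hN1 : ∀ i, 1 ≤ N i) (hNf : ∀ b : ℕ, {i | N i ≤ b}.Finite)
    (E : ι → Prop) {c₁ : ℝ} (hc₁ : 0 < c₁)
    (h : ∀ c : ℝ, c < c₁ → ¬ Summable fun i : {i : ι // E i} => (N i.1 : ℝ) ^ (-c)) :
    ∀ c : ℝ, c < c₁ → ∀ C X : ℝ, ∃ x : ℝ, X ≤ x ∧
      C * x ^ c < (({i : ι | (N i : ℝ) ≤ x ∧ E i}.ncard : ℕ) : ℝ) := by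
  intro c hc C X
  by_contra hcon
  push Not at hcon
  have hfin : ∀ x : ℝ, {i : ι | (N i : ℝ) ≤ x ∧ E i}.Finite := by
    intro x
    refine (hNf ⌊x⌋₊).subset fun p hp => ?_
    exact Nat.le_floor hp.1
  set X' := max X 1 with hX'
  set M : ℝ := ((({i : ι | (N i : ℝ) ≤ X' ∧ E i}.ncard : ℕ) : ℝ)) with hM
  have hM0 : 0 ≤ M := Nat.cast_nonneg _
  set c₀ := max c 0 with hc₀
  have hc₀2 : c₀ < c₁ := max_lt hc hc₁
  have key : ∀ x : ℝ, 1 ≤ x → (({i : ι | (N i : ℝ) ≤ x ∧ E i}.ncard : ℕ) : ℝ) ≤ (|C| + M) * x ^ c₀ := by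
    intro x hx
    have hx0 : 0 < x := by linarith
    have h1 : 1 ≤ x ^ c₀ := Real.one_le_rpow hx (le_max_right _ _)
    rcases le_or_gt X x with hXx | hXx
    · calc _ ≤ C * x ^ c := hcon x hXx
        _ ≤ |C| * x ^ c₀ := by
            refine mul_le_mul (le_abs_self C) ?_ (by positivity) (abs_nonneg C)
            exact Real.rpow_le_rpow_of_exponent_le hx (le_max_left _ _)
        _ ≤ _ := by nlinarith
    · have h2 : (({i : ι | (N i : ℝ) ≤ x ∧ E i}.ncard : ℕ) : ℝ) ≤ M := by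
        rw [hM]
        refine Nat.cast_le.2 (Set.ncard_le_ncard ?_ (hfin _))
        intro p hp
        exact ⟨hp.1.trans (hXx.le.trans (le_max_left _ _)), hp.2⟩
      have := abs_nonneg C
      nlinarith
  refine h ((c₀ + c₁) / 2) (by linarith) ?_
  refine Pool.Agent.W189.TP.summable_of_count (N := fun p : {i : ι // E i} => N p.1) (fun p => hN1 p.1)
    (fun b => ?_) (C := |C| + M) (c := c₀) (fun x hx => ?_) (by linarith)
  · exact (hNf b).preimage Subtype.val_injective.injOn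
  · refine le_trans (Nat.cast_le.2 ?_) (key x hx)
    have e : {i : ι | (N i : ℝ) ≤ x ∧ E i} = (fun p : {i : ι // E i} => p.1) '' {p | (N p.1 : ℝ) ≤ x} := by
      ext p
      simp only [Set.mem_ofPred_eq, Set.mem_image, Subtype.exists, exists_and_left, exists_prop,
        exists_eq_right_right]
    rw [e, Set.ncard_image_of_injective _ Subtype.val_injective]

theorem small_diverge' {α : PL S → Fin 3 → ℂ} (h : AutomorphicGL3 α) {c : ℝ}
    (hc : c < 1 / 2 + 1 / (16 * (Module.finrank ℚ K : ℝ))) :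
    ¬ Summable fun v : {v : PL S // ‖∑ i, α v i‖ < 1} => (qq v.1.1 : ℝ) ^ (-c) := by
  classical
  intro hs
  refine small_diverge h hc ?_
  have h2 := (summable_subtype_iff_indicator (s := {v : PL S | ‖∑ i, α v i‖ < 1})
    (f := fun v : PL S => (qq v.1 : ℝ) ^ (-c))).1 hs
  refine Summable.of_nonneg_of_le (fun v => mul_nonneg (small_nonneg α v)
      (by have := (qq_pos v.1).le; positivity)) (fun v => ?_) h2
  have hp : 0 ≤ (qq v.1 : ℝ) ^ (-c) := by have := (qq_pos v.1).le; positivity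
  by_cases hv : ‖∑ i, α v i‖ < 1
  · rw [Set.indicator_of_mem (by exact hv)]
    exact mul_le_of_le_one_left hp (small_le α v)
  · rw [Set.indicator_of_notMem (by exact hv)]
    push Not at hv
    have : small α v = 0 := by
      unfold small
      refine max_eq_left ?_
      nlinarith
    rw [this, zero_mul]

theorem tempered_of_small {α : PL S → Fin 3 → ℂ} (h : AutomorphicGL3 α) {v : PL S} (hv : ‖∑ i, α v i‖ < 1) :
    Tempered α v := by
  by_contra hcon
  have h1 := small_of_not h.cuspidal hcon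
  unfold small at h1
  have h2 : 1 - ‖∑ i, α v i‖ ^ 2 ≤ 0 := by
    rw [← h1]
    exact le_max_right _ _
  nlinarith [norm_nonneg (∑ i, α v i)]

end Pool.Agent.TH949.RES
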