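import Pool.Agent.TH949.RES.PGL2

/-! Spherical cusp forms on `PGL_n` over `ℚ`: the main theorem. -/

set_option autoImplicit false

namespace Pool.Agent.TH949.RES

open Filter Topology Complex
open Pool.Agent.W189.TP (DS extend extend_id DS_diff PS LL LL_nonneg exp_LL rexp_LL summable_pp zetaS norm_term
  summable_primes_subtype summ_cplx summ_mono)

variable {n : ℕ}

/-- the differences of the Langlands parameters, without one zero -/
theorem exists_kappa (hn : 1 ≤ n) (μ : Fin n → ℂ) {m : ℕ} (hm : m + 1 = n * n)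
    (hμ : ∃ τ : Equiv.Perm (Fin n), ∀ i, μ (τ i) = -(starRingEnd ℂ) (μ i)) :
    ∃ κ : Fin m → ℂ, CC κ ∧ ∀ f : ℂ → ℂ, f 0 * ∏ j, f (κ j) = ∏ i, ∏ j, f (μ i - μ j) := by
  classical
  obtain ⟨τ, hτ⟩ := hμ
  set i₀ : Fin n := ⟨0, hn⟩
  set P := {x : Fin n × Fin n // x ≠ (i₀, i₀)}
  have hcard : Fintype.card P = m := by
    have h1 : Fintype.card P = Fintype.card (Fin n × Fin n) - 1 := by
      have := Fintype.card_subtype_compl (fun x : Fin n × Fin n => x = (i₀, i₀))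
      rw [Fintype.card_subtype_eq] at this
      exact this
    rw [h1, Fintype.card_prod, Fintype.card_fin]
    omega
  set e : P ≃ Fin m := Fintype.equivFinOfCardEq hcard
  set D : Fin n × Fin n → ℂ := fun x => μ x.1 - μ x.2 with hD
  set κ : Fin m → ℂ := fun j => D (e.symm j).1 with hκ
  -- the multiset of the differences
  have hM : ∀ g : ℂ → ℂ, Multiset.map (fun x => g (D x)) (Finset.univ : Finset (Fin n × Fin n)).val =
      g 0 ::ₘ Multiset.map (fun j => g (κ j)) Finset.univ.val := by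
    intro g
    have h1 : (Finset.univ : Finset (Fin n × Fin n)) = insert (i₀, i₀) (Finset.univ.filter (fun x => x ≠ (i₀, i₀))) := by
      ext x
      simp only [Finset.mem_univ, Finset.mem_insert, Finset.mem_filter, true_and, true_iff]
      exact em _
    have h2 : (i₀, i₀) ∉ Finset.univ.filter (fun x : Fin n × Fin n => x ≠ (i₀, i₀)) := by simp
    have h3 : D (i₀, i₀) = 0 := by simp [hD]
    rw [h1, Finset.insert_val_of_notMem h2, Multiset.map_cons, h3]
    congr 1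
    have h4 : (Finset.univ.filter (fun x : Fin n × Fin n => x ≠ (i₀, i₀))) =
        (Finset.univ : Finset (Fin m)).map ⟨fun j => (e.symm j).1, fun a b hab => e.symm.injective (Subtype.ext hab)⟩ := by
      ext x
      simp only [Finset.mem_filter, Finset.mem_univ, true_and, Finset.mem_map]
      constructor
      · intro hx
        exact ⟨e ⟨x, hx⟩, congrArg Subtype.val (Equiv.symm_apply_apply e ⟨x, hx⟩)⟩
      · rintro ⟨j, rfl⟩
        exact (e.symm j).2
    rw [h4, Finset.map_val, Multiset.map_map]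
    rfl
  refine ⟨κ, ?_, fun f => ?_⟩
  · -- conjugation
    have h1 := hM (starRingEnd ℂ)
    have h2 := hM id
    have h3 : Multiset.map (fun x => (starRingEnd ℂ) (D x)) (Finset.univ : Finset (Fin n × Fin n)).val =
        Multiset.map (fun x => id (D x)) (Finset.univ : Finset (Fin n × Fin n)).val := by
      set E : Fin n × Fin n ≃ Fin n × Fin n := (Equiv.prodComm (Fin n) (Fin n)).trans (Equiv.prodCongr τ τ) with hE
      have h4 : (fun x => (starRingEnd ℂ) (D x)) = (fun x => id (D x)) ∘ E := by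
        funext x
        simp only [hD, hE, Function.comp, id, Equiv.trans_apply, Equiv.prodComm_apply, Equiv.prodCongr_apply,
          Prod.map, Prod.fst_swap, Prod.snd_swap, hτ, map_sub]
        ring
      rw [h4, ← Multiset.map_map, Multiset.map_univ_val_equiv]
    rw [h1, h2, map_zero] at h3
    exact (Multiset.cons_inj_right _).1 h3
  · have h1 := congrArg Multiset.prod (hM f)
    rw [Multiset.prod_cons] at h1
    have h2 : (Multiset.map (fun x => f (D x)) (Finset.univ : Finset (Fin n × Fin n)).val).prod =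
        ∏ x, f (D x) := rfl
    have h3 : (Multiset.map (fun j => f (κ j)) Finset.univ.val).prod = ∏ j, f (κ j) := rfl
    rw [h2, h3, Fintype.prod_prod_type] at h1
    exact h1.symm

/-- **The exponent.** -/
theorem exponent_bound (hn : 2 ≤ n) {α : Nat.Primes → Fin n → ℂ} {μ : Fin n → ℂ} (h : SphericalCuspForm α μ)
    {G Ξ : ℂ → ℂ} (hG : Differentiable ℂ G) (hΞ : Differentiable ℂ Ξ)
    (hE : ∀ s : ℂ, 1 < s.re → G s = (s - 1) * Complex.exp (logL α s))
    (hgr : ∀ a b : ℝ, ∃ C A : ℝ, ∀ s : ℂ, a ≤ s.re → s.re ≤ b → ‖G s‖ ≤ C * (1 + |s.im|) ^ A)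
    (hid : ∀ s : ℂ, 1 < s.re → Ξ s = s * G s * ∏ i, ∏ j, Gammaℝ (s + (μ i - μ j)))
    (hfe : ∀ s : ℂ, Ξ (1 - s) = Ξ s) {c : ℝ}
    (hs : ∀ t, c < t → Summable fun x : PS ∅ × ℕ => |d1 (rs α) x| * Real.exp (-(t * LL x)))
    (hL : ∀ s : ℂ, c < s.re → cexp (DS (d1 (rs α)) LL s) * riemannZeta₁ s = G s) :
    (n : ℝ) ^ 2 / (2 * (n : ℝ) ^ 2 - 1) ≤ c := by
  have hn2 : 4 ≤ n * n := by nlinarith
  set m : ℕ := n * n - 1 with hm
  have hm1 : m + 1 = n * n := by omega
  have hmr : (m : ℝ) + 1 = (n : ℝ) ^ 2 := by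
    have : ((m + 1 : ℕ) : ℝ) = ((n * n : ℕ) : ℝ) := by rw [hm1]
    push_cast at this
    rw [this]
    ring
  obtain ⟨κ, hκ, hκp⟩ := exists_kappa (by omega : 1 ≤ n) μ hm1 h.unitary_real
  have hGF : ∀ s : ℂ, GF (c0 κ) 1 s = ∏ i, ∏ j, Gammaℝ (s + (μ i - μ j)) := by
    intro s
    rw [← hκp fun z => Gammaℝ (s + z)]
    unfold GF
    rw [Fin.prod_univ_succ, Real.log_one]
    simp [c0]
  have e1 : (n : ℝ) ^ 2 / (2 * (n : ℝ) ^ 2 - 1) = ((m : ℝ) + 1) / (2 * (m : ℝ) + 1) := by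
    rw [← hmr]
    congr 1
    ring
  rw [e1]
  have hcnt : Countable (PS ∅ × ℕ) := inferInstance
  set Lf : ℂ → ℂ := fun s => G s / (s - 1) with hLf
  refine le_of_forall_gt_imp_ge_of_dense fun σ hσ => ?_
  set T0 : ℝ := 1 + KK (c0 κ) + 1 + ∑ i, ‖μ i‖ + ∑ i, ‖μ i‖ with hT0
  have hKK := KK_nonneg (c0 κ)
  have hle : ∀ i, ‖μ i‖ ≤ ∑ i, ‖μ i‖ := fun i =>
    Finset.single_le_sum (f := fun i => ‖μ i‖) (fun _ _ => norm_nonneg _) (Finset.mem_univ i)
  have hnn : 0 ≤ ∑ i, ‖μ i‖ := Finset.sum_nonneg fun _ _ => norm_nonneg _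
  have hT1 : 1 ≤ T0 := by
    rw [hT0]
    linarith
  have hs1 : ∀ s : ℂ, T0 < |s.im| → s - 1 ≠ 0 := by
    intro s hs h0
    rw [sub_eq_zero] at h0
    rw [h0] at hs
    simp at hs
    linarith
  have hs0 : ∀ s : ℂ, T0 < |s.im| → s ≠ 0 := by
    intro s hs h0
    rw [h0] at hs
    simp at hs
    linarith
  have hss0 : Summable fun x : PS ∅ × ℕ => |d0 (rs α) x| * Real.exp (-(2 * LL x)) := summable_d0 h (by norm_num)
  have hgam : ∀ s : ℂ, T0 < |s.im| → ∏ i, ∏ j, Gammaℝ (s + (μ i - μ j)) ≠ 0 := by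
    intro s hs
    rw [Finset.prod_ne_zero_iff]
    intro i _
    rw [Finset.prod_ne_zero_iff]
    intro j _
    refine gr_ne0 ?_
    rw [Complex.add_im, Complex.sub_im]
    intro h0
    have a1 := Complex.abs_im_le_norm (μ i)
    have a2 := Complex.abs_im_le_norm (μ j)
    have a3 := hle i
    have a4 := hle j
    have a5 : s.im = (μ j).im - (μ i).im := by linarith
    have a6 := abs_sub (μ j).im (μ i).im
    rw [← a5] at a6
    linarith
  have hxi : ∀ s : ℂ, T0 < |s.im| → Ξ s = s * G s * ∏ i, ∏ j, Gammaℝ (s + (μ i - μ j)) := by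
    intro s hs
    have h1 := xi_id hG hΞ hid s
    have h2 := hgam s hs
    have h3 : (∏ i, ∏ j, (Gammaℝ (s + (μ i - μ j)))⁻¹) = (∏ i, ∏ j, Gammaℝ (s + (μ i - μ j)))⁻¹ := by
      rw [← Finset.prod_inv_distrib]
      refine Finset.prod_congr rfl fun i _ => ?_
      rw [← Finset.prod_inv_distrib]
    rw [h3] at h1
    rw [h1]
    field_simp
  refine resonanceZ (d := d1 (rs α)) (L := LL) (d0 := d0 (rs α)) (L0 := LL) (by omega : 1 ≤ m) hκ (Q := 1) (σ := σ)
    LL_nonneg (hs σ hσ) (σ0 := 2) (Real.log_pos (by norm_num : (1 : ℝ) < 2)) log2_le hss0 (G := Lf) (T0 := T0)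
    (ω := 1) one_ne_zero (fun s h1 h2 => ?_) (fun s h1 h2 => ?_) (fun a b => ?_) (fun s h1 => ?_) (fun s h1 => ?_)
  · rw [hLf]
    simp only
    rw [hE s (by linarith), logL_eq, mul_div_cancel_left₀ _ (hs1 s h2)]
  · rw [hLf]
    simp only
    have hne1 : s ≠ 1 := sub_ne_zero.1 (hs1 s h2)
    rw [← hL s (by linarith), riemannZeta_eq_inv_sub_mul hne1]
    have := hs1 s h2
    field_simp
  · obtain ⟨C, A, hCA⟩ := hgr a b
    refine ⟨|C| * 2 ^ |A|, |A|, fun s h1 h2 h3 => ?_⟩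
    have h4 := hCA s h1 h2
    have h5 : 1 ≤ |s.im| := by linarith
    have h6 : 1 ≤ ‖s - 1‖ := by
      have := Complex.abs_im_le_norm (s - 1)
      rw [Complex.sub_im, Complex.one_im, sub_zero] at this
      linarith
    have h7 : (1 + |s.im|) ^ A ≤ (2 * |s.im|) ^ |A| := by
      calc (1 + |s.im|) ^ A ≤ (1 + |s.im|) ^ |A| :=
            Real.rpow_le_rpow_of_exponent_le (by linarith) (le_abs_self A)
        _ ≤ _ := Real.rpow_le_rpow (by linarith) (by linarith) (abs_nonneg A)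
    rw [Real.mul_rpow (by norm_num) (by linarith)] at h7
    rw [hLf]
    simp only
    rw [norm_div]
    have h8 : 0 ≤ (1 + |s.im|) ^ A := by positivity
    calc ‖G s‖ / ‖s - 1‖ ≤ ‖G s‖ := div_le_self (norm_nonneg _) h6
      _ ≤ C * (1 + |s.im|) ^ A := h4
      _ ≤ |C| * (2 ^ |A| * |s.im| ^ |A|) := mul_le_mul (le_abs_self C) h7 h8 (abs_nonneg C)
      _ = _ := by ring
  · rw [hLf]
    exact (hG s).div (by fun_prop) (hs1 s h1)
  · have h2 : T0 < |(1 - s).im| := by simpa using h1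
    have a1 := hxi s h1
    have a2 := hxi (1 - s) h2
    have b1 := hs1 s h1
    have b2 := hs1 (1 - s) h2
    have b3 := hs0 s h1
    have b4 := hs0 (1 - s) h2
    have a3 := hfe s
    rw [a1, a2] at a3
    rw [hGF, hGF, one_mul, hLf]
    simp only
    set P := ∏ i, ∏ j, Gammaℝ (s + (μ i - μ j))
    set P' := ∏ i, ∏ j, Gammaℝ (1 - s + (μ i - μ j))
    have h5 : 1 - s - 1 = -s := by ring
    rw [h5]
    have h6 : s - 1 = -(1 - s) := by ring
    rw [h6]
    have h7 : -s ≠ 0 := neg_ne_zero.2 b3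
    have h8 : -(1 - s) ≠ 0 := neg_ne_zero.2 b4
    field_simp
    linear_combination a3

/-- **Main theorem.** -/
theorem pgl_main (hn : 2 ≤ n) {α : Nat.Primes → Fin n → ℂ} {μ : Fin n → ℂ} (h : SphericalCuspForm α μ) {c : ℝ}
    (hc : Summable fun p : Nat.Primes => max 0 (1 - ‖∑ i, α p i‖ ^ 2) * ((p : ℕ) : ℝ) ^ (-c)) :
    (n : ℝ) ^ 2 / (2 * (n : ℝ) ^ 2 - 1) ≤ c ∧ (∀ (p : Nat.Primes) (i : Fin n), |Real.logb ((p : ℕ) : ℝ) ‖α p i‖| ≤ c / 2) ∧
      ∀ i, |(μ i).re| ≤ c / 2 := by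
  obtain ⟨G, Ξ, hG, hΞ, hE, hgr, hid, hfe⟩ := h.continuation
  obtain ⟨c', hc'⟩ : ∃ c' : ℝ, c' = max c (1 / 2) := ⟨_, rfl⟩
  have hcc : c ≤ c' := by rw [hc']; exact le_max_left _ _
  have hcc2 : 1 / 2 ≤ c' := by rw [hc']; exact le_max_right _ _
  have hnr : (2 : ℝ) ≤ n := by exact_mod_cast hn
  have hq : 1 / 2 < (n : ℝ) ^ 2 / (2 * (n : ℝ) ^ 2 - 1) := by
    have : 0 < 2 * (n : ℝ) ^ 2 - 1 := by nlinarith
    rw [div_lt_div_iff₀ (by norm_num) this]
    linarith
  have hB : Summable fun p : PS ∅ => sm (rs α) p * ((p.1 : ℕ) : ℝ) ^ (-c') := by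
    have h1 := hc.comp_injective (Subtype.val_injective (p := fun p : Nat.Primes => p ∉ (∅ : Finset Nat.Primes)))
    refine Summable.of_nonneg_of_le (fun p => mul_nonneg (sm_nonneg _ _) (by positivity)) (fun p => ?_) h1
    have hp : (1 : ℝ) ≤ ((p.1 : ℕ) : ℝ) := by exact_mod_cast p.1.2.one_lt.le
    exact mul_le_mul_of_nonneg_left (Real.rpow_le_rpow_of_exponent_le hp (neg_le_neg hcc))
      (sm_nonneg (rs α) p)
  obtain ⟨h1, h2⟩ := landau_all h hG hE hcc2 hB
  have h3 := exponent_bound hn h hG hΞ hE hgr hid hfe h1 h2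
  have h4 : c' = c := by
    rcases le_total c (1 / 2) with h5 | h5
    · rw [hc', max_eq_right h5] at h3
      linarith
    · rw [hc', max_eq_left h5]
  rw [h4] at h1 h2 h3
  have hc0 : 0 < c := by linarith
  exact ⟨h3, finite_bound h hc0 h1, real_bound h hG hΞ hid hc0 h2⟩

end Pool.Agent.TH949.RES
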