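import Mathlib
import Pool.Agent.W189.TP.Land

/-! Integrals against the exponential of an absolutely convergent Dirichlet series. -/

set_option autoImplicit false

namespace Pool.Agent.TH949.RES

open Filter Topology Complex MeasureTheory Set
open Pool.Agent.W189.TP (DS norm_term)

theorem hs_int {ι : Type*} [Countable ι] {a b : ℝ} (hab : a ≤ b) {F : ι → ℝ → ℂ} {f : ℝ → ℂ} {c : ι → ℝ}
    (hF : ∀ i, ContinuousOn (F i) (Icc a b)) (hc : Summable c)
    (hb : ∀ i, ∀ t ∈ Icc a b, ‖F i t‖ ≤ c i) (hs : ∀ t ∈ Icc a b, HasSum (fun i => F i t) (f t)) :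
    HasSum (fun i => ∫ t in a..b, F i t) (∫ t in a..b, f t) := by
  have hsub : ∀ t, t ∈ uIoc a b → t ∈ Icc a b := fun t ht => by
    rw [uIoc_of_le hab] at ht
    exact Ioc_subset_Icc_self ht
  refine intervalIntegral.hasSum_integral_of_dominated_convergence (fun i _ => c i) (fun i => ?_)
    (fun i => Eventually.of_forall fun t ht => hb i t (hsub t ht))
    (Eventually.of_forall fun t _ => hc) (by simp) (Eventually.of_forall fun t ht => hs t (hsub t ht))
  have h1 : IntervalIntegrable (F i) volume a b := by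
    refine ContinuousOn.intervalIntegrable ?_
    rw [uIcc_of_le hab]
    exact hF i
  rw [uIoc_of_le hab]
  exact h1.1.aestronglyMeasurable

variable {X : Type*} [Countable X] {d L : X → ℝ}

omit [Countable X] in
theorem term_line (σ : ℝ) (t : ℝ) (x : X) : (d x : ℂ) * cexp (-((σ + t * I) * L x)) =
    (d x : ℂ) * cexp (-(σ * L x)) * cexp (-(L x * t) * I) := by
  rw [mul_assoc, ← Complex.exp_add]
  congr 2
  ring

omit [Countable X] in
theorem DS_line_cont {σ : ℝ} (hs : Summable fun i => |d i| * Real.exp (-(σ * L i))) :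
    Continuous fun t : ℝ => DS d L (σ + t * I) := by
  unfold DS
  refine continuous_tsum (fun i => by fun_prop) hs fun i t => ?_
  rw [norm_term]
  simp

/-- powers of the Dirichlet series -/
theorem pow_bound {a b : ℝ} (hab : a ≤ b) {σ B : ℝ} {W : ℝ → ℂ} (hW : ContinuousOn W (Icc a b))
    (hB : ∀ lam : ℝ, ‖∫ t in a..b, W t * cexp (-(lam * t) * I)‖ ≤ B)
    (hs : Summable fun i => |d i| * Real.exp (-(σ * L i))) (k : ℕ) : ∀ lam : ℝ,
    ‖∫ t in a..b, W t * DS d L (σ + t * I) ^ k * cexp (-(lam * t) * I)‖ ≤
      (∑' i, |d i| * Real.exp (-(σ * L i))) ^ k * B := by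
  induction k with
  | zero =>
    intro lam
    simpa using hB lam
  | succ k ih =>
    intro lam
    set A := ∑' i, |d i| * Real.exp (-(σ * L i)) with hA
    have hDc := DS_line_cont hs
    set V : ℝ → ℂ := fun t => W t * DS d L (σ + t * I) ^ k with hV
    have hVc : ContinuousOn V (Icc a b) := hW.mul (hDc.continuousOn.pow k)
    obtain ⟨C, hC⟩ := isCompact_Icc.exists_bound_of_continuousOn hVc
    set F : X → ℝ → ℂ := fun x t => ((d x : ℂ) * cexp (-(σ * L x))) *
      (V t * cexp (-(((lam + L x : ℝ) : ℂ) * t) * I)) with hF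
    have hnd : ∀ x, ‖(d x : ℂ) * cexp (-(σ * L x))‖ = |d x| * Real.exp (-(σ * L x)) := by
      intro x
      have := norm_term d L (σ : ℂ) x
      simpa using this
    have hne : ∀ (y : ℝ) (t : ℝ), ‖cexp (-((y : ℂ) * t) * I)‖ = 1 := by
      intro y t
      rw [Complex.norm_exp]
      simp
    have h1 := hs_int (ι := X) hab (F := F)
      (f := fun t => W t * DS d L (σ + t * I) ^ (k + 1) * cexp (-(lam * t) * I))
      (c := fun x => (|d x| * Real.exp (-(σ * L x))) * C)
      (fun x => by
        refine continuousOn_const.mul (hVc.mul ?_)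
        fun_prop) (hs.mul_right C) (fun x t ht => by
        rw [hF]
        simp only
        rw [norm_mul, hnd, norm_mul, hne, mul_one]
        exact mul_le_mul_of_nonneg_left (hC t ht) (by positivity)) (fun t ht => by
        have h2 : Summable fun x => (d x : ℂ) * cexp (-((σ + t * I) * L x)) := by
          refine Summable.of_norm (hs.congr fun x => ?_)
          rw [norm_term]
          simp
        have h3 := h2.hasSum.mul_left (V t * cexp (-(lam * t) * I))
        have e1 : V t * cexp (-(lam * t) * I) * ∑' x, (d x : ℂ) * cexp (-((σ + t * I) * L x)) =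
            W t * DS d L (σ + t * I) ^ (k + 1) * cexp (-(lam * t) * I) := by
          rw [hV, pow_succ]
          simp only
          have : ∑' x, (d x : ℂ) * cexp (-((σ + t * I) * L x)) = DS d L (σ + t * I) := rfl
          rw [this]
          ring
        rw [e1] at h3
        refine h3.congr_fun fun x => ?_
        rw [hF]
        simp only
        rw [term_line σ t x]
        have e2 : cexp (-(((lam + L x : ℝ) : ℂ) * t) * I) = cexp (-(lam * t) * I) * cexp (-(L x * t) * I) := by
          rw [← Complex.exp_add]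
          congr 1
          push_cast
          ring
        rw [e2]
        ring)
    rw [← h1.tsum_eq]
    have h4 : ∀ x, ‖∫ t in a..b, F x t‖ ≤ (|d x| * Real.exp (-(σ * L x))) * (A ^ k * B) := by
      intro x
      rw [hF]
      simp only
      rw [intervalIntegral.integral_const_mul, norm_mul, hnd]
      refine mul_le_mul_of_nonneg_left ?_ (by positivity)
      have := ih (lam + L x)
      simpa [hV] using this
    refine (tsum_of_norm_bounded (hs.mul_right (A ^ k * B)).hasSum h4).trans (le_of_eq ?_)
    rw [tsum_mul_right]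
    ring

/-- the exponential of the Dirichlet series -/
theorem exp_bound {a b : ℝ} (hab : a ≤ b) {σ B : ℝ} {W : ℝ → ℂ} (hW : ContinuousOn W (Icc a b))
    (hB : ∀ lam : ℝ, ‖∫ t in a..b, W t * cexp (-(lam * t) * I)‖ ≤ B)
    (hs : Summable fun i => |d i| * Real.exp (-(σ * L i))) (lam : ℝ) :
    ‖∫ t in a..b, W t * cexp (DS d L (σ + t * I)) * cexp (-(lam * t) * I)‖ ≤
      Real.exp (∑' i, |d i| * Real.exp (-(σ * L i))) * B := by
  set A := ∑' i, |d i| * Real.exp (-(σ * L i)) with hA
  have hDc := DS_line_cont hs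
  obtain ⟨C, hC⟩ := isCompact_Icc.exists_bound_of_continuousOn hW
  have hne : ∀ (y : ℝ) (t : ℝ), ‖cexp (-((y : ℂ) * t) * I)‖ = 1 := by
    intro y t
    rw [Complex.norm_exp]
    simp
  have hA' : ∀ t : ℝ, ‖DS d L (σ + t * I)‖ ≤ A := by
    intro t
    have h1 := Pool.Agent.W189.TP.DS_norm_le (d := d) (L := L) (s := σ + t * I) (by simpa using hs)
    simpa using h1
  have hAsum : HasSum (fun k : ℕ => A ^ k / (k.factorial : ℝ)) (Real.exp A) := by
    rw [Real.exp_eq_exp_ℝ]
    exact NormedSpace.expSeries_div_hasSum_exp A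
  have h1 := hs_int (ι := ℕ) hab
    (F := fun k t => ((k.factorial : ℂ)⁻¹) * (W t * DS d L (σ + t * I) ^ k * cexp (-(lam * t) * I)))
    (f := fun t => W t * cexp (DS d L (σ + t * I)) * cexp (-(lam * t) * I))
    (c := fun k => C * (A ^ k / (k.factorial : ℝ)))
    (fun k => continuousOn_const.mul ((hW.mul (hDc.continuousOn.pow k)).mul (by fun_prop)))
    (hAsum.summable.mul_left C) (fun k t ht => by
      have hC0 : 0 ≤ C := (norm_nonneg _).trans (hC t ht)
      rw [norm_mul, norm_mul, norm_mul, hne, mul_one, norm_inv, norm_pow, Complex.norm_natCast]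
      have h2 := pow_le_pow_left₀ (norm_nonneg _) (hA' t) k
      have h3 := mul_le_mul (hC t ht) h2 (by positivity) hC0
      calc _ ≤ ((k.factorial : ℝ)⁻¹) * (C * A ^ k) := mul_le_mul_of_nonneg_left h3 (by positivity)
        _ = _ := by ring) (fun t ht => by
      have h2 : HasSum (fun k : ℕ => DS d L (σ + t * I) ^ k / (k.factorial : ℂ)) (cexp (DS d L (σ + t * I))) := by
        rw [Complex.exp_eq_exp_ℂ]
        exact NormedSpace.expSeries_div_hasSum_exp _
      have h3 := h2.mul_left (W t * cexp (-(lam * t) * I))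
      have e1 : W t * cexp (-(lam * t) * I) * cexp (DS d L (σ + t * I)) =
          W t * cexp (DS d L (σ + t * I)) * cexp (-(lam * t) * I) := by ring
      rw [e1] at h3
      refine h3.congr_fun fun k => ?_
      ring)
  rw [← h1.tsum_eq]
  have h4 : ∀ k : ℕ, ‖∫ t in a..b, ((k.factorial : ℂ)⁻¹) *
      (W t * DS d L (σ + t * I) ^ k * cexp (-(lam * t) * I))‖ ≤ A ^ k / (k.factorial : ℝ) * B := by
    intro k
    rw [intervalIntegral.integral_const_mul, norm_mul, norm_inv, Complex.norm_natCast]
    calc _ ≤ ((k.factorial : ℝ)⁻¹) * (A ^ k * B) :=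
          mul_le_mul_of_nonneg_left (pow_bound hab hW hB hs k lam) (by positivity)
      _ = _ := by ring
  refine (tsum_of_norm_bounded (hAsum.mul_right B) h4).trans (le_of_eq rfl)

end Pool.Agent.TH949.RES
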