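import Pool.Agent.TH949.RES.Osc
import Pool.Agent.TH949.RES.Exp

/-! The left edge of the contour. -/

set_option autoImplicit false

namespace Pool.Agent.TH949.RES

open Filter Topology Complex MeasureTheory Set
open Pool.Agent.W189.TP (DS norm_term)

variable {X : Type*} {d L : X → ℝ} {J : Type*} [Fintype J]

/-- the finite Euler factors -/
noncomputable def bf (β : J → ℂ) (q : J → ℝ) (s : ℂ) : ℂ :=
  ∏ j, (1 - β j * cexp (-(s * Real.log (q j))))

open scoped Classical in
/-- logarithm of the product of the relevant `q j` -/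
noncomputable def el (β : J → ℂ) (q : J → ℝ) : ℝ := ∑ j, if β j = 0 then 0 else Real.log (q j)

open scoped Classical in
/-- the limit at the left -/
noncomputable def p0 (β : J → ℂ) : ℂ := ∏ j, if β j = 0 then 1 else -β j

theorem p0_ne (β : J → ℂ) : p0 β ≠ 0 := by
  unfold p0
  rw [Finset.prod_ne_zero_iff]
  intro j _
  split_ifs with h
  · exact one_ne_zero
  · exact neg_ne_zero.2 h

/-- the filter `Re s → -∞` -/
def lf : Filter ℂ := comap Complex.re atBot

theorem re_lf : Tendsto Complex.re lf atBot := tendsto_comap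

theorem exp_lf {a : ℝ} (ha : 0 < a) : Tendsto (fun s : ℂ => cexp (s * a)) lf (𝓝 0) := by
  rw [tendsto_zero_iff_norm_tendsto_zero]
  have h1 : ∀ s : ℂ, ‖cexp (s * a)‖ = Real.exp (s.re * a) := fun s => by
    rw [Complex.norm_exp]
    simp
  simp_rw [h1]
  exact Real.tendsto_exp_atBot.comp (re_lf.atBot_mul_const ha)

theorem bf_one (β : J → ℂ) {q : J → ℝ} (hq : ∀ j, 1 < q j) :
    Tendsto (fun s : ℂ => bf β q (1 - s)) lf (𝓝 1) := by
  unfold bf
  have h1 : ∀ j, Tendsto (fun s : ℂ => 1 - β j * cexp (-((1 - s) * Real.log (q j)))) lf (𝓝 1) := by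
    intro j
    have h2 := (exp_lf (Real.log_pos (hq j))).const_mul (β j * cexp (-(Real.log (q j))))
    rw [mul_zero] at h2
    have h3 := (tendsto_const_nhds (x := (1 : ℂ))).sub h2
    rw [sub_zero] at h3
    refine h3.congr fun s => ?_
    rw [mul_assoc, ← Complex.exp_add]
    congr 3
    ring
  have h2 := tendsto_finsetProd (Finset.univ : Finset J) fun j _ => h1 j
  simpa using h2

theorem bf_p0 (β : J → ℂ) {q : J → ℝ} (hq : ∀ j, 1 < q j) :
    Tendsto (fun s : ℂ => cexp (s * el β q) * bf β q s) lf (𝓝 (p0 β)) := by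
  classical
  have e : ∀ s : ℂ, cexp (s * el β q) * bf β q s =
      ∏ j, if β j = 0 then 1 else (cexp (s * Real.log (q j)) - β j) := by
    intro s
    unfold el bf
    push_cast
    rw [Finset.mul_sum, Complex.exp_sum, ← Finset.prod_mul_distrib]
    refine Finset.prod_congr rfl fun j _ => ?_
    split_ifs with h
    · simp [h]
    · rw [mul_sub, mul_one, mul_left_comm, ← Complex.exp_add]
      simp
  simp_rw [e]
  unfold p0
  refine tendsto_finsetProd _ fun j _ => ?_
  split_ifs with h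
  · exact tendsto_const_nhds
  · have := (exp_lf (Real.log_pos (hq j))).sub_const (β j)
    simpa using this

theorem DS_lf {σ : ℝ} {a : ℝ} (ha : 0 < a) (hL : ∀ x, a ≤ L x)
    (hs : Summable fun i => |d i| * Real.exp (-(σ * L i))) :
    Tendsto (fun s : ℂ => DS d L (1 - s)) lf (𝓝 0) := by
  rw [tendsto_zero_iff_norm_tendsto_zero]
  set A := ∑' i, |d i| * Real.exp (-(σ * L i)) with hA
  have hA0 : 0 ≤ A := tsum_nonneg fun i => by positivity
  have h1 : ∀ᶠ s : ℂ in lf, ‖DS d L (1 - s)‖ ≤ A * Real.exp ((s.re - (1 - σ)) * a) := by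
    have h2 : ∀ᶠ s : ℂ in lf, s.re ≤ 1 - σ := re_lf.eventually_le_atBot _
    filter_upwards [h2] with s hs'
    have h3 : ∀ i, ‖(d i : ℂ) * cexp (-((1 - s) * L i))‖ ≤
        |d i| * Real.exp (-(σ * L i)) * Real.exp ((s.re - (1 - σ)) * a) := by
      intro i
      rw [norm_term, mul_assoc, ← Real.exp_add]
      refine mul_le_mul_of_nonneg_left (Real.exp_le_exp.2 ?_) (abs_nonneg _)
      have e : (1 - s).re = 1 - s.re := by simp
      rw [e]
      have := hL i
      nlinarith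
    have h4 := tsum_of_norm_bounded (hs.mul_right (Real.exp ((s.re - (1 - σ)) * a))).hasSum h3
    rw [tsum_mul_right] at h4
    exact h4
  have h5 : Tendsto (fun s : ℂ => A * Real.exp ((s.re - (1 - σ)) * a)) lf (𝓝 0) := by
    have h6 : Tendsto (fun s : ℂ => (s.re - (1 - σ)) * a) lf atBot :=
      (tendsto_atBot_add_const_right _ _ re_lf).atBot_mul_const ha
    have h7 := (Real.tendsto_exp_atBot.comp h6).const_mul A
    rwa [mul_zero] at h7
  exact squeeze_zero' (Eventually.of_forall fun s => norm_nonneg _) h1 h5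

/-- the kernel without the weight tends to `p0` -/
theorem kernel_lf {σ : ℝ} {a : ℝ} (ha : 0 < a) (hL : ∀ x, a ≤ L x)
    (hs : Summable fun i => |d i| * Real.exp (-(σ * L i))) {β : J → ℂ} {q : J → ℝ} (hq : ∀ j, 1 < q j)
    {G : ℂ → ℂ} {T0 : ℝ}
    (hid : ∀ s : ℂ, σ ≤ s.re → T0 < |s.im| → G s * bf β q s = cexp (DS d L s)) {ε : ℝ} (hε : 0 < ε) :
    ∃ A : ℝ, ∀ s : ℂ, s.re ≤ A → T0 < |s.im| → ‖cexp (s * el β q) * bf β q s * G (1 - s) - p0 β‖ ≤ ε := by
  have h1 := bf_one β hq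
  have h2 := (DS_lf ha hL hs).cexp
  rw [Complex.exp_zero] at h2
  have h3 := h2.div h1 one_ne_zero
  rw [div_one] at h3
  have h4 := (bf_p0 β hq).mul h3
  rw [mul_one] at h4
  have h5 := (Metric.tendsto_nhds.1 h4) ε hε
  have h6 : ∀ᶠ s : ℂ in lf, bf β q (1 - s) ≠ 0 := h1.eventually_ne one_ne_zero
  have h7 : ∀ᶠ s : ℂ in lf, s.re ≤ 1 - σ := re_lf.eventually_le_atBot _
  have h8 := (h5.and h6).and h7
  rw [lf, eventually_comap] at h8
  obtain ⟨A, hA⟩ := eventually_atBot.1 h8
  refine ⟨A, fun s hs1 hs2 => ?_⟩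
  obtain ⟨⟨h9, h10⟩, h11⟩ := hA s.re hs1 s rfl
  have h12 := hid (1 - s) (by simp; linarith) (by simpa using hs2)
  have h13 : G (1 - s) = cexp (DS d L (1 - s)) / bf β q (1 - s) := by
    rw [← h12]
    field_simp
  rw [h13]
  rw [dist_eq_norm] at h9
  exact h9.le

/-! ## The Gaussian integral -/

theorem gauss_full : ∫ u : ℝ, cexp (1 - (u : ℂ) ^ 2 - 2 * I * u) = ((√Real.pi : ℝ) : ℂ) := by
  have h1 := fourierIntegral_gaussian (b := 1) (by simp) (-2)
  have e1 : ∀ u : ℝ, cexp (1 - (u : ℂ) ^ 2 - 2 * I * u) = cexp 1 * (cexp (I * (-2) * u) * cexp (-1 * (u : ℂ) ^ 2)) := by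
    intro u
    rw [← Complex.exp_add, ← Complex.exp_add]
    congr 1
    ring
  simp_rw [e1]
  rw [integral_const_mul, h1, div_one, mul_left_comm, ← Complex.exp_add]
  have e2 : (1 : ℂ) + -(-2) ^ 2 / (4 * 1) = 0 := by norm_num
  rw [e2, Complex.exp_zero, mul_one, Real.sqrt_eq_rpow, Complex.ofReal_cpow Real.pi_pos.le]
  push_cast
  rfl

theorem gauss_integrable : Integrable fun u : ℝ => cexp (1 - (u : ℂ) ^ 2 - 2 * I * u) := by
  have h1 := integrable_cexp_quadratic' (b := -1) (by simp) (-2 * I) 1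
  refine h1.congr (Eventually.of_forall fun u => ?_)
  simp only
  congr 1
  ring

/-- the weight `D = T / log T` -/
noncomputable def DD (T : ℝ) : ℝ := T / Real.log T

theorem ww_left {T D : ℝ} (hD : D ≠ 0) (t : ℝ) : ww T D (((-D : ℝ) : ℂ) + t * I) =
    cexp (1 - ((t / D - T / D : ℝ) : ℂ) ^ 2 - 2 * I * ((t / D - T / D : ℝ) : ℂ)) := by
  unfold ww
  congr 1
  have hD' : (D : ℂ) ≠ 0 := by exact_mod_cast hD
  push_cast
  field_simp
  linear_combination ((t : ℂ) - T) ^ 2 * Complex.I_sq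

theorem left_int {T : ℝ} (hD : DD T ≠ 0) : ∫ t in (T / 2)..(2 * T), ww T (DD T) (((-DD T : ℝ) : ℂ) + t * I) =
    DD T * ∫ u in (-(T / (2 * DD T)))..(T / DD T), cexp (1 - (u : ℂ) ^ 2 - 2 * I * u) := by
  simp_rw [ww_left hD]
  have h1 := intervalIntegral.integral_comp_div_sub (a := T / 2) (b := 2 * T)
    (fun u : ℝ => cexp (1 - (u : ℂ) ^ 2 - 2 * I * u)) hD (T / DD T)
  rw [h1]
  have e1 : T / 2 / DD T - T / DD T = -(T / (2 * DD T)) := by
    field_simp
    ring
  have e2 : 2 * T / DD T - T / DD T = T / DD T := by ring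
  rw [e1, e2]
  simp

theorem left_tendsto : Tendsto (fun T : ℝ =>
    ∫ u in (-(T / (2 * DD T)))..(T / DD T), cexp (1 - (u : ℂ) ^ 2 - 2 * I * u)) atTop (𝓝 ((√Real.pi : ℝ) : ℂ)) := by
  rw [← gauss_full]
  have hlog : ∀ᶠ T : ℝ in atTop, T / DD T = Real.log T := by
    filter_upwards [eventually_gt_atTop 1] with T hT
    unfold DD
    have := Real.log_pos hT
    field_simp
  have h1 : Tendsto (fun T : ℝ => T / DD T) atTop atTop :=
    Real.tendsto_log_atTop.congr' (hlog.mono fun T hT => hT.symm)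
  refine intervalIntegral_tendsto_integral gauss_integrable ?_ h1
  have h2 : Tendsto (fun T : ℝ => -(T / DD T / 2)) atTop atBot :=
    tendsto_neg_atTop_atBot.comp (h1.atTop_div_const (by norm_num))
  refine h2.congr fun T => ?_
  rw [div_div, mul_comm (DD T)]

theorem ww_left_norm {T D : ℝ} (hD : D ≠ 0) (t : ℝ) : ‖ww T D (((-D : ℝ) : ℂ) + t * I)‖ =
    Real.exp 1 * Real.exp (-1 * (t / D - T / D) ^ 2) := by
  rw [ww_norm, ← Real.exp_add]
  congr 1
  simp
  field_simp
  ring

theorem left_norm_int {T : ℝ} (hT : 0 < T) (hD : 0 < DD T) :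
    ∫ t in (T / 2)..(2 * T), ‖ww T (DD T) (((-DD T : ℝ) : ℂ) + t * I)‖ ≤ Real.exp 1 * √Real.pi * DD T := by
  simp_rw [ww_left_norm hD.ne']
  rw [intervalIntegral.integral_const_mul]
  have h1 := intervalIntegral.integral_comp_div_sub (a := T / 2) (b := 2 * T)
    (fun u : ℝ => Real.exp (-1 * u ^ 2)) hD.ne' (T / DD T)
  rw [h1, smul_eq_mul]
  have hab : T / 2 / DD T - T / DD T ≤ 2 * T / DD T - T / DD T := by
    have : T / 2 / DD T ≤ 2 * T / DD T := by
      gcongr
      linarith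
    linarith
  have h2 : ∫ u in (T / 2 / DD T - T / DD T)..(2 * T / DD T - T / DD T), Real.exp (-1 * u ^ 2) ≤ √Real.pi := by
    rw [intervalIntegral.integral_of_le hab]
    have h3 := setIntegral_le_integral (s := Ioc (T / 2 / DD T - T / DD T) (2 * T / DD T - T / DD T))
      (integrable_exp_neg_mul_sq (b := 1) one_pos) (Eventually.of_forall fun u => (Real.exp_pos _).le)
    refine h3.trans (le_of_eq ?_)
    rw [integral_gaussian, div_one]
  have h4 : 0 < Real.exp 1 := Real.exp_pos _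
  calc _ ≤ Real.exp 1 * (DD T * √Real.pi) := by gcongr
    _ = _ := by ring

end Pool.Agent.TH949.RES
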