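import Pool.Agent.TH949.RES.OscZ

/-! The oscillatory integral with `ζ`: choosing the better of the two lines. -/

set_option autoImplicit false

namespace Pool.Agent.TH949.RES

open Filter Topology Complex MeasureTheory Set

variable {m : ℕ}

theorem hbound {κ : Fin m → ℂ} (hκ : CC κ) (Q : ℝ) : ∃ C A T1 : ℝ, 0 ≤ C ∧ 0 ≤ A ∧ 1 ≤ T1 ∧
    ∀ T : ℝ, T1 ≤ T → ∀ x : ℝ, |x| ≤ 2 → ∀ c : ℝ, c = 1 / 2 ∨ c = 2 → ∀ lam : ℝ,
      ‖fz κ Q T (x + ((c * T : ℝ) : ℂ) * I) * cexp (-(lam * (x + ((c * T : ℝ) : ℂ) * I)))‖ ≤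
        Real.exp (1 - (Real.log T) ^ 2 / 4) * (C * T ^ A) * Real.exp (-(lam * x)) := by
  obtain ⟨C, A, T1, hC, hA, hT1, h⟩ := growthZ hκ Q
  have hDt : Tendsto DD atTop atTop := by
    have h1 : Tendsto (fun x : ℝ => x / Real.log x) atTop atTop := by
      have h2 := Real.tendsto_exp_div_pow_atTop 1
      have h3 := h2.comp Real.tendsto_log_atTop
      refine h3.congr' ?_
      filter_upwards [eventually_gt_atTop 0] with x hx
      simp [Real.exp_log hx]
    exact h1
  obtain ⟨T2, hT2⟩ := eventually_atTop.1 (hDt.eventually_ge_atTop 2)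
  refine ⟨C * 2 ^ A, A, max (max (2 * T1) T2) 3, by positivity, hA, by
    have := le_max_right (max (2 * T1) T2) (3 : ℝ)
    linarith, fun T hT x hx c hc lam => ?_⟩
  have hTa : 2 * T1 ≤ T := ((le_max_left _ _).trans (le_max_left _ _)).trans hT
  have hTb : T2 ≤ T := ((le_max_right _ _).trans (le_max_left _ _)).trans hT
  have hTc : 3 ≤ T := (le_max_right _ _).trans hT
  have hD2 : 2 ≤ DD T := hT2 T hTb
  have hD0 : 0 < DD T := by linarith
  have hTp : 0 < T := by linarith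
  have hTD : T / DD T = Real.log T := by
    unfold DD at hD0 ⊢
    have : Real.log T ≠ 0 := by
      intro h0
      rw [h0] at hD0
      simp at hD0
    field_simp
  have hcT : T1 ≤ c * T := by
    rcases hc with rfl | rfl <;> linarith
  have hc2 : c * T ≤ 2 * T := by
    rcases hc with rfl | rfl <;> linarith
  have hcT0 : 0 < c * T := by linarith
  have h1 := h (c * T) hcT x hx
  have e1 : ((x : ℂ) + ((c * T : ℝ) : ℂ) * I).im = c * T := by simp
  have e2 : ((x : ℂ) + ((c * T : ℝ) : ℂ) * I).re = x := by simp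
  rw [norm_mul, norm_exp_lam lam x (c * T)]
  refine mul_le_mul_of_nonneg_right ?_ (Real.exp_pos _).le
  unfold fz
  rw [mul_assoc, norm_mul]
  refine mul_le_mul ?_ ?_ (norm_nonneg _) (Real.exp_pos _).le
  · rw [ww_norm, e1, e2]
    refine Real.exp_le_exp.2 ?_
    rw [sub_div]
    have hx' := abs_le.1 hx
    have h3 : x ^ 2 / DD T ^ 2 ≤ 1 := by
      rw [div_le_one (by positivity)]
      exact sq_le_sq' (by linarith) (by linarith)
    have h2 : (Real.log T) ^ 2 / 4 ≤ (c * T - T) ^ 2 / DD T ^ 2 := by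
      have e3 : (c * T - T) ^ 2 / DD T ^ 2 = (c - 1) ^ 2 * (T / DD T) ^ 2 := by
        field_simp
      rw [e3, hTD]
      have h4 : 1 / 4 ≤ (c - 1) ^ 2 := by
        rcases hc with rfl | rfl <;> norm_num
      nlinarith [sq_nonneg (Real.log T)]
    linarith
  · refine h1.trans ?_
    have h4 : (c * T) ^ A ≤ (2 * T) ^ A := Real.rpow_le_rpow hcT0.le hc2 hA
    rw [Real.mul_rpow (by norm_num : (0 : ℝ) ≤ 2) hTp.le] at h4
    calc C * (c * T) ^ A ≤ C * (2 ^ A * T ^ A) := mul_le_mul_of_nonneg_left h4 hC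
      _ = _ := by ring

theorem gauss_pow {T A : ℝ} (hT : 0 < T) : Real.exp (1 - (Real.log T) ^ 2 / 4) * T ^ A ≤ Real.exp (1 + A ^ 2) := by
  rw [Real.rpow_def_of_pos hT, ← Real.exp_add]
  refine Real.exp_le_exp.2 ?_
  nlinarith [sq_nonneg (Real.log T / 2 - A)]

set_option maxHeartbeats 1000000 in
/-- **the oscillatory integral with `ζ`** -/
theorem osc_zeta (hm : 1 ≤ m) {κ : Fin m → ℂ} (hκ : CC κ) (Q : ℝ) {σ ε : ℝ} (hσ1 : 1 / 2 ≤ σ) (hσ2 : σ < 1)
    (hε : 0 < ε) (hε1 : ε ≤ 1) :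
    ∃ C T1 : ℝ, 0 ≤ C ∧ ∀ T : ℝ, T1 ≤ T → T ≤ DD T ^ 2 → ∀ lam : ℝ, 0 ≤ lam →
      ‖∫ t in (T / 2)..(2 * T), fz κ Q T (σ + t * I) * cexp (-(lam * t) * I)‖ ≤
        C * T ^ (((m : ℝ) + 1 / 2) * σ - ((m : ℝ) + 1) / 2 + 1 + ε / 2) := by
  obtain ⟨C1, T1, hC1, h1⟩ := rightline hκ Q (σ := 1 + ε) (by linarith)
  obtain ⟨C2, T2, hC2, h2⟩ := leftline hm hκ Q (σ := -ε) (by linarith)
  obtain ⟨C3, A, T3, hC3, hA, hT3, h3⟩ := hbound hκ Q
  have hK := KK_nonneg (c0 κ)
  have hmr : (1 : ℝ) ≤ m := by exact_mod_cast hm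
  set E : ℝ := ((m : ℝ) + 1 / 2) * σ - ((m : ℝ) + 1) / 2 + 1 + ε / 2 with hE
  have hE0 : 0 ≤ E := by
    rw [hE]
    nlinarith
  set M : ℝ := (m : ℝ) + 1 / 2 with hM
  set C4 : ℝ := 4 * (C3 * Real.exp (1 + (A + 2 * M) ^ 2)) with hC4
  refine ⟨C1 + C2 + C4, max (max T1 T2) (max T3 (2 * (2 * KK (c0 κ) + 5) + 1)), by positivity,
    fun T hT hD lam hlam => ?_⟩
  have hTa : T1 ≤ T := ((le_max_left _ _).trans (le_max_left _ _)).trans hT
  have hTb : T2 ≤ T := ((le_max_right _ _).trans (le_max_left _ _)).trans hT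
  have hTc : T3 ≤ T := ((le_max_left _ _).trans (le_max_right _ _)).trans hT
  have hTd : 2 * (2 * KK (c0 κ) + 5) + 1 ≤ T := ((le_max_right _ _).trans (le_max_right _ _)).trans hT
  have hT1 : 1 ≤ T := hT3.trans hTc
  have hTp : 0 < T := by linarith
  have hlog : 0 ≤ Real.log T := Real.log_nonneg hT1
  have hTE : 1 ≤ T ^ E := Real.one_le_rpow hT1 hE0
  have hdiff : ∀ s : ℂ, 2 * KK (c0 κ) + 5 < s.im →
      DifferentiableAt ℂ (fun s => fz κ Q T s * cexp (-(lam * s))) s := fun s hs =>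
    (fz_diff κ Q T hs).mul (by fun_prop)
  -- removing the factor
  have hkey : ‖∫ t in (T / 2)..(2 * T), fz κ Q T (σ + t * I) * cexp (-(lam * t) * I)‖ =
      Real.exp (lam * σ) * ‖∫ t in (T / 2)..(2 * T), fz κ Q T (σ + t * I) * cexp (-(lam * (σ + t * I)))‖ := by
    have e1 : ∀ t : ℝ, fz κ Q T (σ + t * I) * cexp (-(lam * t) * I) =
        cexp (lam * σ) * (fz κ Q T (σ + t * I) * cexp (-(lam * (σ + t * I)))) := by
      intro t
      rw [mul_left_comm, ← Complex.exp_add]
      congr 2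
      ring
    simp_rw [e1]
    rw [intervalIntegral.integral_const_mul, norm_mul, Complex.norm_exp]
    simp
  have hG0 : 0 ≤ Real.exp (1 - (Real.log T) ^ 2 / 4) * (C3 * T ^ A) := by positivity
  -- the horizontal edges
  have hhor : ∀ y : ℝ, y ≤ T ^ (2 * M) → 0 ≤ y →
      4 * (Real.exp (1 - (Real.log T) ^ 2 / 4) * (C3 * T ^ A) * y) ≤ C4 := by
    intro y hy hy0
    have h4 := gauss_pow (A := A + 2 * M) hTp
    rw [Real.rpow_add hTp] at h4
    have h5 : Real.exp (1 - (Real.log T) ^ 2 / 4) * (C3 * T ^ A) * y ≤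
        Real.exp (1 - (Real.log T) ^ 2 / 4) * (C3 * T ^ A) * T ^ (2 * M) := mul_le_mul_of_nonneg_left hy hG0
    have h6 : Real.exp (1 - (Real.log T) ^ 2 / 4) * (C3 * T ^ A) * T ^ (2 * M) =
        C3 * (Real.exp (1 - (Real.log T) ^ 2 / 4) * (T ^ A * T ^ (2 * M))) := by ring
    have h7 := mul_le_mul_of_nonneg_left h4 hC3
    rw [hC4]
    linarith
  have hM0 : 0 < M := by
    rw [hM]
    linarith
  have hC40 : 0 ≤ C4 := by positivity
  have hC4E : C4 ≤ C4 * T ^ E := le_mul_of_one_le_right hC40 hTE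
  rw [hkey]
  rcases le_or_gt (M * Real.log T) lam with hl | hl
  · -- right line
    have hs := shift_seg hdiff (by linarith) (by linarith : 2 * (2 * KK (c0 κ) + 5) < T) σ (1 + ε)
      (B := Real.exp (1 - (Real.log T) ^ 2 / 4) * (C3 * T ^ A) * Real.exp (-(lam * σ))) (fun x hx c hc => by
        rw [uIoc_of_le (by linarith)] at hx
        refine (h3 T hTc x (by rw [abs_le]; constructor <;> linarith [hx.1, hx.2]) c hc lam).trans ?_
        refine mul_le_mul_of_nonneg_left (Real.exp_le_exp.2 ?_) hG0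
        have h17 := mul_le_mul_of_nonneg_left hx.1.le hlam
        linarith)
    have hr := h1 T hTa hD lam
    push_cast at hs hr
    have habs : |1 + ε - σ| ≤ 2 := by
      rw [abs_of_nonneg (by linarith)]
      linarith
    have hcan : Real.exp (lam * σ) * Real.exp (-(lam * σ)) = 1 := by
      rw [← Real.exp_add]
      simp
    have h8 : 2 * (Real.exp (1 - (Real.log T) ^ 2 / 4) * (C3 * T ^ A) * Real.exp (-(lam * σ)) * |1 + ε - σ|) ≤
        4 * (Real.exp (1 - (Real.log T) ^ 2 / 4) * (C3 * T ^ A) * Real.exp (-(lam * σ))) := by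
      have h9 : 0 ≤ Real.exp (1 - (Real.log T) ^ 2 / 4) * (C3 * T ^ A) * Real.exp (-(lam * σ)) := by positivity
      have h17 := mul_le_mul_of_nonneg_left habs h9
      linarith
    have h10 : Real.exp (lam * σ) * (4 * (Real.exp (1 - (Real.log T) ^ 2 / 4) * (C3 * T ^ A) * Real.exp (-(lam * σ)))) ≤
        C4 := by
      have h11 := hhor 1 (Real.one_le_rpow hT1 (by positivity)) (by norm_num)
      calc _ = 4 * (Real.exp (1 - (Real.log T) ^ 2 / 4) * (C3 * T ^ A) * 1) * (Real.exp (lam * σ) * Real.exp (-(lam * σ))) := by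
            ring
        _ ≤ _ := by rw [hcan, mul_one]; exact h11
    have h12 : Real.exp (lam * σ) * (C1 * Real.exp (-(lam * (1 + ε))) * (T ^ (((m : ℝ) + 1) * (1 + ε - 1 / 2)) * √T)) ≤
        C1 * T ^ E := by
      have e4 : Real.exp (lam * σ) * Real.exp (-(lam * (1 + ε))) = Real.exp (-(lam * (1 + ε - σ))) := by
        rw [← Real.exp_add]
        congr 1
        ring
      have h13 : Real.exp (-(lam * (1 + ε - σ))) ≤ T ^ (-(M * (1 + ε - σ))) := by
        rw [Real.rpow_def_of_pos hTp]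
        refine Real.exp_le_exp.2 ?_
        have h17 := mul_le_mul_of_nonneg_right hl (by linarith : 0 ≤ 1 + ε - σ)
        linarith
      have e5 : T ^ E = T ^ (-(M * (1 + ε - σ))) * (T ^ (((m : ℝ) + 1) * (1 + ε - 1 / 2)) * √T) := by
        rw [Real.sqrt_eq_rpow, ← Real.rpow_add hTp, ← Real.rpow_add hTp]
        congr 1
        rw [hE, hM]
        ring
      rw [e5]
      calc _ = C1 * (Real.exp (lam * σ) * Real.exp (-(lam * (1 + ε))) * (T ^ (((m : ℝ) + 1) * (1 + ε - 1 / 2)) * √T)) := by ring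
        _ ≤ _ := by
          rw [e4]
          exact mul_le_mul_of_nonneg_left (mul_le_mul_of_nonneg_right h13 (by positivity)) hC1
    have h14 := mul_le_mul_of_nonneg_left (hs.trans (add_le_add hr h8)) (Real.exp_pos (lam * σ)).le
    rw [mul_add] at h14
    have h15 : 0 ≤ C2 * T ^ E := by positivity
    linarith
  · -- left line
    have hle : lam ≤ M * Real.log T := hl.le
    have hs := shift_seg hdiff (by linarith) (by linarith : 2 * (2 * KK (c0 κ) + 5) < T) σ (-ε)
      (B := Real.exp (1 - (Real.log T) ^ 2 / 4) * (C3 * T ^ A) * Real.exp (lam * ε)) (fun x hx c hc => by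
        rw [uIoc_of_ge (by linarith)] at hx
        refine (h3 T hTc x (by rw [abs_le]; constructor <;> linarith [hx.1, hx.2]) c hc lam).trans ?_
        refine mul_le_mul_of_nonneg_left (Real.exp_le_exp.2 ?_) hG0
        have h17 := mul_le_mul_of_nonneg_left hx.1.le hlam
        linarith)
    have hr := h2 T hTb hD lam
    push_cast at hs hr
    have habs : |-ε - σ| ≤ 2 := by
      rw [abs_le]
      constructor <;> linarith
    have h8 : 2 * (Real.exp (1 - (Real.log T) ^ 2 / 4) * (C3 * T ^ A) * Real.exp (lam * ε) * |-ε - σ|) ≤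
        4 * (Real.exp (1 - (Real.log T) ^ 2 / 4) * (C3 * T ^ A) * Real.exp (lam * ε)) := by
      have h9 : 0 ≤ Real.exp (1 - (Real.log T) ^ 2 / 4) * (C3 * T ^ A) * Real.exp (lam * ε) := by positivity
      have h17 := mul_le_mul_of_nonneg_left habs h9
      linarith
    have e4 : Real.exp (lam * σ) * Real.exp (lam * ε) = Real.exp (lam * (σ + ε)) := by
      rw [← Real.exp_add]
      congr 1
      ring
    have h13 : Real.exp (lam * (σ + ε)) ≤ T ^ (M * (σ + ε)) := by
      rw [Real.rpow_def_of_pos hTp]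
      refine Real.exp_le_exp.2 ?_
      have h17 := mul_le_mul_of_nonneg_right hle (by linarith : 0 ≤ σ + ε)
      linarith
    have h10 : Real.exp (lam * σ) * (4 * (Real.exp (1 - (Real.log T) ^ 2 / 4) * (C3 * T ^ A) * Real.exp (lam * ε))) ≤
        C4 := by
      have h16 : Real.exp (lam * (σ + ε)) ≤ T ^ (2 * M) := by
        refine h13.trans (Real.rpow_le_rpow_of_exponent_le hT1 ?_)
        have h17 := mul_le_mul_of_nonneg_left (by linarith : σ + ε ≤ 2) hM0.le
        linarith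
      have h11 := hhor _ h16 (Real.exp_pos _).le
      calc _ = 4 * (Real.exp (1 - (Real.log T) ^ 2 / 4) * (C3 * T ^ A) * (Real.exp (lam * σ) * Real.exp (lam * ε))) := by
            ring
        _ ≤ _ := by rw [e4]; exact h11
    have h12 : Real.exp (lam * σ) * (C2 * Real.exp (-(lam * (-ε))) * (T ^ ((m : ℝ) * (-ε - 1 / 2)) * √T)) ≤
        C2 * T ^ E := by
      have e5 : T ^ E = T ^ (M * (σ + ε)) * (T ^ ((m : ℝ) * (-ε - 1 / 2)) * √T) := by
        rw [Real.sqrt_eq_rpow, ← Real.rpow_add hTp, ← Real.rpow_add hTp]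
        congr 1
        rw [hE, hM]
        ring
      rw [e5]
      calc _ = C2 * (Real.exp (lam * σ) * Real.exp (lam * ε) * (T ^ ((m : ℝ) * (-ε - 1 / 2)) * √T)) := by
            rw [mul_neg, neg_neg]
            ring
        _ ≤ _ := by
          rw [e4]
          exact mul_le_mul_of_nonneg_left (mul_le_mul_of_nonneg_right h13 (by positivity)) hC2
    have h14 := mul_le_mul_of_nonneg_left (hs.trans (add_le_add hr h8)) (Real.exp_pos (lam * σ)).le
    rw [mul_add] at h14
    have h15 : 0 ≤ C1 * T ^ E := by positivity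
    linarith

end Pool.Agent.TH949.RES
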