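import Pool.Agent.TH949.RES.Main
import Pool.Agent.TH949.RES.OscZ2

/-! The resonance theorem with `ζ`. -/

set_option autoImplicit false

namespace Pool.Agent.TH949.RES

open Filter Topology Complex MeasureTheory Set
open Pool.Agent.W189.TP (DS norm_term DS_norm_le)

section
variable {X : Type*} [Countable X] {d L : X → ℝ}

/-- powers of the Dirichlet series -/
theorem pow_bound' (hL : ∀ x, 0 ≤ L x) {a b : ℝ} (hab : a ≤ b) {σ B : ℝ} {W : ℝ → ℂ} (hW : ContinuousOn W (Icc a b))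
    (hB : ∀ lam : ℝ, 0 ≤ lam → ‖∫ t in a..b, W t * cexp (-(lam * t) * I)‖ ≤ B)
    (hs : Summable fun i => |d i| * Real.exp (-(σ * L i))) (k : ℕ) : ∀ lam : ℝ, 0 ≤ lam →
    ‖∫ t in a..b, W t * DS d L (σ + t * I) ^ k * cexp (-(lam * t) * I)‖ ≤
      (∑' i, |d i| * Real.exp (-(σ * L i))) ^ k * B := by
  induction k with
  | zero =>
    intro lam hlam
    simpa using hB lam hlam
  | succ k ih =>
    intro lam hlam
    set A := ∑' i, |d i| * Real.exp (-(σ * L i)) with hA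
    have hDc := DS_line_cont hs
    set V : ℝ → ℂ := fun t => W t * DS d L (σ + t * I) ^ k with hV
    have hVc : ContinuousOn V (Icc a b) := hW.mul (hDc.continuousOn.pow k)
    obtain ⟨C, hC⟩ := isCompact_Icc.exists_bound_of_continuousOn hVc
    set F : X → ℝ → ℂ := fun x t => ((d x : ℂ) * cexp (-(σ * L x))) *
      (V t * cexp (-(((lam + L x : ℝ) : ℂ) * t) * I)) with hF
    have hnd : ∀ x, ‖(d x : ℂ) * cexp (-(σ * L x))‖ = |d x| * Real.exp (-(σ * L x)) := by
      intro x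
      have := norm_term d L (σ : ℂ) x
      simpa using this
    have hne : ∀ (y : ℝ) (t : ℝ), ‖cexp (-((y : ℂ) * t) * I)‖ = 1 := by
      intro y t
      rw [Complex.norm_exp]
      simp
    have h1 := hs_int (ι := X) hab (F := F)
      (f := fun t => W t * DS d L (σ + t * I) ^ (k + 1) * cexp (-(lam * t) * I))
      (c := fun x => (|d x| * Real.exp (-(σ * L x))) * C)
      (fun x => by
        refine continuousOn_const.mul (hVc.mul ?_)
        fun_prop) (hs.mul_right C) (fun x t ht => by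
        rw [hF]
        simp only
        rw [norm_mul, hnd, norm_mul, hne, mul_one]
        exact mul_le_mul_of_nonneg_left (hC t ht) (by positivity)) (fun t ht => by
        have h2 : Summable fun x => (d x : ℂ) * cexp (-((σ + t * I) * L x)) := by
          refine Summable.of_norm (hs.congr fun x => ?_)
          rw [norm_term]
          simp
        have h3 := h2.hasSum.mul_left (V t * cexp (-(lam * t) * I))
        have e1 : V t * cexp (-(lam * t) * I) * ∑' x, (d x : ℂ) * cexp (-((σ + t * I) * L x)) =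
            W t * DS d L (σ + t * I) ^ (k + 1) * cexp (-(lam * t) * I) := by
          rw [hV, pow_succ]
          simp only
          have : ∑' x, (d x : ℂ) * cexp (-((σ + t * I) * L x)) = DS d L (σ + t * I) := rfl
          rw [this]
          ring
        rw [e1] at h3
        refine h3.congr_fun fun x => ?_
        rw [hF]
        simp only
        rw [term_line σ t x]
        have e2 : cexp (-(((lam + L x : ℝ) : ℂ) * t) * I) = cexp (-(lam * t) * I) * cexp (-(L x * t) * I) := by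
          rw [← Complex.exp_add]
          congr 1
          push_cast
          ring
        rw [e2]
        ring)
    rw [← h1.tsum_eq]
    have h4 : ∀ x, ‖∫ t in a..b, F x t‖ ≤ (|d x| * Real.exp (-(σ * L x))) * (A ^ k * B) := by
      intro x
      rw [hF]
      simp only
      rw [intervalIntegral.integral_const_mul, norm_mul, hnd]
      refine mul_le_mul_of_nonneg_left ?_ (by positivity)
      have := ih (lam + L x) (add_nonneg hlam (hL x))
      simpa [hV] using this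
    refine (tsum_of_norm_bounded (hs.mul_right (A ^ k * B)).hasSum h4).trans (le_of_eq ?_)
    rw [tsum_mul_right]
    ring

/-- the exponential of the Dirichlet series -/
theorem exp_bound' (hL : ∀ x, 0 ≤ L x) {a b : ℝ} (hab : a ≤ b) {σ B : ℝ} {W : ℝ → ℂ} (hW : ContinuousOn W (Icc a b))
    (hB : ∀ lam : ℝ, 0 ≤ lam → ‖∫ t in a..b, W t * cexp (-(lam * t) * I)‖ ≤ B)
    (hs : Summable fun i => |d i| * Real.exp (-(σ * L i))) (lam : ℝ) (hlam : 0 ≤ lam) :
    ‖∫ t in a..b, W t * cexp (DS d L (σ + t * I)) * cexp (-(lam * t) * I)‖ ≤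
      Real.exp (∑' i, |d i| * Real.exp (-(σ * L i))) * B := by
  set A := ∑' i, |d i| * Real.exp (-(σ * L i)) with hA
  have hDc := DS_line_cont hs
  obtain ⟨C, hC⟩ := isCompact_Icc.exists_bound_of_continuousOn hW
  have hne : ∀ (y : ℝ) (t : ℝ), ‖cexp (-((y : ℂ) * t) * I)‖ = 1 := by
    intro y t
    rw [Complex.norm_exp]
    simp
  have hA' : ∀ t : ℝ, ‖DS d L (σ + t * I)‖ ≤ A := by
    intro t
    have h1 := Pool.Agent.W189.TP.DS_norm_le (d := d) (L := L) (s := σ + t * I) (by simpa using hs)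
    simpa using h1
  have hAsum : HasSum (fun k : ℕ => A ^ k / (k.factorial : ℝ)) (Real.exp A) := by
    rw [Real.exp_eq_exp_ℝ]
    exact NormedSpace.expSeries_div_hasSum_exp A
  have h1 := hs_int (ι := ℕ) hab
    (F := fun k t => ((k.factorial : ℂ)⁻¹) * (W t * DS d L (σ + t * I) ^ k * cexp (-(lam * t) * I)))
    (f := fun t => W t * cexp (DS d L (σ + t * I)) * cexp (-(lam * t) * I))
    (c := fun k => C * (A ^ k / (k.factorial : ℝ)))
    (fun k => continuousOn_const.mul ((hW.mul (hDc.continuousOn.pow k)).mul (by fun_prop)))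
    (hAsum.summable.mul_left C) (fun k t ht => by
      have hC0 : 0 ≤ C := (norm_nonneg _).trans (hC t ht)
      rw [norm_mul, norm_mul, norm_mul, hne, mul_one, norm_inv, norm_pow, Complex.norm_natCast]
      have h2 := pow_le_pow_left₀ (norm_nonneg _) (hA' t) k
      have h3 := mul_le_mul (hC t ht) h2 (by positivity) hC0
      calc _ ≤ ((k.factorial : ℝ)⁻¹) * (C * A ^ k) := mul_le_mul_of_nonneg_left h3 (by positivity)
        _ = _ := by ring) (fun t ht => by
      have h2 : HasSum (fun k : ℕ => DS d L (σ + t * I) ^ k / (k.factorial : ℂ)) (cexp (DS d L (σ + t * I))) := by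
        rw [Complex.exp_eq_exp_ℂ]
        exact NormedSpace.expSeries_div_hasSum_exp _
      have h3 := h2.mul_left (W t * cexp (-(lam * t) * I))
      have e1 : W t * cexp (-(lam * t) * I) * cexp (DS d L (σ + t * I)) =
          W t * cexp (DS d L (σ + t * I)) * cexp (-(lam * t) * I) := by ring
      rw [e1] at h3
      refine h3.congr_fun fun k => ?_
      ring)
  rw [← h1.tsum_eq]
  have h4 : ∀ k : ℕ, ‖∫ t in a..b, ((k.factorial : ℂ)⁻¹) *
      (W t * DS d L (σ + t * I) ^ k * cexp (-(lam * t) * I))‖ ≤ A ^ k / (k.factorial : ℝ) * B := by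
    intro k
    rw [intervalIntegral.integral_const_mul, norm_mul, norm_inv, Complex.norm_natCast]
    calc _ ≤ ((k.factorial : ℝ)⁻¹) * (A ^ k * B) :=
          mul_le_mul_of_nonneg_left (pow_bound' hL hab hW hB hs k lam hlam) (by positivity)
      _ = _ := by ring
  refine (tsum_of_norm_bounded (hAsum.mul_right B) h4).trans (le_of_eq rfl)

end


variable {X Y : Type*} {d L : X → ℝ} {d0 L0 : Y → ℝ} {m : ℕ}

/-- the empty family -/
def nb : Fin 0 → ℂ := fun _ => 0

/-- the empty family -/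
def nq : Fin 0 → ℝ := fun _ => 2

theorem bf_nb (s : ℂ) : bf nb nq s = 1 := by simp [bf]

theorem el_nb : el nb nq = 0 := by simp [el]

theorem p0_nb : p0 nb = 1 := by simp [p0]

theorem ker_nb (G : ℂ → ℂ) (s : ℂ) : ker nb nq G s = G (1 - s) := by
  unfold ker
  rw [bf_nb, el_nb]
  simp

theorem ker_right' {κ : Fin m → ℂ} {Q : ℝ} {G : ℂ → ℂ} {T0 : ℝ} {ω : ℂ} (hω : ω ≠ 0)
    (hT0 : 2 * KK κ + 5 ≤ T0)
    (hfe : ∀ s : ℂ, T0 < |s.im| → G s * GF κ Q s = ω * (G (1 - s) * GF κ Q (1 - s)))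
    {s : ℂ} (hs2 : T0 < s.im) : G (1 - s) = ω⁻¹ * (YY κ Q s * G s) := by
  have hK := KK_nonneg κ
  have hT : 0 < s.im := by linarith
  have h1 := hfe s (by rwa [abs_of_pos hT])
  rw [GF_quot (by linarith)] at h1
  have h2 : GF κ Q (1 - s) ≠ 0 := by
    unfold GF
    refine mul_ne_zero (Complex.exp_ne_zero _) ?_
    rw [Finset.prod_ne_zero_iff]
    intro j _
    refine gr_ne0 ?_
    have := im2 (κ := κ) (s := s) (by linarith) j
    intro h
    linarith
  have h3 : G s * YY κ Q s = ω * G (1 - s) := by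
    apply mul_right_cancel₀ h2
    linear_combination h1
  rw [mul_comm (YY κ Q s), h3]
  field_simp

theorem right_boundZ [Countable X] (hm : 1 ≤ m) {κ : Fin m → ℂ} (hκ : CC κ)
    {Q : ℝ} {σ ε : ℝ} (hσ : 1 / 2 ≤ σ) (hσ2 : σ < 1) (hε : 0 < ε) (hε1 : ε ≤ 1) (hL : ∀ x, 0 ≤ L x)
    (hs : Summable fun i => |d i| * Real.exp (-(σ * L i)))
    {G : ℂ → ℂ} {T0 : ℝ} {ω : ℂ} (hω : ω ≠ 0) (hT0 : 2 * KK (c0 κ) + 5 ≤ T0)
    (hid : ∀ s : ℂ, σ ≤ s.re → T0 < |s.im| → G s = riemannZeta s * cexp (DS d L s))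
    (hfe : ∀ s : ℂ, T0 < |s.im| → G s * GF (c0 κ) Q s = ω * (G (1 - s) * GF (c0 κ) Q (1 - s))) :
    ∃ C T1 : ℝ, 0 ≤ C ∧ ∀ T : ℝ, T1 ≤ T → T ≤ DD T ^ 2 →
      ‖∫ t in (T / 2)..(2 * T), ww T (DD T) (σ + t * I) * ker nb nq G (σ + t * I)‖ ≤
        C * T ^ (((m : ℝ) + 1 / 2) * σ - ((m : ℝ) + 1) / 2 + 1 + ε / 2) := by
  obtain ⟨C, T1, hC, h⟩ := osc_zeta hm hκ Q hσ hσ2 hε hε1
  have hK := KK_nonneg (c0 κ)
  refine ⟨‖ω⁻¹‖ * (Real.exp (∑' i, |d i| * Real.exp (-(σ * L i))) * C),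
    max T1 (2 * T0 + 1), by positivity, fun T hT hD => ?_⟩
  have hT1' : T1 ≤ T := (le_max_left _ _).trans hT
  have hT2 : 2 * T0 + 1 ≤ T := (le_max_right _ _).trans hT
  have hab : T / 2 ≤ 2 * T := by linarith
  have hW : ContinuousOn (fun t : ℝ => fz κ Q T (σ + t * I)) (Icc (T / 2) (2 * T)) := by
    intro t ht
    have e1 : ((σ : ℂ) + t * I).im = t := by simp
    have h4 := (fz_diff κ Q T (s := σ + t * I) (by rw [e1]; linarith [ht.1])).continuousAt
    exact (ContinuousAt.comp (f := fun t : ℝ => (σ : ℂ) + t * I) h4 (by fun_prop)).continuousWithinAt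
  have h1 := exp_bound' (d := d) (L := L) hL hab (σ := σ)
    (B := C * T ^ (((m : ℝ) + 1 / 2) * σ - ((m : ℝ) + 1) / 2 + 1 + ε / 2)) hW
    (fun lam hlam => h T hT1' hD lam hlam) hs 0 le_rfl
  have e : ∫ t in (T / 2)..(2 * T), ww T (DD T) (σ + t * I) * ker nb nq G (σ + t * I) =
      ω⁻¹ * ∫ t in (T / 2)..(2 * T), fz κ Q T (σ + t * I) *
        cexp (DS d L (σ + t * I)) * cexp (-(((0 : ℝ) : ℂ) * t) * I) := by
    rw [← intervalIntegral.integral_const_mul]
    refine intervalIntegral.integral_congr fun t ht => ?_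
    rw [uIcc_of_le hab] at ht
    have e1 : ((σ : ℂ) + t * I).im = t := by simp
    have e2 : ((σ : ℂ) + t * I).re = σ := by simp
    have h2 : T0 < t := by linarith [ht.1]
    rw [ker_nb, ker_right' hω hT0 hfe (by rw [e1]; exact h2),
      hid (σ + t * I) (by rw [e2]) (by rw [e1, abs_of_pos (by linarith)]; exact h2)]
    unfold fz
    simp
    ring
  rw [e, norm_mul, mul_assoc]
  exact mul_le_mul_of_nonneg_left (h1.trans (le_of_eq (by ring))) (norm_nonneg _)

/-- **The resonance theorem with `ζ`.** -/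
theorem resonanceZ [Countable X] (hm : 1 ≤ m) {κ : Fin m → ℂ} (hκ : CC κ) {Q : ℝ} {σ : ℝ}
    (hL : ∀ x, 0 ≤ L x) (hs : Summable fun i => |d i| * Real.exp (-(σ * L i)))
    {σ0 a : ℝ} (ha : 0 < a) (hL0 : ∀ x, a ≤ L0 x) (hs0 : Summable fun i => |d0 i| * Real.exp (-(σ0 * L0 i)))
    {G : ℂ → ℂ} {T0 : ℝ} {ω : ℂ} (hω : ω ≠ 0)
    (hid0 : ∀ s : ℂ, σ0 ≤ s.re → T0 < |s.im| → G s = cexp (DS d0 L0 s))
    (hid : ∀ s : ℂ, σ ≤ s.re → T0 < |s.im| → G s = riemannZeta s * cexp (DS d L s))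
    (hgr : ∀ b c : ℝ, ∃ C A : ℝ, ∀ s : ℂ, b ≤ s.re → s.re ≤ c → T0 < |s.im| → ‖G s‖ ≤ C * |s.im| ^ A)
    (hG : ∀ s : ℂ, T0 < |s.im| → DifferentiableAt ℂ G s)
    (hfe : ∀ s : ℂ, T0 < |s.im| → G s * GF (c0 κ) Q s = ω * (G (1 - s) * GF (c0 κ) Q (1 - s))) :
    ((m : ℝ) + 1) / (2 * (m : ℝ) + 1) ≤ σ := by
  by_contra hcon
  push Not at hcon
  have hmr : (1 : ℝ) ≤ m := by exact_mod_cast hm
  have hq1 : ((m : ℝ) + 1) / (2 * (m : ℝ) + 1) < 1 := by
    rw [div_lt_one (by positivity)]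
    linarith
  have hq2 : 1 / 2 < ((m : ℝ) + 1) / (2 * (m : ℝ) + 1) := by
    rw [div_lt_div_iff₀ (by norm_num) (by positivity)]
    linarith
  -- reductions
  set σ' : ℝ := max σ (1 / 2) with hσ'
  have hσσ : σ ≤ σ' := le_max_left _ _
  have hσ1 : 1 / 2 ≤ σ' := le_max_right _ _
  have hlt : σ' < ((m : ℝ) + 1) / (2 * (m : ℝ) + 1) := max_lt hcon hq2
  have hle1 : σ' < 1 := hlt.trans hq1
  have hs' := Pool.Agent.W189.TP.summ_mono hL hσσ hs
  set σ1 : ℝ := max σ0 1 with hσ1d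
  have hσ01 : σ0 ≤ σ1 := le_max_left _ _
  have hσ11 : 1 ≤ σ1 := le_max_right _ _
  have hL00 : ∀ x, 0 ≤ L0 x := fun x => ha.le.trans (hL0 x)
  have hs0' := Pool.Agent.W189.TP.summ_mono hL00 hσ01 hs0
  have hK := KK_nonneg (c0 κ)
  set T1 : ℝ := max T0 (2 * KK (c0 κ) + 5) with hT1
  have hT01 : T0 ≤ T1 := le_max_left _ _
  have hT11 : 2 * KK (c0 κ) + 5 ≤ T1 := le_max_right _ _
  have hT1pos : 1 ≤ T1 := by linarith
  have hid' : ∀ s : ℂ, σ' ≤ s.re → T1 < |s.im| → G s = riemannZeta s * cexp (DS d L s) := fun s h1 h2 =>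
    hid s (hσσ.trans h1) (hT01.trans_lt h2)
  have hid0' : ∀ s : ℂ, σ1 ≤ s.re → T1 < |s.im| → G s * bf nb nq s = cexp (DS d0 L0 s) := fun s h1 h2 => by
    rw [bf_nb, mul_one]
    exact hid0 s (hσ01.trans h1) (hT01.trans_lt h2)
  have hgr' : ∀ b c : ℝ, ∃ C A : ℝ, ∀ s : ℂ, b ≤ s.re → s.re ≤ c → T1 < |s.im| → ‖G s‖ ≤ C * |s.im| ^ A := by
    intro b c
    obtain ⟨C, A, h⟩ := hgr b c
    exact ⟨C, A, fun s h1 h2 h3 => h s h1 h2 (hT01.trans_lt h3)⟩
  have hnq : ∀ j, 1 < nq j := fun j => j.elim0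
  have hkd : ∀ s : ℂ, T1 < |s.im| → DifferentiableAt ℂ (ker nb nq G) s := by
    intro s hs
    have e : ker nb nq G = fun s => G (1 - s) := funext fun s => ker_nb G s
    rw [e]
    have h2 : DifferentiableAt ℂ G (1 - s) := hG _ (by
      simp only [Complex.sub_im, Complex.one_im, zero_sub, abs_neg]
      exact hT01.trans_lt hs)
    exact DifferentiableAt.comp s h2 (by fun_prop)
  -- choice of `ε`
  obtain ⟨ε, hε, hε1, hεx⟩ : ∃ ε : ℝ, 0 < ε ∧ ε ≤ 1 ∧
      ((m : ℝ) + 1 / 2) * σ' - ((m : ℝ) + 1) / 2 + 1 + ε / 2 < 1 := by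
    have h1 : ((m : ℝ) + 1 / 2) * σ' < ((m : ℝ) + 1) / 2 := by
      rw [lt_div_iff₀ (by positivity)] at hlt
      linarith
    refine ⟨min 1 (((m : ℝ) + 1) / 2 - ((m : ℝ) + 1 / 2) * σ'), lt_min one_pos (by linarith), min_le_left _ _, ?_⟩
    have := min_le_right 1 (((m : ℝ) + 1) / 2 - ((m : ℝ) + 1 / 2) * σ')
    linarith
  obtain ⟨Cr, Tr, hCr, hr⟩ := right_boundZ (d := d) (L := L) (Q := Q) hm hκ hσ1 hle1 hε hε1 hL hs' hω hT11 hid'
    (fun s h => hfe s (hT01.trans_lt h))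
  obtain ⟨Ck, Ak, hCk, hAk, hk⟩ := ker_growth ha hL0 hs0' hnq hT1pos hid0' hgr'
  have hk' : ∀ s : ℂ, s.re ≤ σ' → T1 < |s.im| → ‖ker nb nq G s‖ ≤ Ck * |s.im| ^ Ak := fun s h1 h2 =>
    hk s (h1.trans (hle1.le.trans hσ11)) h2
  have htop := horiz (by linarith) hle1.le hCk hAk hk' (c := 2) (by norm_num) le_rfl (by norm_num)
  have hbot := horiz (by linarith) hle1.le hCk hAk hk' (c := 1 / 2) (by norm_num) (by norm_num) (by norm_num)
  have hleft := left_bound ha hL0 hs0' hnq (by linarith : 0 < T1) hid0' hkd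
  rw [p0_nb, norm_one] at hleft
  -- comparison of powers of `T`
  set x : ℝ := ((m : ℝ) + 1 / 2) * σ' - ((m : ℝ) + 1) / 2 + 1 + ε / 2 with hx
  have hlo : Tendsto (fun T : ℝ => Real.log T * (Cr * T ^ (x - 1) + 2 * T⁻¹)) atTop (𝓝 0) := by
    have h1 : Tendsto (fun T : ℝ => Real.log T / T ^ (1 - x)) atTop (𝓝 0) :=
      (isLittleO_log_rpow_atTop (by linarith)).tendsto_div_nhds_zero
    have h2 : Tendsto (fun T : ℝ => Real.log T / T ^ (1 : ℝ)) atTop (𝓝 0) :=
      (isLittleO_log_rpow_atTop one_pos).tendsto_div_nhds_zero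
    have h3 := (h1.const_mul Cr).add (h2.const_mul 2)
    rw [mul_zero, mul_zero, add_zero] at h3
    refine h3.congr' ?_
    filter_upwards [eventually_gt_atTop 0] with T hT
    rw [Real.rpow_one, show x - 1 = -(1 - x) by ring, Real.rpow_neg hT.le]
    ring
  have hDsq : ∀ᶠ T : ℝ in atTop, T ≤ DD T ^ 2 := by
    have h1 : Tendsto (fun T : ℝ => Real.log T / T ^ (1 / 2 : ℝ)) atTop (𝓝 0) :=
      (isLittleO_log_rpow_atTop (by norm_num)).tendsto_div_nhds_zero
    filter_upwards [h1.eventually (gt_mem_nhds one_pos), eventually_gt_atTop 1] with T h2 h3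
    have hT : 0 < T := by linarith
    have hlog := Real.log_pos h3
    rw [div_lt_one (by positivity), ← Real.sqrt_eq_rpow] at h2
    unfold DD
    rw [div_pow, le_div_iff₀ (by positivity)]
    have h4 : Real.log T ^ 2 ≤ T := by
      have := pow_le_pow_left₀ hlog.le h2.le 2
      rwa [Real.sq_sqrt hT.le] at this
    nlinarith
  have hfinal := ((((hlo.eventually (gt_mem_nhds one_pos)).and hDsq).and hleft).and
    ((htop.norm.eventually (gt_mem_nhds (by rw [norm_zero]; exact one_pos))).and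
      (hbot.norm.eventually (gt_mem_nhds (by rw [norm_zero]; exact one_pos))))).and
      ((eventually_gt_atTop (2 * T1)).and (eventually_ge_atTop Tr))
  obtain ⟨T, ⟨⟨⟨h1, h2⟩, h3⟩, ⟨h4, h5⟩⟩, ⟨h6, h7⟩⟩ := hfinal.exists
  have hT : 1 < T := by linarith
  have hT0' : 0 < T := by linarith
  have hlog := Real.log_pos hT
  have hrect := rect (σ := σ') (k := ker nb nq G) (by linarith : 0 < T1) (fun s hs => hkd s (by
    rwa [abs_of_pos (by linarith)])) h6
  have hr' := hr T h7 h2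
  set R := ∫ t in (T / 2)..(2 * T), ww T (DD T) (σ' + t * I) * ker nb nq G (σ' + t * I) with hR
  set Lf := ∫ t in (T / 2)..(2 * T), ww T (DD T) (((-DD T : ℝ) : ℂ) + t * I) * ker nb nq G (((-DD T : ℝ) : ℂ) + t * I) with hLf
  set tp := ∫ x in (-DD T)..σ', ww T (DD T) (x + ((2 * T : ℝ) : ℂ) * I) * ker nb nq G (x + ((2 * T : ℝ) : ℂ) * I) with htp
  set bt := ∫ x in (-DD T)..σ', ww T (DD T) (x + ((1 / 2 * T : ℝ) : ℂ) * I) * ker nb nq G (x + ((1 / 2 * T : ℝ) : ℂ) * I) with hbt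
  have h8 : I * Lf = I * R - tp + bt := by linear_combination -hrect
  have h9 := congrArg norm h8
  rw [norm_mul, Complex.norm_I, one_mul] at h9
  have h10 : ‖Lf‖ ≤ ‖R‖ + 1 + 1 := by
    rw [h9]
    refine (norm_add_le _ _).trans (add_le_add ((norm_sub_le _ _).trans (add_le_add ?_ h4.le)) h5.le)
    rw [norm_mul, Complex.norm_I, one_mul]
  have h11 : 1 * DD T ≤ Cr * T ^ x + 2 := by linarith
  have h12 : T ^ x = T ^ (x - 1) * T := by
    nth_rewrite 3 [← Real.rpow_one T]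
    rw [← Real.rpow_add hT0']
    congr 1
    ring
  rw [h12] at h11
  have h13 : 1 * DD T * Real.log T = 1 * T := by
    unfold DD
    field_simp
  have h14 : 1 * T ≤ Real.log T * (Cr * T ^ (x - 1) + 2 * T⁻¹) * T := by
    rw [← h13]
    calc _ ≤ (Cr * (T ^ (x - 1) * T) + 2) * Real.log T := mul_le_mul_of_nonneg_right h11 hlog.le
      _ = _ := by
        field_simp
  have h15 := le_of_mul_le_mul_right h14 hT0'
  linarith

end Pool.Agent.TH949.RES
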