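import Pool.Agent.TH949.RES.MainZ

/-! The resonance theorem with `ζ` and finite Euler factors. -/

set_option autoImplicit false

namespace Pool.Agent.TH949.RES

open Filter Topology Complex MeasureTheory Set
open Pool.Agent.W189.TP (DS norm_term DS_norm_le)

variable {X Y : Type*} {d L : X → ℝ} {d0 L0 : Y → ℝ} {m : ℕ} {J : Type*} [Fintype J]

theorem right_boundZB [Countable X] (hm : 1 ≤ m) {κ : Fin m → ℂ} (hκ : CC κ)
    {Q : ℝ} {σ ε : ℝ} (hσ : 1 / 2 ≤ σ) (hσ2 : σ < 1) (hε : 0 < ε) (hε1 : ε ≤ 1) (hL : ∀ x, 0 ≤ L x)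
    (hs : Summable fun i => |d i| * Real.exp (-(σ * L i)))
    {β : J → ℂ} {q : J → ℝ} (hQ : 0 < Q)
    {G : ℂ → ℂ} {T0 : ℝ} {ω : ℂ} (hω : ω ≠ 0) (hT0 : 2 * KK (c0 κ) + 5 ≤ T0)
    (hid : ∀ s : ℂ, σ ≤ s.re → T0 < |s.im| → G s * bf β q s = riemannZeta s * cexp (DS d L s))
    (hfe : ∀ s : ℂ, T0 < |s.im| → G s * GF (c0 κ) Q s = ω * (G (1 - s) * GF (c0 κ) Q (1 - s))) :
    ∃ C T1 : ℝ, 0 ≤ C ∧ ∀ T : ℝ, T1 ≤ T → T ≤ DD T ^ 2 →
      ‖∫ t in (T / 2)..(2 * T), ww T (DD T) (σ + t * I) * ker β q G (σ + t * I)‖ ≤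
        C * T ^ (((m : ℝ) + 1 / 2) * σ - ((m : ℝ) + 1) / 2 + 1 + ε / 2) := by
  set Q' : ℝ := Q * Real.exp (el β q / 2) with hQ'
  have hlogQ : Real.log Q' = Real.log Q + el β q / 2 := by
    rw [hQ', Real.log_mul hQ.ne' (Real.exp_pos _).ne', Real.log_exp]
  have hYY : ∀ s : ℂ, cexp (s * el β q) * YY (c0 κ) Q s = cexp ((el β q / 2 : ℝ) : ℂ) * YY (c0 κ) Q' s := by
    intro s
    unfold YY
    rw [← mul_assoc, ← mul_assoc, ← Complex.exp_add, ← Complex.exp_add, hlogQ]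
    congr 2
    push_cast
    ring
  obtain ⟨C, T1, hC, h⟩ := osc_zeta hm hκ Q' hσ hσ2 hε hε1
  have hK := KK_nonneg (c0 κ)
  refine ⟨‖ω⁻¹ * cexp ((el β q / 2 : ℝ) : ℂ)‖ * (Real.exp (∑' i, |d i| * Real.exp (-(σ * L i))) * C),
    max T1 (2 * T0 + 1), by positivity, fun T hT hD => ?_⟩
  have hT1' : T1 ≤ T := (le_max_left _ _).trans hT
  have hT2 : 2 * T0 + 1 ≤ T := (le_max_right _ _).trans hT
  have hab : T / 2 ≤ 2 * T := by linarith
  have hW : ContinuousOn (fun t : ℝ => fz κ Q' T (σ + t * I)) (Icc (T / 2) (2 * T)) := by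
    intro t ht
    have e1 : ((σ : ℂ) + t * I).im = t := by simp
    have h4 := (fz_diff κ Q' T (s := σ + t * I) (by rw [e1]; linarith [ht.1])).continuousAt
    exact (ContinuousAt.comp (f := fun t : ℝ => (σ : ℂ) + t * I) h4 (by fun_prop)).continuousWithinAt
  have h1 := exp_bound' (d := d) (L := L) hL hab (σ := σ)
    (B := C * T ^ (((m : ℝ) + 1 / 2) * σ - ((m : ℝ) + 1) / 2 + 1 + ε / 2)) hW
    (fun lam hlam => h T hT1' hD lam hlam) hs 0 le_rfl
  have e : ∫ t in (T / 2)..(2 * T), ww T (DD T) (σ + t * I) * ker β q G (σ + t * I) =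
      (ω⁻¹ * cexp ((el β q / 2 : ℝ) : ℂ)) * ∫ t in (T / 2)..(2 * T), fz κ Q' T (σ + t * I) *
        cexp (DS d L (σ + t * I)) * cexp (-(((0 : ℝ) : ℂ) * t) * I) := by
    rw [← intervalIntegral.integral_const_mul]
    refine intervalIntegral.integral_congr fun t ht => ?_
    rw [uIcc_of_le hab] at ht
    have e1 : ((σ : ℂ) + t * I).im = t := by simp
    have e2 : ((σ : ℂ) + t * I).re = σ := by simp
    have h2 : T0 < t := by linarith [ht.1]
    have h3 := ker_right' hω hT0 hfe (s := σ + t * I) (by rw [e1]; exact h2)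
    have h4 := hid (σ + t * I) (by rw [e2]) (by rw [e1, abs_of_pos (by linarith)]; exact h2)
    have h5 := hYY (σ + t * I)
    unfold ker fz
    rw [h3]
    simp only [Complex.ofReal_zero, zero_mul, neg_zero, Complex.exp_zero, mul_one]
    linear_combination (ww T (DD T) (σ + t * I) * ω⁻¹ * cexp ((σ + t * I) * el β q) * YY (c0 κ) Q (σ + t * I)) * h4 +
      (ww T (DD T) (σ + t * I) * ω⁻¹ * (riemannZeta (σ + t * I) * cexp (DS d L (σ + t * I)))) * h5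
  rw [e, norm_mul, mul_assoc]
  exact mul_le_mul_of_nonneg_left (h1.trans (le_of_eq (by ring))) (norm_nonneg _)

/-- **The resonance theorem with `ζ`.** -/
theorem resonanceZB [Countable X] (hm : 1 ≤ m) {κ : Fin m → ℂ} (hκ : CC κ) {Q : ℝ} {σ : ℝ}
    (hL : ∀ x, 0 ≤ L x) (hs : Summable fun i => |d i| * Real.exp (-(σ * L i)))
    {σ0 a : ℝ} (ha : 0 < a) (hL0 : ∀ x, a ≤ L0 x) (hs0 : Summable fun i => |d0 i| * Real.exp (-(σ0 * L0 i)))
    {β : J → ℂ} {q : J → ℝ} (hnq : ∀ j, 1 < q j) (hQ : 0 < Q)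
    {G : ℂ → ℂ} {T0 : ℝ} {ω : ℂ} (hω : ω ≠ 0)
    (hid0 : ∀ s : ℂ, σ0 ≤ s.re → T0 < |s.im| → G s * bf β q s = cexp (DS d0 L0 s))
    (hid : ∀ s : ℂ, σ ≤ s.re → T0 < |s.im| → G s * bf β q s = riemannZeta s * cexp (DS d L s))
    (hgr : ∀ b c : ℝ, ∃ C A : ℝ, ∀ s : ℂ, b ≤ s.re → s.re ≤ c → T0 < |s.im| → ‖G s‖ ≤ C * |s.im| ^ A)
    (hG : ∀ s : ℂ, T0 < |s.im| → DifferentiableAt ℂ G s)
    (hfe : ∀ s : ℂ, T0 < |s.im| → G s * GF (c0 κ) Q s = ω * (G (1 - s) * GF (c0 κ) Q (1 - s))) :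
    ((m : ℝ) + 1) / (2 * (m : ℝ) + 1) ≤ σ := by
  by_contra hcon
  push Not at hcon
  have hmr : (1 : ℝ) ≤ m := by exact_mod_cast hm
  have hq1 : ((m : ℝ) + 1) / (2 * (m : ℝ) + 1) < 1 := by
    rw [div_lt_one (by positivity)]
    linarith
  have hq2 : 1 / 2 < ((m : ℝ) + 1) / (2 * (m : ℝ) + 1) := by
    rw [div_lt_div_iff₀ (by norm_num) (by positivity)]
    linarith
  -- reductions
  set σ' : ℝ := max σ (1 / 2) with hσ'
  have hσσ : σ ≤ σ' := le_max_left _ _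
  have hσ1 : 1 / 2 ≤ σ' := le_max_right _ _
  have hlt : σ' < ((m : ℝ) + 1) / (2 * (m : ℝ) + 1) := max_lt hcon hq2
  have hle1 : σ' < 1 := hlt.trans hq1
  have hs' := Pool.Agent.W189.TP.summ_mono hL hσσ hs
  set σ1 : ℝ := max σ0 1 with hσ1d
  have hσ01 : σ0 ≤ σ1 := le_max_left _ _
  have hσ11 : 1 ≤ σ1 := le_max_right _ _
  have hL00 : ∀ x, 0 ≤ L0 x := fun x => ha.le.trans (hL0 x)
  have hs0' := Pool.Agent.W189.TP.summ_mono hL00 hσ01 hs0
  have hK := KK_nonneg (c0 κ)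
  set T1 : ℝ := max T0 (2 * KK (c0 κ) + 5) with hT1
  have hT01 : T0 ≤ T1 := le_max_left _ _
  have hT11 : 2 * KK (c0 κ) + 5 ≤ T1 := le_max_right _ _
  have hT1pos : 1 ≤ T1 := by linarith
  have hid' : ∀ s : ℂ, σ' ≤ s.re → T1 < |s.im| → G s * bf β q s = riemannZeta s * cexp (DS d L s) := fun s h1 h2 =>
    hid s (hσσ.trans h1) (hT01.trans_lt h2)
  have hid0' : ∀ s : ℂ, σ1 ≤ s.re → T1 < |s.im| → G s * bf β q s = cexp (DS d0 L0 s) := fun s h1 h2 =>
    hid0 s (hσ01.trans h1) (hT01.trans_lt h2)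
  have hgr' : ∀ b c : ℝ, ∃ C A : ℝ, ∀ s : ℂ, b ≤ s.re → s.re ≤ c → T1 < |s.im| → ‖G s‖ ≤ C * |s.im| ^ A := by
    intro b c
    obtain ⟨C, A, h⟩ := hgr b c
    exact ⟨C, A, fun s h1 h2 h3 => h s h1 h2 (hT01.trans_lt h3)⟩
  have hkd : ∀ s : ℂ, T1 < |s.im| → DifferentiableAt ℂ (ker β q G) s := by
    intro s hs
    unfold ker
    have h1 : DifferentiableAt ℂ (fun s : ℂ => G (1 - s)) s := by
      have h2 : DifferentiableAt ℂ G (1 - s) := hG _ (by
        simp only [Complex.sub_im, Complex.one_im, zero_sub, abs_neg]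
        exact hT01.trans_lt hs)
      exact DifferentiableAt.comp s h2 (by fun_prop)
    refine DifferentiableAt.mul (DifferentiableAt.mul (by fun_prop) ?_) h1
    unfold bf
    fun_prop
  -- choice of `ε`
  obtain ⟨ε, hε, hε1, hεx⟩ : ∃ ε : ℝ, 0 < ε ∧ ε ≤ 1 ∧
      ((m : ℝ) + 1 / 2) * σ' - ((m : ℝ) + 1) / 2 + 1 + ε / 2 < 1 := by
    have h1 : ((m : ℝ) + 1 / 2) * σ' < ((m : ℝ) + 1) / 2 := by
      rw [lt_div_iff₀ (by positivity)] at hlt
      linarith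
    refine ⟨min 1 (((m : ℝ) + 1) / 2 - ((m : ℝ) + 1 / 2) * σ'), lt_min one_pos (by linarith), min_le_left _ _, ?_⟩
    have := min_le_right 1 (((m : ℝ) + 1) / 2 - ((m : ℝ) + 1 / 2) * σ')
    linarith
  obtain ⟨Cr, Tr, hCr, hr⟩ := right_boundZB (d := d) (L := L) (Q := Q) hm hκ hσ1 hle1 hε hε1 hL hs' (β := β) (q := q) hQ hω hT11 hid'
    (fun s h => hfe s (hT01.trans_lt h))
  obtain ⟨Ck, Ak, hCk, hAk, hk⟩ := ker_growth ha hL0 hs0' hnq hT1pos hid0' hgr'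
  have hk' : ∀ s : ℂ, s.re ≤ σ' → T1 < |s.im| → ‖ker β q G s‖ ≤ Ck * |s.im| ^ Ak := fun s h1 h2 =>
    hk s (h1.trans (hle1.le.trans hσ11)) h2
  have htop := horiz (by linarith) hle1.le hCk hAk hk' (c := 2) (by norm_num) le_rfl (by norm_num)
  have hbot := horiz (by linarith) hle1.le hCk hAk hk' (c := 1 / 2) (by norm_num) (by norm_num) (by norm_num)
  have hleft := left_bound ha hL0 hs0' hnq (by linarith : 0 < T1) hid0' hkd
  have hp : 0 < ‖p0 β‖ := norm_pos_iff.2 (p0_ne β)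
  -- comparison of powers of `T`
  set x : ℝ := ((m : ℝ) + 1 / 2) * σ' - ((m : ℝ) + 1) / 2 + 1 + ε / 2 with hx
  have hlo : Tendsto (fun T : ℝ => Real.log T * (Cr * T ^ (x - 1) + 2 * T⁻¹)) atTop (𝓝 0) := by
    have h1 : Tendsto (fun T : ℝ => Real.log T / T ^ (1 - x)) atTop (𝓝 0) :=
      (isLittleO_log_rpow_atTop (by linarith)).tendsto_div_nhds_zero
    have h2 : Tendsto (fun T : ℝ => Real.log T / T ^ (1 : ℝ)) atTop (𝓝 0) :=
      (isLittleO_log_rpow_atTop one_pos).tendsto_div_nhds_zero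
    have h3 := (h1.const_mul Cr).add (h2.const_mul 2)
    rw [mul_zero, mul_zero, add_zero] at h3
    refine h3.congr' ?_
    filter_upwards [eventually_gt_atTop 0] with T hT
    rw [Real.rpow_one, show x - 1 = -(1 - x) by ring, Real.rpow_neg hT.le]
    ring
  have hDsq : ∀ᶠ T : ℝ in atTop, T ≤ DD T ^ 2 := by
    have h1 : Tendsto (fun T : ℝ => Real.log T / T ^ (1 / 2 : ℝ)) atTop (𝓝 0) :=
      (isLittleO_log_rpow_atTop (by norm_num)).tendsto_div_nhds_zero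
    filter_upwards [h1.eventually (gt_mem_nhds one_pos), eventually_gt_atTop 1] with T h2 h3
    have hT : 0 < T := by linarith
    have hlog := Real.log_pos h3
    rw [div_lt_one (by positivity), ← Real.sqrt_eq_rpow] at h2
    unfold DD
    rw [div_pow, le_div_iff₀ (by positivity)]
    have h4 : Real.log T ^ 2 ≤ T := by
      have := pow_le_pow_left₀ hlog.le h2.le 2
      rwa [Real.sq_sqrt hT.le] at this
    nlinarith
  have hfinal := ((((hlo.eventually (gt_mem_nhds hp)).and hDsq).and hleft).and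
    ((htop.norm.eventually (gt_mem_nhds (by rw [norm_zero]; exact one_pos))).and
      (hbot.norm.eventually (gt_mem_nhds (by rw [norm_zero]; exact one_pos))))).and
      ((eventually_gt_atTop (2 * T1)).and (eventually_ge_atTop Tr))
  obtain ⟨T, ⟨⟨⟨h1, h2⟩, h3⟩, ⟨h4, h5⟩⟩, ⟨h6, h7⟩⟩ := hfinal.exists
  have hT : 1 < T := by linarith
  have hT0' : 0 < T := by linarith
  have hlog := Real.log_pos hT
  have hrect := rect (σ := σ') (k := ker β q G) (by linarith : 0 < T1) (fun s hs => hkd s (by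
    rwa [abs_of_pos (by linarith)])) h6
  have hr' := hr T h7 h2
  set R := ∫ t in (T / 2)..(2 * T), ww T (DD T) (σ' + t * I) * ker β q G (σ' + t * I) with hR
  set Lf := ∫ t in (T / 2)..(2 * T), ww T (DD T) (((-DD T : ℝ) : ℂ) + t * I) * ker β q G (((-DD T : ℝ) : ℂ) + t * I) with hLf
  set tp := ∫ x in (-DD T)..σ', ww T (DD T) (x + ((2 * T : ℝ) : ℂ) * I) * ker β q G (x + ((2 * T : ℝ) : ℂ) * I) with htp
  set bt := ∫ x in (-DD T)..σ', ww T (DD T) (x + ((1 / 2 * T : ℝ) : ℂ) * I) * ker β q G (x + ((1 / 2 * T : ℝ) : ℂ) * I) with hbt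
  have h8 : I * Lf = I * R - tp + bt := by linear_combination -hrect
  have h9 := congrArg norm h8
  rw [norm_mul, Complex.norm_I, one_mul] at h9
  have h10 : ‖Lf‖ ≤ ‖R‖ + 1 + 1 := by
    rw [h9]
    refine (norm_add_le _ _).trans (add_le_add ((norm_sub_le _ _).trans (add_le_add ?_ h4.le)) h5.le)
    rw [norm_mul, Complex.norm_I, one_mul]
  have h11 : ‖p0 β‖ * DD T ≤ Cr * T ^ x + 2 := by linarith
  have h12 : T ^ x = T ^ (x - 1) * T := by
    nth_rewrite 3 [← Real.rpow_one T]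
    rw [← Real.rpow_add hT0']
    congr 1
    ring
  rw [h12] at h11
  have h13 : ‖p0 β‖ * DD T * Real.log T = ‖p0 β‖ * T := by
    unfold DD
    field_simp
  have h14 : ‖p0 β‖ * T ≤ Real.log T * (Cr * T ^ (x - 1) + 2 * T⁻¹) * T := by
    rw [← h13]
    calc _ ≤ (Cr * (T ^ (x - 1) * T) + 2) * Real.log T := mul_le_mul_of_nonneg_right h11 hlog.le
      _ = _ := by
        field_simp
  have h15 := le_of_mul_le_mul_right h14 hT0'
  linarith

end Pool.Agent.TH949.RES
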