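import Pool.Agent.TH949.RES.Gam

/-! Oscillatory integrals with the quotient of the Gamma factors. -/

set_option autoImplicit false

namespace Pool.Agent.TH949.RES

open Filter Topology Complex MeasureTheory Set

variable {N : ℕ}

/-- the weight -/
noncomputable def ww (T D : ℝ) (s : ℂ) : ℂ := cexp ((s - T * I) ^ 2 / (D : ℂ) ^ 2)

theorem ww_diff (T D : ℝ) : Differentiable ℂ (ww T D) := by
  unfold ww
  fun_prop

theorem ww_norm {T D : ℝ} (s : ℂ) : ‖ww T D s‖ = Real.exp ((s.re ^ 2 - (s.im - T) ^ 2) / D ^ 2) := by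
  unfold ww
  rw [Complex.norm_exp]
  congr 1
  have e : (s - T * I) ^ 2 / (D : ℂ) ^ 2 = (((1 / D ^ 2 : ℝ)) : ℂ) * (s - T * I) ^ 2 := by
    push_cast
    ring
  rw [e, Complex.re_ofReal_mul]
  have e2 : ((s - T * I) ^ 2).re = s.re ^ 2 - (s.im - T) ^ 2 := by
    rw [sq, Complex.mul_re]
    simp
    ring
  rw [e2]
  ring

theorem ww_hd (T D : ℝ) (s : ℂ) : HasDerivAt (ww T D) (ww T D s * (2 * (s - T * I) / (D : ℂ) ^ 2)) s := by
  unfold ww
  have h1 : HasDerivAt (fun s : ℂ => (s - T * I)) 1 s := (hasDerivAt_id s).sub_const _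
  have h2 := ((h1.pow 2).div_const ((D : ℂ) ^ 2)).cexp
  refine h2.congr_deriv ?_
  simp

theorem PD_cont (κ : Fin N → ℂ) : ContinuousOn (PD κ) {s : ℂ | 2 * KK κ + 5 < s.im} := by
  have hop : IsOpen {s : ℂ | 2 * KK κ + 5 < s.im} := isOpen_lt continuous_const Complex.continuous_im
  have hd : DifferentiableOn ℂ (PP κ 1) {s : ℂ | 2 * KK κ + 5 < s.im} := fun s hs =>
    (PP_hd (κ := κ) (Q := 1) (le_of_lt hs)).differentiableAt.differentiableWithinAt
  have h1 := ((hd.analyticOnNhd hop).deriv).continuousOn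
  refine h1.congr fun s hs => ?_
  exact (PP_hd (κ := κ) (Q := 1) (le_of_lt hs)).deriv.symm

theorem line_hd (σ t : ℝ) : HasDerivAt (fun t : ℝ => (σ : ℂ) + t * I) I t := by
  have h1 := ((Complex.ofRealCLM.hasDerivAt (x := t)).mul_const I).const_add (σ : ℂ)
  refine h1.congr_deriv ?_
  simp

/-- **The oscillatory integral.** -/
theorem osc (hN : 1 ≤ N) {κ : Fin N → ℂ} (hκ : Multiset.map (fun j => (starRingEnd ℂ) (κ j)) Finset.univ.val =
      Multiset.map κ Finset.univ.val) (Q : ℝ) {σ : ℝ} (hσ : 1 / 2 ≤ σ) :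
    ∃ C T1 : ℝ, 0 ≤ C ∧ 1 ≤ T1 ∧ ∀ T D lam : ℝ, T1 ≤ T → T ≤ D ^ 2 →
      ‖∫ t in (T / 2)..(2 * T), ww T D (σ + t * I) * YY κ Q (σ + t * I) * cexp (-(lam * t) * I)‖ ≤
        C * (T ^ ((N : ℝ) * (σ - 1 / 2)) * √T) := by
  obtain ⟨C0, T0, hC0, hT0, hY⟩ := YY_norm hκ Q hσ
  obtain ⟨C1, hC1, hP⟩ := PD_near κ σ
  have hK0 := KK_nonneg κ
  have hN' : (1 : ℝ) ≤ N := by exact_mod_cast hN
  refine ⟨80 * (Real.exp (σ ^ 2) * (C0 * 2 ^ ((N : ℝ) * (σ - 1 / 2)))),
    2 * T0 + 2 * (2 * KK κ + 6) + 16 * C1, by positivity, by linarith, fun T D lam hT hD => ?_⟩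
  have hT1 : 1 ≤ T := by linarith
  have hTpos : 0 < T := by linarith
  have hD2 : 0 < D ^ 2 := by linarith
  have hD0 : (D : ℂ) ≠ 0 := by
    intro h
    have : D = 0 := by exact_mod_cast h
    rw [this] at hD2
    norm_num at hD2
  have hab : T / 2 ≤ 2 * T := by linarith
  set x : ℝ := (N : ℝ) * (σ - 1 / 2) with hx
  have hx0 : 0 ≤ x := mul_nonneg (by linarith) (by linarith)
  set u : ℝ → ℂ := fun t => ww T D (σ + t * I) * YY κ Q (σ + t * I) * cexp (-(lam * t) * I) with hu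
  set Λ : ℝ → ℂ := fun t => PP κ Q (σ + t * I) + 2 * ((σ + t * I) - T * I) / (D : ℂ) ^ 2 - lam with hΛ
  set Λ' : ℝ → ℂ := fun t => I * (PD κ (σ + t * I) + 2 / (D : ℂ) ^ 2) with hΛ'
  set ρ : ℝ := N / (4 * T) with hρ
  have hρ0 : 0 < ρ := by positivity
  have him : ∀ t ∈ Icc (T / 2) (2 * T), 2 * KK κ + 5 < ((σ : ℂ) + t * I).im := by
    intro t ht
    have e1 : ((σ : ℂ) + t * I).im = t := by simp
    rw [e1]
    linarith [ht.1]
  -- derivatives
  have hder1 : ∀ t ∈ Icc (T / 2) (2 * T), HasDerivAt u (I * Λ t * u t) t := by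
    intro t ht
    have hl := line_hd σ t
    have a1 := (ww_hd T D (σ + t * I)).comp t hl
    have a2 := (YY_hd (κ := κ) (Q := Q) (him t ht).le).comp t hl
    have a3 : HasDerivAt (fun t : ℝ => cexp (-(lam * t) * I)) (cexp (-(lam * t) * I) * (-lam * I)) t := by
      have h2 : HasDerivAt (fun t : ℝ => (-(lam * t) * I : ℂ)) (-lam * I) t := by
        have h3 := ((((Complex.ofRealCLM.hasDerivAt (x := t)).const_mul (lam : ℂ)).neg).mul_const I)
        refine h3.congr_deriv ?_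
        simp
      exact h2.cexp
    have a4 := (a1.mul a2).mul a3
    refine a4.congr_deriv ?_
    simp only [Function.comp_apply, hΛ, hu, Pi.mul_apply]
    ring
  have hder2 : ∀ t ∈ Icc (T / 2) (2 * T), HasDerivAt Λ (Λ' t) t := by
    intro t ht
    have hl := line_hd σ t
    have a1 := (PP_hd (κ := κ) (Q := Q) (him t ht).le).comp t hl
    have a2 := (((hl.sub_const (T * I)).const_mul 2).div_const ((D : ℂ) ^ 2))
    have a3 := (a1.add a2).sub_const (lam : ℂ)
    refine a3.congr_deriv ?_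
    simp only [hΛ']
    ring
  have hcont : ContinuousOn Λ' (Icc (T / 2) (2 * T)) := by
    refine continuousOn_const.mul (ContinuousOn.add ?_ continuousOn_const)
    refine (PD_cont κ).comp (by fun_prop) ?_
    intro t ht
    exact him t ht
  -- the derivative of the phase
  have hE : ∀ t ∈ Icc (T / 2) (2 * T), ‖PD κ (σ + t * I) - N / (t * I)‖ ≤ N / (4 * T) := by
    intro t ht
    have ht0 : 0 < t := by linarith [ht.1]
    refine (hP t (by have := him t ht; simp at this; linarith)).trans ?_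
    rw [div_le_div_iff₀ (by positivity) (by positivity)]
    have h1 : (T / 2) ^ 2 ≤ t ^ 2 := pow_le_pow_left₀ (by positivity) ht.1 2
    have h2 : 16 * C1 ≤ T := by linarith
    have h3 : C1 * (4 * T) ≤ (T / 2) ^ 2 := by nlinarith
    nlinarith
  have hNt : ∀ t : ℝ, (N : ℂ) / (t * I) = -((N / t : ℝ) : ℂ) * I := by
    intro t
    push_cast
    rw [div_eq_mul_inv, mul_inv, Complex.inv_I]
    ring
  have h1 : ∀ t ∈ Icc (T / 2) (2 * T), ρ ≤ (Λ' t).re := by
    intro t ht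
    have ht0 : 0 < t := by linarith [ht.1]
    have e : Λ' t = ((N / t : ℝ) : ℂ) + I * (PD κ (σ + t * I) - N / (t * I)) + (2 / D ^ 2 : ℝ) * I := by
      rw [hNt]
      simp only [hΛ']
      push_cast
      linear_combination (-(N : ℂ) / t) * Complex.I_sq
    rw [e, Complex.add_re, Complex.add_re, Complex.ofReal_re]
    have e2 : (((2 / D ^ 2 : ℝ) : ℂ) * I).re = 0 := by rw [Complex.re_ofReal_mul, Complex.I_re, mul_zero]
    rw [e2, add_zero]
    have h3 := Complex.abs_re_le_norm (I * (PD κ (σ + t * I) - N / (t * I)))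
    rw [norm_mul, Complex.norm_I, one_mul] at h3
    have h4 := (abs_le.1 (h3.trans (hE t ht))).1
    have h5 : N / (2 * T) ≤ N / t := div_le_div_of_nonneg_left (by linarith) ht0 ht.2
    have h6 : (N : ℝ) / (2 * T) = N / (4 * T) + N / (4 * T) := by
      field_simp
      ring
    rw [hρ]
    linarith
  have h2 : ∀ t ∈ Icc (T / 2) (2 * T), ‖Λ' t‖ ≤ 17 * ρ := by
    intro t ht
    have ht0 : 0 < t := by linarith [ht.1]
    simp only [hΛ']
    rw [norm_mul, Complex.norm_I, one_mul]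
    have e : PD κ (σ + t * I) + 2 / (D : ℂ) ^ 2 = (PD κ (σ + t * I) - N / (t * I)) +
        (N / (t * I) + 2 / (D : ℂ) ^ 2) := by ring
    rw [e]
    have h3 : ‖(N : ℂ) / (t * I)‖ ≤ 2 * N / T := by
      rw [hNt, norm_mul, norm_neg, Complex.norm_I, mul_one, Complex.norm_real, Real.norm_of_nonneg (by positivity)]
      rw [div_le_div_iff₀ ht0 hTpos]
      nlinarith [ht.1]
    have h4 : ‖(2 : ℂ) / (D : ℂ) ^ 2‖ ≤ 2 * N / T := by
      rw [norm_div, norm_pow, Complex.norm_real, Real.norm_eq_abs, sq_abs]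
      have e2 : ‖(2 : ℂ)‖ = 2 := by simp
      rw [e2, div_le_div_iff₀ hD2 hTpos]
      nlinarith
    calc _ ≤ N / (4 * T) + (2 * N / T + 2 * N / T) :=
          (norm_add_le _ _).trans (add_le_add (hE t ht) ((norm_add_le _ _).trans (add_le_add h3 h4)))
      _ = 17 * ρ := by
        rw [hρ]
        field_simp
        ring
  -- the size
  set M : ℝ := Real.exp (σ ^ 2) * (C0 * (2 * T) ^ x) with hM
  have hM0 : 0 ≤ M := by positivity
  have hu2 : ∀ t ∈ Icc (T / 2) (2 * T), ‖u t‖ ≤ M := by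
    intro t ht
    have ht0 : 0 < t := by linarith [ht.1]
    simp only [hu]
    rw [norm_mul, norm_mul]
    have e1 : ‖cexp (-(lam * t) * I)‖ = 1 := by
      rw [Complex.norm_exp]
      simp
    rw [e1, mul_one]
    refine mul_le_mul ?_ ?_ (norm_nonneg _) (Real.exp_pos _).le
    · rw [ww_norm]
      refine Real.exp_le_exp.2 ?_
      have e2 : ((σ : ℂ) + t * I).re = σ := by simp
      rw [e2, div_le_iff₀ hD2]
      nlinarith [sq_nonneg (((σ : ℂ) + t * I).im - T), sq_nonneg σ]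
    · refine (hY t (by linarith [ht.1])).trans (mul_le_mul_of_nonneg_left ?_ hC0)
      exact Real.rpow_le_rpow ht0.le ht.2 hx0
  have hfin := vdc hab hρ0 hM0 (by norm_num : (0 : ℝ) ≤ 17) hder1 hder2 hcont h1 h2 hu2
  refine hfin.trans ?_
  have hsq : 1 / (2 * √T) ≤ √ρ := by
    refine Real.le_sqrt_of_sq_le ?_
    rw [div_pow, mul_pow, Real.sq_sqrt hTpos.le, hρ, one_pow, div_le_div_iff₀ (by positivity) (by positivity)]
    nlinarith
  have hsT : 0 < √T := Real.sqrt_pos.2 hTpos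
  have hsρ : 0 < √ρ := Real.sqrt_pos.2 hρ0
  calc (6 + 2 * 17) * M / √ρ ≤ (6 + 2 * 17) * M / (1 / (2 * √T)) := by gcongr
    _ = 80 * M * √T := by
      field_simp
      ring
    _ = _ := by
      rw [hM, Real.mul_rpow (by norm_num) hTpos.le]
      ring

end Pool.Agent.TH949.RES
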