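import Pool.Agent.TH949.RES.Osc

/-! Oscillatory integrals with the quotient of the Gamma factors, on all vertical lines. -/

set_option autoImplicit false

namespace Pool.Agent.TH949.RES

open Filter Topology Complex MeasureTheory Set

variable {N : ℕ}

/-- a function with bounded logarithmic derivative -/
theorem two_sided {f f' : ℝ → ℂ} {a b K : ℝ} (hab : a ≤ b) (hd : ∀ x ∈ Icc a b, HasDerivAt f (f' x) x)
    (hb : ∀ x ∈ Icc a b, ‖f' x‖ ≤ K * ‖f x‖) :
    ‖f b‖ ≤ ‖f a‖ * Real.exp (K * (b - a)) ∧ ‖f a‖ ≤ ‖f b‖ * Real.exp (K * (b - a)) := by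
  constructor
  · have hg := norm_le_gronwallBound_of_norm_deriv_right_le (f := f) (f' := f') (δ := ‖f a‖)
      (K := K) (ε := 0) (a := a) (b := b)
      (fun x hx => (hd x hx).continuousAt.continuousWithinAt)
      (fun x hx => (hd x (Ico_subset_Icc_self hx)).hasDerivWithinAt) le_rfl
      (fun x hx => by rw [add_zero]; exact hb x (Ico_subset_Icc_self hx)) b (right_mem_Icc.2 hab)
    rwa [gronwallBound_ε0] at hg
  · have hmem : ∀ x ∈ Icc (-b) (-a), -x ∈ Icc a b := fun x hx => ⟨by linarith [hx.2], by linarith [hx.1]⟩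
    have hd2 : ∀ x ∈ Icc (-b) (-a), HasDerivAt (fun x => f (-x)) (-(f' (-x))) x := by
      intro x hx
      have h1 : HasDerivAt (fun x => f (-x)) ((-1 : ℝ) • f' (-x)) x :=
        (hd (-x) (hmem x hx)).scomp x (hasDerivAt_neg x)
      refine h1.congr_deriv ?_
      rw [neg_smul, one_smul]
    have hg := norm_le_gronwallBound_of_norm_deriv_right_le (f := fun x => f (-x)) (f' := fun x => -(f' (-x)))
      (δ := ‖f b‖) (K := K) (ε := 0) (a := -b) (b := -a)
      (fun x hx => (hd2 x hx).continuousAt.continuousWithinAt)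
      (fun x hx => (hd2 x (Ico_subset_Icc_self hx)).hasDerivWithinAt) (by simp)
      (fun x hx => by
        rw [add_zero, norm_neg]
        exact hb (-x) (hmem x (Ico_subset_Icc_self hx))) (-a) (right_mem_Icc.2 (by linarith))
    rw [gronwallBound_ε0] at hg
    simp only [neg_neg] at hg
    have e : -a - -b = b - a := by ring
    rwa [e] at hg

/-- comparison of two points on a horizontal segment, uniformly -/
theorem gr_seg2 (μ : ℂ) (R : ℝ) : ∃ K T0 : ℝ, 0 ≤ K ∧ 1 ≤ T0 ∧ ∀ t : ℝ, T0 ≤ t → ∀ x y : ℝ, |x| ≤ R → |y| ≤ R →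
    ‖Gammaℝ (y + t * I + μ)‖ ≤ ‖Gammaℝ (x + t * I + μ)‖ * (K * t ^ ((y - x) / 2)) := by
  obtain ⟨K, T0, hK, hT0, h⟩ := Pool.Agent.W355.LJ.gr_logd μ
  refine ⟨Real.exp (K * (2 * |R|)), max T0 (2 * |R|), (Real.exp_pos _).le, hT0.trans (le_max_left _ _),
    fun t ht x y hx hy => ?_⟩
  have ht1 : T0 ≤ t := (le_max_left _ _).trans ht
  have ht2 : 2 * |R| ≤ t := (le_max_right _ _).trans ht
  have ht0 : 0 < t := by linarith
  have hRR := le_abs_self R
  set g : ℝ → ℂ := fun x => Gammaℝ (x + t * I + μ) * cexp (-((1 / 2 * Real.log t : ℝ) : ℂ) * x) with hg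
  set g' : ℝ → ℂ := fun x => g x * (logDeriv (fun s : ℂ => Gammaℝ (s + μ)) (x + t * I) -
    ((1 / 2 * Real.log t : ℝ) : ℂ)) with hg'
  have hreg : ∀ x : ℝ, |x| ≤ R → T0 ≤ ((x : ℂ) + t * I).im ∧ |((x : ℂ) + t * I).re| ≤ 3 / 4 * ((x : ℂ) + t * I).im := by
    intro x hx
    have e1 : ((x : ℂ) + t * I).im = t := by simp
    have e2 : ((x : ℂ) + t * I).re = x := by simp
    rw [e1, e2]
    exact ⟨ht1, by have := abs_nonneg R; linarith⟩
  have hder : ∀ x : ℝ, |x| ≤ R → HasDerivAt g (g' x) x := by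
    intro x hx
    obtain ⟨a1, a2⟩ := hreg x hx
    obtain ⟨b1, b2, -⟩ := h _ a1 a2
    have h1 := hd_of b2 b1
    have h2 : HasDerivAt (fun x : ℝ => (x : ℂ) + t * I) 1 x := (Complex.ofRealCLM.hasDerivAt (x := x)).add_const _
    have h3 := h1.comp x h2
    rw [mul_one] at h3
    have h4 : HasDerivAt (fun x : ℝ => cexp (-((1 / 2 * Real.log t : ℝ) : ℂ) * x))
        (cexp (-((1 / 2 * Real.log t : ℝ) : ℂ) * x) * (-((1 / 2 * Real.log t : ℝ) : ℂ))) x := by
      have h5 : HasDerivAt (fun x : ℝ => -((1 / 2 * Real.log t : ℝ) : ℂ) * x) (-((1 / 2 * Real.log t : ℝ) : ℂ)) x := by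
        have := (Complex.ofRealCLM.hasDerivAt (x := x)).const_mul (-((1 / 2 * Real.log t : ℝ) : ℂ))
        simpa using this
      exact h5.cexp
    refine (h3.mul h4).congr_deriv ?_
    simp only [Function.comp_apply, hg', hg]
    ring
  have hbd : ∀ x : ℝ, |x| ≤ R → ‖g' x‖ ≤ K * ‖g x‖ := by
    intro x hx
    obtain ⟨a1, a2⟩ := hreg x hx
    obtain ⟨-, -, b3⟩ := h _ a1 a2
    have e1 : ((x : ℂ) + t * I).im = t := by simp
    rw [e1] at b3
    simp only [hg']
    rw [norm_mul, mul_comm]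
    exact mul_le_mul_of_nonneg_right b3 (norm_nonneg _)
  have hgn : ∀ x : ℝ, ‖g x‖ = ‖Gammaℝ (x + t * I + μ)‖ * t ^ (-x / 2) := by
    intro x
    simp only [hg]
    rw [norm_mul, Complex.norm_exp, Real.rpow_def_of_pos ht0]
    congr 2
    have e : -((1 / 2 * Real.log t : ℝ) : ℂ) * (x : ℂ) = ((-(1 / 2 * Real.log t) * x : ℝ) : ℂ) := by push_cast; ring
    rw [e, Complex.ofReal_re]
    ring
  have key : ‖g y‖ ≤ ‖g x‖ * Real.exp (K * (2 * |R|)) := by
    have hxR := abs_le.1 hx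
    have hyR := abs_le.1 hy
    rcases le_total x y with hxy | hxy
    · have hsub : ∀ z ∈ Icc x y, |z| ≤ R := fun z hz => abs_le.2 ⟨by linarith [hz.1], by linarith [hz.2]⟩
      have h1 := (two_sided hxy (fun z hz => hder z (hsub z hz)) (fun z hz => hbd z (hsub z hz))).1
      refine h1.trans (mul_le_mul_of_nonneg_left (Real.exp_le_exp.2 ?_) (norm_nonneg _))
      exact mul_le_mul_of_nonneg_left (by linarith) hK
    · have hsub : ∀ z ∈ Icc y x, |z| ≤ R := fun z hz => abs_le.2 ⟨by linarith [hz.1], by linarith [hz.2]⟩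
      have h1 := (two_sided hxy (fun z hz => hder z (hsub z hz)) (fun z hz => hbd z (hsub z hz))).2
      refine h1.trans (mul_le_mul_of_nonneg_left (Real.exp_le_exp.2 ?_) (norm_nonneg _))
      exact mul_le_mul_of_nonneg_left (by linarith) hK
  rw [hgn, hgn] at key
  have e3 : ‖Gammaℝ (y + t * I + μ)‖ = ‖Gammaℝ (y + t * I + μ)‖ * t ^ (-y / 2) * t ^ (y / 2) := by
    rw [mul_assoc, ← Real.rpow_add ht0]
    have : -y / 2 + y / 2 = 0 := by ring
    rw [this, Real.rpow_zero, mul_one]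
  rw [e3]
  calc _ ≤ ‖Gammaℝ (x + t * I + μ)‖ * t ^ (-x / 2) * Real.exp (K * (2 * |R|)) * t ^ (y / 2) :=
        mul_le_mul_of_nonneg_right key (by positivity)
    _ = _ := by
      have : t ^ ((y - x) / 2) = t ^ (-x / 2) * t ^ (y / 2) := by
        rw [← Real.rpow_add ht0]
        congr 1
        ring
      rw [this]
      ring

/-- size of the quotient of the Gamma factors, uniformly in vertical strips -/
theorem YY_norm' {κ : Fin N → ℂ} (hκ : Multiset.map (fun j => (starRingEnd ℂ) (κ j)) Finset.univ.val =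
      Multiset.map κ Finset.univ.val) (Q R : ℝ) :
    ∃ C T1 : ℝ, 0 ≤ C ∧ 1 ≤ T1 ∧ ∀ t : ℝ, T1 ≤ t → ∀ σ : ℝ, |σ| ≤ R →
      ‖YY κ Q (σ + t * I)‖ ≤ C * t ^ ((N : ℝ) * (σ - 1 / 2)) := by
  choose K T0 hK hT0 h using fun j => gr_seg2 (κ j) (R + 1)
  have hT : ∀ j, T0 j ≤ ∑ j, T0 j := fun j =>
    Finset.single_le_sum (f := T0) (fun j _ => by linarith [hT0 j]) (Finset.mem_univ j)
  have hKp : 0 ≤ ∏ j, K j := Finset.prod_nonneg fun j _ => hK j
  refine ⟨Real.exp ((2 * |R| + 1) * |Real.log Q|) * ∏ j, K j,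
    1 + (2 * KK κ + 5) + ∑ j, T0 j, by positivity, ?_, fun t ht σ hσ => ?_⟩
  · have := KK_nonneg κ
    have : 0 ≤ ∑ j, T0 j := Finset.sum_nonneg fun j _ => by linarith [hT0 j]
    linarith
  have hK0 := KK_nonneg κ
  have hS : 0 ≤ ∑ j, T0 j := Finset.sum_nonneg fun j _ => by linarith [hT0 j]
  have ht0 : 0 < t := by linarith
  set s : ℂ := σ + t * I with hs
  have hsim : s.im = t := by simp [hs]
  -- conjugation
  have hconj : ∏ j, ‖Gammaℝ (1 - s + κ j)‖ = ∏ j, ‖Gammaℝ (((1 - σ : ℝ) : ℂ) + t * I + κ j)‖ := by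
    rw [Pool.Agent.W189.TP.conj_prod hκ (fun z => ‖Gammaℝ (1 - s + z)‖)]
    refine Finset.prod_congr rfl fun j _ => ?_
    rw [← Pool.Agent.W189.TP.norm_Gammaℝ_conj]
    congr 2
    rw [hs]
    simp only [map_add, map_sub, map_one, map_mul, Complex.conj_I, Complex.conj_ofReal,
      Complex.conj_conj]
    push_cast
    ring
  have hpos : ∀ j, 0 < ‖Gammaℝ (((1 - σ : ℝ) : ℂ) + t * I + κ j)‖ := by
    intro j
    refine norm_pos_iff.2 (gr_ne0 ?_)
    have h1 := im1 (κ := κ) (s := ((1 - σ : ℝ) : ℂ) + t * I) (by simp; linarith) j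
    have e : (((1 - σ : ℝ) : ℂ) + t * I).im = t := by simp
    rw [e] at h1
    intro h0
    rw [h0] at h1
    linarith
  unfold YY
  rw [norm_mul, norm_prod]
  have e1 : ‖cexp ((2 * s - 1) * (Real.log Q : ℝ))‖ ≤ Real.exp ((2 * |R| + 1) * |Real.log Q|) := by
    rw [Complex.norm_exp]
    have e : ((2 * s - 1) * ((Real.log Q : ℝ) : ℂ)).re = (2 * σ - 1) * Real.log Q := by simp [hs]
    rw [e]
    refine Real.exp_le_exp.2 ((le_abs_self _).trans ?_)
    rw [abs_mul]
    refine mul_le_mul_of_nonneg_right ?_ (abs_nonneg _)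
    have := abs_le.1 hσ
    have := le_abs_self R
    rw [abs_le]
    constructor <;> linarith
  have e2 : ∏ j, ‖Gammaℝ (s + κ j) / Gammaℝ (1 - s + κ j)‖ =
      (∏ j, ‖Gammaℝ (s + κ j)‖) / ∏ j, ‖Gammaℝ (((1 - σ : ℝ) : ℂ) + t * I + κ j)‖ := by
    rw [← hconj, ← Finset.prod_div_distrib]
    exact Finset.prod_congr rfl fun j _ => norm_div _ _
  rw [e2, mul_assoc]
  refine mul_le_mul e1 ?_ (by positivity) (Real.exp_pos _).le
  rw [div_le_iff₀ (Finset.prod_pos fun j _ => hpos j)]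
  have e3 : t ^ ((N : ℝ) * (σ - 1 / 2)) = ∏ j : Fin N, t ^ ((σ - (1 - σ)) / 2) := by
    rw [Finset.prod_const, Finset.card_univ, Fintype.card_fin, ← Real.rpow_natCast, ← Real.rpow_mul ht0.le]
    congr 1
    ring
  rw [e3, ← Finset.prod_mul_distrib, ← Finset.prod_mul_distrib]
  refine Finset.prod_le_prod (fun j _ => norm_nonneg _) fun j _ => ?_
  rw [mul_comm]
  have hσ' := abs_le.1 hσ
  exact h j t ((hT j).trans (by linarith)) (1 - σ) σ (by rw [abs_le]; constructor <;> linarith) (by linarith)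

/-- **The oscillatory integral**, on every vertical line. -/
theorem osc' (hN : 1 ≤ N) {κ : Fin N → ℂ} (hκ : Multiset.map (fun j => (starRingEnd ℂ) (κ j)) Finset.univ.val =
      Multiset.map κ Finset.univ.val) (Q : ℝ) (σ : ℝ) :
    ∃ C T1 : ℝ, 0 ≤ C ∧ 1 ≤ T1 ∧ ∀ T D lam : ℝ, T1 ≤ T → T ≤ D ^ 2 →
      ‖∫ t in (T / 2)..(2 * T), ww T D (σ + t * I) * YY κ Q (σ + t * I) * cexp (-(lam * t) * I)‖ ≤
        C * (T ^ ((N : ℝ) * (σ - 1 / 2)) * √T) := by
  obtain ⟨C0, T0, hC0, hT0, hY'⟩ := YY_norm' hκ Q |σ|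
  have hY : ∀ t : ℝ, T0 ≤ t → ‖YY κ Q (σ + t * I)‖ ≤ C0 * t ^ ((N : ℝ) * (σ - 1 / 2)) :=
    fun t ht => hY' t ht σ le_rfl
  obtain ⟨C1, hC1, hP⟩ := PD_near κ σ
  have hK0 := KK_nonneg κ
  have hN' : (1 : ℝ) ≤ N := by exact_mod_cast hN
  refine ⟨80 * (Real.exp (σ ^ 2) * (C0 * 2 ^ |(N : ℝ) * (σ - 1 / 2)|)),
    2 * T0 + 2 * (2 * KK κ + 6) + 16 * C1, by positivity, by linarith, fun T D lam hT hD => ?_⟩
  have hT1 : 1 ≤ T := by linarith
  have hTpos : 0 < T := by linarith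
  have hD2 : 0 < D ^ 2 := by linarith
  have hD0 : (D : ℂ) ≠ 0 := by
    intro h
    have : D = 0 := by exact_mod_cast h
    rw [this] at hD2
    norm_num at hD2
  have hab : T / 2 ≤ 2 * T := by linarith
  set x : ℝ := (N : ℝ) * (σ - 1 / 2) with hx
  set u : ℝ → ℂ := fun t => ww T D (σ + t * I) * YY κ Q (σ + t * I) * cexp (-(lam * t) * I) with hu
  set Λ : ℝ → ℂ := fun t => PP κ Q (σ + t * I) + 2 * ((σ + t * I) - T * I) / (D : ℂ) ^ 2 - lam with hΛ
  set Λ' : ℝ → ℂ := fun t => I * (PD κ (σ + t * I) + 2 / (D : ℂ) ^ 2) with hΛ'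
  set ρ : ℝ := N / (4 * T) with hρ
  have hρ0 : 0 < ρ := by positivity
  have him : ∀ t ∈ Icc (T / 2) (2 * T), 2 * KK κ + 5 < ((σ : ℂ) + t * I).im := by
    intro t ht
    have e1 : ((σ : ℂ) + t * I).im = t := by simp
    rw [e1]
    linarith [ht.1]
  -- derivatives
  have hder1 : ∀ t ∈ Icc (T / 2) (2 * T), HasDerivAt u (I * Λ t * u t) t := by
    intro t ht
    have hl := line_hd σ t
    have a1 := (ww_hd T D (σ + t * I)).comp t hl
    have a2 := (YY_hd (κ := κ) (Q := Q) (him t ht).le).comp t hl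
    have a3 : HasDerivAt (fun t : ℝ => cexp (-(lam * t) * I)) (cexp (-(lam * t) * I) * (-lam * I)) t := by
      have h2 : HasDerivAt (fun t : ℝ => (-(lam * t) * I : ℂ)) (-lam * I) t := by
        have h3 := ((((Complex.ofRealCLM.hasDerivAt (x := t)).const_mul (lam : ℂ)).neg).mul_const I)
        refine h3.congr_deriv ?_
        simp
      exact h2.cexp
    have a4 := (a1.mul a2).mul a3
    refine a4.congr_deriv ?_
    simp only [Function.comp_apply, hΛ, hu, Pi.mul_apply]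
    ring
  have hder2 : ∀ t ∈ Icc (T / 2) (2 * T), HasDerivAt Λ (Λ' t) t := by
    intro t ht
    have hl := line_hd σ t
    have a1 := (PP_hd (κ := κ) (Q := Q) (him t ht).le).comp t hl
    have a2 := (((hl.sub_const (T * I)).const_mul 2).div_const ((D : ℂ) ^ 2))
    have a3 := (a1.add a2).sub_const (lam : ℂ)
    refine a3.congr_deriv ?_
    simp only [hΛ']
    ring
  have hcont : ContinuousOn Λ' (Icc (T / 2) (2 * T)) := by
    refine continuousOn_const.mul (ContinuousOn.add ?_ continuousOn_const)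
    refine (PD_cont κ).comp (by fun_prop) ?_
    intro t ht
    exact him t ht
  -- the derivative of the phase
  have hE : ∀ t ∈ Icc (T / 2) (2 * T), ‖PD κ (σ + t * I) - N / (t * I)‖ ≤ N / (4 * T) := by
    intro t ht
    have ht0 : 0 < t := by linarith [ht.1]
    refine (hP t (by have := him t ht; simp at this; linarith)).trans ?_
    rw [div_le_div_iff₀ (by positivity) (by positivity)]
    have h1 : (T / 2) ^ 2 ≤ t ^ 2 := pow_le_pow_left₀ (by positivity) ht.1 2
    have h2 : 16 * C1 ≤ T := by linarith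
    have h3 : C1 * (4 * T) ≤ (T / 2) ^ 2 := by nlinarith
    nlinarith
  have hNt : ∀ t : ℝ, (N : ℂ) / (t * I) = -((N / t : ℝ) : ℂ) * I := by
    intro t
    push_cast
    rw [div_eq_mul_inv, mul_inv, Complex.inv_I]
    ring
  have h1 : ∀ t ∈ Icc (T / 2) (2 * T), ρ ≤ (Λ' t).re := by
    intro t ht
    have ht0 : 0 < t := by linarith [ht.1]
    have e : Λ' t = ((N / t : ℝ) : ℂ) + I * (PD κ (σ + t * I) - N / (t * I)) + (2 / D ^ 2 : ℝ) * I := by
      rw [hNt]
      simp only [hΛ']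
      push_cast
      linear_combination (-(N : ℂ) / t) * Complex.I_sq
    rw [e, Complex.add_re, Complex.add_re, Complex.ofReal_re]
    have e2 : (((2 / D ^ 2 : ℝ) : ℂ) * I).re = 0 := by rw [Complex.re_ofReal_mul, Complex.I_re, mul_zero]
    rw [e2, add_zero]
    have h3 := Complex.abs_re_le_norm (I * (PD κ (σ + t * I) - N / (t * I)))
    rw [norm_mul, Complex.norm_I, one_mul] at h3
    have h4 := (abs_le.1 (h3.trans (hE t ht))).1
    have h5 : N / (2 * T) ≤ N / t := div_le_div_of_nonneg_left (by linarith) ht0 ht.2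
    have h6 : (N : ℝ) / (2 * T) = N / (4 * T) + N / (4 * T) := by
      field_simp
      ring
    rw [hρ]
    linarith
  have h2 : ∀ t ∈ Icc (T / 2) (2 * T), ‖Λ' t‖ ≤ 17 * ρ := by
    intro t ht
    have ht0 : 0 < t := by linarith [ht.1]
    simp only [hΛ']
    rw [norm_mul, Complex.norm_I, one_mul]
    have e : PD κ (σ + t * I) + 2 / (D : ℂ) ^ 2 = (PD κ (σ + t * I) - N / (t * I)) +
        (N / (t * I) + 2 / (D : ℂ) ^ 2) := by ring
    rw [e]
    have h3 : ‖(N : ℂ) / (t * I)‖ ≤ 2 * N / T := by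
      rw [hNt, norm_mul, norm_neg, Complex.norm_I, mul_one, Complex.norm_real, Real.norm_of_nonneg (by positivity)]
      rw [div_le_div_iff₀ ht0 hTpos]
      nlinarith [ht.1]
    have h4 : ‖(2 : ℂ) / (D : ℂ) ^ 2‖ ≤ 2 * N / T := by
      rw [norm_div, norm_pow, Complex.norm_real, Real.norm_eq_abs, sq_abs]
      have e2 : ‖(2 : ℂ)‖ = 2 := by simp
      rw [e2, div_le_div_iff₀ hD2 hTpos]
      nlinarith
    calc _ ≤ N / (4 * T) + (2 * N / T + 2 * N / T) :=
          (norm_add_le _ _).trans (add_le_add (hE t ht) ((norm_add_le _ _).trans (add_le_add h3 h4)))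
      _ = 17 * ρ := by
        rw [hρ]
        field_simp
        ring
  -- the size
  have hpow : ∀ t ∈ Icc (T / 2) (2 * T), t ^ x ≤ 2 ^ |x| * T ^ x := by
    intro t ht
    have ht0 : 0 < t := by linarith [ht.1]
    have e1 : t ^ x = (t / T) ^ x * T ^ x := by
      rw [← Real.mul_rpow (by positivity) hTpos.le]
      congr 1
      field_simp
    rw [e1]
    refine mul_le_mul_of_nonneg_right ?_ (by positivity)
    have hr1 : 1 / 2 ≤ t / T := by
      rw [div_le_div_iff₀ (by norm_num) hTpos]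
      linarith [ht.1]
    have hr2 : t / T ≤ 2 := by
      rw [div_le_iff₀ hTpos]
      exact ht.2
    rcases le_total 0 x with h0 | h0
    · rw [abs_of_nonneg h0]
      exact Real.rpow_le_rpow (by positivity) hr2 h0
    · rw [abs_of_nonpos h0]
      refine (Real.rpow_le_rpow_of_nonpos (by norm_num) hr1 h0).trans (le_of_eq ?_)
      rw [one_div, Real.inv_rpow (by norm_num), Real.rpow_neg (by norm_num)]
  set M : ℝ := Real.exp (σ ^ 2) * (C0 * (2 ^ |x| * T ^ x)) with hM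
  have hM0 : 0 ≤ M := by positivity
  have hu2 : ∀ t ∈ Icc (T / 2) (2 * T), ‖u t‖ ≤ M := by
    intro t ht
    have ht0 : 0 < t := by linarith [ht.1]
    simp only [hu]
    rw [norm_mul, norm_mul]
    have e1 : ‖cexp (-(lam * t) * I)‖ = 1 := by
      rw [Complex.norm_exp]
      simp
    rw [e1, mul_one]
    refine mul_le_mul ?_ ?_ (norm_nonneg _) (Real.exp_pos _).le
    · rw [ww_norm]
      refine Real.exp_le_exp.2 ?_
      have e2 : ((σ : ℂ) + t * I).re = σ := by simp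
      rw [e2, div_le_iff₀ hD2]
      nlinarith [sq_nonneg (((σ : ℂ) + t * I).im - T), sq_nonneg σ]
    · exact (hY t (by linarith [ht.1])).trans (mul_le_mul_of_nonneg_left (hpow t ht) hC0)
  have hfin := vdc hab hρ0 hM0 (by norm_num : (0 : ℝ) ≤ 17) hder1 hder2 hcont h1 h2 hu2
  refine hfin.trans ?_
  have hsq : 1 / (2 * √T) ≤ √ρ := by
    refine Real.le_sqrt_of_sq_le ?_
    rw [div_pow, mul_pow, Real.sq_sqrt hTpos.le, hρ, one_pow, div_le_div_iff₀ (by positivity) (by positivity)]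
    nlinarith
  have hsT : 0 < √T := Real.sqrt_pos.2 hTpos
  have hsρ : 0 < √ρ := Real.sqrt_pos.2 hρ0
  calc (6 + 2 * 17) * M / √ρ ≤ (6 + 2 * 17) * M / (1 / (2 * √T)) := by gcongr
    _ = 80 * M * √T := by
      field_simp
      ring
    _ = _ := by
      rw [hM]
      ring

end Pool.Agent.TH949.RES
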