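import Pool.Agent.TH949.RES.Osc2
import Pool.Agent.TH949.RES.Exp
import Pool.Agent.TH949.RES.Main
import Pool.Agent.H388LH.ZG

/-! Oscillatory integrals with the quotient of the Gamma factors and the zeta function. -/

set_option autoImplicit false

namespace Pool.Agent.TH949.RES

open Filter Topology Complex MeasureTheory Set

variable {m : ℕ}

/-- conjugation-closed families -/
def CC {N : ℕ} (κ : Fin N → ℂ) : Prop :=
  Multiset.map (fun j => (starRingEnd ℂ) (κ j)) Finset.univ.val = Multiset.map κ Finset.univ.val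

/-- the family `0, κ` -/
def c0 (κ : Fin m → ℂ) : Fin (m + 1) → ℂ := Fin.cons 0 κ

theorem CC_cons {κ : Fin m → ℂ} (h : CC κ) : CC (c0 κ) := by
  unfold CC at *
  have h1 : ∀ f : ℂ → ℂ, Multiset.map (fun j => f (c0 κ j)) (Finset.univ : Finset (Fin (m + 1))).val =
      f 0 ::ₘ Multiset.map (fun j => f (κ j)) (Finset.univ : Finset (Fin m)).val := by
    intro f
    rw [Fin.univ_succ, Finset.cons_val, Multiset.map_cons, Finset.map_val, Multiset.map_map]
    rfl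
  rw [h1 (starRingEnd ℂ), map_zero, h]
  exact (h1 id).symm

theorem zeta_fe {s : ℂ} (hs : s.im ≠ 0) : riemannZeta s * Gammaℝ s = riemannZeta (1 - s) * Gammaℝ (1 - s) := by
  have h0 : s ≠ 0 := by
    rintro rfl
    simp at hs
  have h1 : 1 - s ≠ 0 := by
    intro h
    apply hs
    have := congrArg Complex.im h
    simpa using this
  have hG1 : Gammaℝ s ≠ 0 := gr_ne0 hs
  have hG2 : Gammaℝ (1 - s) ≠ 0 := gr_ne0 (by simpa using hs)
  rw [riemannZeta_def_of_ne_zero h0, riemannZeta_def_of_ne_zero h1, div_mul_cancel₀ _ hG1,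
    div_mul_cancel₀ _ hG2, completedRiemannZeta_one_sub]

theorem YY_zeta (κ : Fin m → ℂ) (Q : ℝ) {s : ℂ} (hs : s.im ≠ 0) :
    YY (c0 κ) Q s * riemannZeta s = YY κ Q s * riemannZeta (1 - s) := by
  have hG2 : Gammaℝ (1 - s) ≠ 0 := gr_ne0 (by simpa using hs)
  have h := zeta_fe hs
  unfold YY
  rw [Fin.prod_univ_succ]
  simp only [c0, Fin.cons_zero, add_zero, Fin.cons_succ]
  field_simp
  linear_combination (∏ x, (Gammaℝ (s + κ x) / Gammaℝ (1 - s + κ x))) * h

theorem norm_zeta_one_sub {x t : ℝ} (hx : x ≤ 3 / 4) (ht : 1 ≤ t) :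
    ‖riemannZeta (1 - (x + t * I))‖ ≤ 6 * (1 + |x| + t) := by
  have h1 : ‖riemannZeta (1 - (x + t * I))‖ = ‖riemannZeta ((starRingEnd ℂ) (1 - (x + t * I)))‖ := by
    rw [riemannZeta_conj, RCLike.norm_conj]
  rw [h1]
  have e : (starRingEnd ℂ) (1 - (x + t * I)) = ((1 - x : ℝ) : ℂ) + t * I := by
    simp only [map_sub, map_add, map_one, map_mul, Complex.conj_ofReal, Complex.conj_I]
    push_cast
    ring
  rw [e]
  have h2 := Pool.Agent.H388LH.zeta_growth (s := ((1 - x : ℝ) : ℂ) + t * I) (by simp; linarith) (by simpa using ht)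
  refine h2.trans ?_
  have h3 : ‖((1 - x : ℝ) : ℂ) + t * I‖ ≤ 1 + |x| + t := by
    refine (norm_add_le _ _).trans ?_
    rw [norm_mul, Complex.norm_I, mul_one, Complex.norm_real, Complex.norm_real, Real.norm_eq_abs,
      Real.norm_of_nonneg (by linarith)]
    have := abs_sub (1 : ℝ) x
    rw [abs_one] at this
    linarith
  linarith

/-- growth of `Y ζ` -/
theorem growthZ {κ : Fin m → ℂ} (hκ : CC κ) (Q : ℝ) : ∃ C A T1 : ℝ, 0 ≤ C ∧ 0 ≤ A ∧ 1 ≤ T1 ∧ ∀ t : ℝ, T1 ≤ t →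
    ∀ x : ℝ, |x| ≤ 2 → ‖YY (c0 κ) Q (x + t * I) * riemannZeta (x + t * I)‖ ≤ C * t ^ A := by
  obtain ⟨C1, T1, hC1, hT1, h1⟩ := YY_norm' (CC_cons hκ) Q 2
  obtain ⟨C2, T2, hC2, hT2, h2⟩ := YY_norm' hκ Q 2
  refine ⟨(C1 + C2) * 24, ((m + 1 : ℕ) : ℝ) * (5 / 2) + 1, max T1 T2, by positivity, by positivity,
    hT1.trans (le_max_left _ _), fun t ht x hx => ?_⟩
  have ht1 : T1 ≤ t := (le_max_left _ _).trans ht
  have ht2 : T2 ≤ t := (le_max_right _ _).trans ht
  have ht0 : 1 ≤ t := hT1.trans ht1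
  have htp : 0 < t := by linarith
  have hx' := abs_le.1 hx
  have hm : (0 : ℝ) ≤ m := Nat.cast_nonneg m
  have hpow : ∀ k : ℕ, k ≤ m + 1 → t ^ ((k : ℝ) * (x - 1 / 2)) ≤ t ^ (((m + 1 : ℕ) : ℝ) * (5 / 2)) := by
    intro k hk
    refine Real.rpow_le_rpow_of_exponent_le ht0 ?_
    have h0 : (0 : ℝ) ≤ k := Nat.cast_nonneg k
    have hk' : (k : ℝ) ≤ ((m + 1 : ℕ) : ℝ) := by exact_mod_cast hk
    nlinarith
  have hA : t ^ (((m + 1 : ℕ) : ℝ) * (5 / 2) + 1) = t ^ (((m + 1 : ℕ) : ℝ) * (5 / 2)) * t := by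
    rw [Real.rpow_add htp, Real.rpow_one]
  rw [hA]
  have hP : 0 ≤ t ^ (((m + 1 : ℕ) : ℝ) * (5 / 2)) := by positivity
  have himne : ((x : ℂ) + t * I).im ≠ 0 := by simp; linarith
  rcases le_or_gt (1 / 4) x with h | h
  · rw [norm_mul]
    have a1 := (h1 t ht1 x hx).trans (mul_le_mul_of_nonneg_left (hpow (m + 1) le_rfl) hC1)
    have a2 := Pool.Agent.H388LH.zeta_growth (s := (x : ℂ) + t * I) (by simpa using h) (by simpa using ht0)
    have a3 : ‖(x : ℂ) + t * I‖ ≤ 2 + t := by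
      refine (norm_add_le _ _).trans ?_
      rw [norm_mul, Complex.norm_I, mul_one, Complex.norm_real, Complex.norm_real, Real.norm_eq_abs,
        Real.norm_of_nonneg htp.le]
      linarith
    have a4 : ‖riemannZeta (x + t * I)‖ ≤ 24 * t := by linarith
    calc _ ≤ C1 * t ^ (((m + 1 : ℕ) : ℝ) * (5 / 2)) * (24 * t) := mul_le_mul a1 a4 (norm_nonneg _) (by positivity)
      _ ≤ _ := by
        have : 0 ≤ C2 * 24 * (t ^ (((m + 1 : ℕ) : ℝ) * (5 / 2)) * t) := by positivity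
        nlinarith
  · rw [YY_zeta κ Q himne, norm_mul]
    have a1 := (h2 t ht2 x hx).trans (mul_le_mul_of_nonneg_left (hpow m (by omega)) hC2)
    have a2 := norm_zeta_one_sub (x := x) (t := t) (by linarith) ht0
    have a4 : ‖riemannZeta (1 - (x + t * I))‖ ≤ 24 * t := by linarith
    calc _ ≤ C2 * t ^ (((m + 1 : ℕ) : ℝ) * (5 / 2)) * (24 * t) := mul_le_mul a1 a4 (norm_nonneg _) (by positivity)
      _ ≤ _ := by
        have : 0 ≤ C1 * 24 * (t ^ (((m + 1 : ℕ) : ℝ) * (5 / 2)) * t) := by positivity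
        nlinarith

/-- moving a segment of a vertical line -/
theorem shift_seg {g : ℂ → ℂ} {T0 : ℝ} (hd : ∀ s : ℂ, T0 < s.im → DifferentiableAt ℂ g s) {T : ℝ} (hT0 : 0 < T0)
    (hT : 2 * T0 < T) (σ σ' : ℝ) {B : ℝ} (hB : ∀ x ∈ uIoc σ σ', ∀ c : ℝ, c = 1 / 2 ∨ c = 2 →
      ‖g (x + ((c * T : ℝ) : ℂ) * I)‖ ≤ B) :
    ‖∫ t in (T / 2)..(2 * T), g (σ + t * I)‖ ≤ ‖∫ t in (T / 2)..(2 * T), g (σ' + t * I)‖ + 2 * (B * |σ' - σ|) := by
  have h1 := Complex.integral_boundary_rect_eq_zero_of_differentiableOn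
    g ((σ : ℂ) + ((1 / 2 * T : ℝ) : ℂ) * I)
    ((σ' : ℂ) + ((2 * T : ℝ) : ℂ) * I) (by
      intro s hs
      have h2 := hs.2
      simp only [Set.mem_preimage] at h2
      have e1 : ((σ : ℂ) + ((1 / 2 * T : ℝ) : ℂ) * I).im = 1 / 2 * T := by simp
      have e2 : ((σ' : ℂ) + ((2 * T : ℝ) : ℂ) * I).im = 2 * T := by simp
      rw [e1, e2, uIcc_of_le (by linarith)] at h2
      refine (hd s ?_).differentiableWithinAt
      linarith [h2.1])
  have e1 : ((σ : ℂ) + ((1 / 2 * T : ℝ) : ℂ) * I).im = 1 / 2 * T := by simp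
  have e2 : ((σ' : ℂ) + ((2 * T : ℝ) : ℂ) * I).im = 2 * T := by simp
  have e3 : ((σ : ℂ) + ((1 / 2 * T : ℝ) : ℂ) * I).re = σ := by simp
  have e4 : ((σ' : ℂ) + ((2 * T : ℝ) : ℂ) * I).re = σ' := by simp
  rw [e1, e2, e3, e4] at h1
  simp only [smul_eq_mul] at h1
  have e5 : T / 2 = 1 / 2 * T := by ring
  rw [e5]
  have b1 := intervalIntegral.norm_integral_le_of_norm_le_const (a := σ) (b := σ')
    (f := fun x : ℝ => g (x + ((1 / 2 * T : ℝ) : ℂ) * I)) (C := B) (fun x hx => hB x hx (1 / 2) (Or.inl rfl))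
  have b2 := intervalIntegral.norm_integral_le_of_norm_le_const (a := σ) (b := σ')
    (f := fun x : ℝ => g (x + ((2 * T : ℝ) : ℂ) * I)) (C := B) (fun x hx => hB x hx 2 (Or.inr rfl))
  set A1 := ∫ x in σ..σ', g (x + ((1 / 2 * T : ℝ) : ℂ) * I)
  set A2 := ∫ x in σ..σ', g (x + ((2 * T : ℝ) : ℂ) * I)
  set R := ∫ t in (1 / 2 * T)..(2 * T), g (σ' + t * I)
  set Lf := ∫ t in (1 / 2 * T)..(2 * T), g (σ + t * I)
  have h2 : I * Lf = A1 - A2 + I * R := by linear_combination -h1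
  have h3 := congrArg norm h2
  rw [norm_mul, Complex.norm_I, one_mul] at h3
  rw [h3]
  refine (norm_add_le _ _).trans ?_
  rw [norm_mul, Complex.norm_I, one_mul]
  have := norm_sub_le A1 A2
  linarith

/-- the weight times `Y ζ` -/
noncomputable def fz (κ : Fin m → ℂ) (Q T : ℝ) (s : ℂ) : ℂ :=
  ww T (DD T) s * YY (c0 κ) Q s * riemannZeta s

theorem fz_diff (κ : Fin m → ℂ) (Q T : ℝ) {s : ℂ} (hs : 2 * KK (c0 κ) + 5 < s.im) :
    DifferentiableAt ℂ (fz κ Q T) s := by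
  have hK := KK_nonneg (c0 κ)
  refine ((ww_diff T (DD T) s).mul (YY_hd hs.le).differentiableAt).mul (differentiableAt_riemannZeta ?_)
  rintro rfl
  simp at hs
  linarith

theorem norm_exp_lam (lam x t : ℝ) : ‖cexp (-(lam * (x + t * I)))‖ = Real.exp (-(lam * x)) := by
  rw [Complex.norm_exp]
  simp

/-- right line -/
theorem rightline {κ : Fin m → ℂ} (hκ : CC κ) (Q : ℝ) {σ : ℝ} (hσ : 1 < σ) :
    ∃ C T1 : ℝ, 0 ≤ C ∧ ∀ T : ℝ, T1 ≤ T → T ≤ DD T ^ 2 → ∀ lam : ℝ,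
      ‖∫ t in (T / 2)..(2 * T), fz κ Q T (σ + t * I) * cexp (-(lam * (σ + t * I)))‖ ≤
        C * Real.exp (-(lam * σ)) * (T ^ (((m + 1 : ℕ) : ℝ) * (σ - 1 / 2)) * √T) := by
  obtain ⟨C, T1, hC, hT1, h⟩ := osc' (by omega : 1 ≤ m + 1) (CC_cons hκ) Q σ
  have hsum : Summable fun n : ℕ => ((n : ℝ) + 1) ^ (-σ) := by
    have h1 := (summable_nat_add_iff 1).2 (Real.summable_nat_rpow.2 (by linarith : -σ < -1))
    refine h1.congr fun n => ?_
    push_cast
    rfl
  have hK := KK_nonneg (c0 κ)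
  refine ⟨(∑' n : ℕ, ((n : ℝ) + 1) ^ (-σ)) * C, max T1 (2 * (2 * KK (c0 κ) + 5) + 1), ?_, fun T hT hD lam => ?_⟩
  · exact mul_nonneg (tsum_nonneg fun n => by positivity) hC
  have hT1' : T1 ≤ T := (le_max_left _ _).trans hT
  have hT2 : 2 * (2 * KK (c0 κ) + 5) + 1 ≤ T := (le_max_right _ _).trans hT
  have hTp : 0 < T := by linarith
  have hab : T / 2 ≤ 2 * T := by linarith
  set V : ℝ → ℂ := fun t => ww T (DD T) (σ + t * I) * YY (c0 κ) Q (σ + t * I) with hV
  have hVc : ContinuousOn V (Icc (T / 2) (2 * T)) := by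
    intro t ht
    have hl := line_hd σ t
    have a1 := (ww_hd T (DD T) (σ + t * I)).comp t hl
    have e1 : ((σ : ℂ) + t * I).im = t := by simp
    have a2 := (YY_hd (κ := c0 κ) (Q := Q) (s := σ + t * I) (by rw [e1]; linarith [ht.1])).comp t hl
    exact ((a1.mul a2).continuousAt).continuousWithinAt
  obtain ⟨M, hM⟩ := isCompact_Icc.exists_bound_of_continuousOn hVc
  have hterm : ∀ (n : ℕ) (t : ℝ), 1 / ((n : ℂ) + 1) ^ ((σ : ℂ) + t * I) * cexp (-(lam * (σ + t * I))) =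
      ((((n : ℝ) + 1) ^ (-σ) * Real.exp (-(lam * σ)) : ℝ) : ℂ) * cexp (-(((lam + Real.log ((n : ℝ) + 1) : ℝ) : ℂ) * t) * I) := by
    intro n t
    have hn : (0 : ℝ) < (n : ℝ) + 1 := by positivity
    have hne : ((n : ℂ) + 1) ≠ 0 := by exact_mod_cast hn.ne'
    rw [Real.rpow_def_of_pos hn, ← Real.exp_add, one_div, Complex.cpow_def_of_ne_zero hne, ← Complex.exp_neg,
      ← Complex.exp_add]
    have e : Complex.log ((n : ℂ) + 1) = ((Real.log ((n : ℝ) + 1) : ℝ) : ℂ) := by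
      rw [Complex.ofReal_log hn.le]
      push_cast
      rfl
    rw [e, Complex.ofReal_exp, ← Complex.exp_add]
    congr 1
    push_cast
    ring
  have hne : ∀ (y : ℝ) (t : ℝ), ‖cexp (-((y : ℂ) * t) * I)‖ = 1 := by
    intro y t
    rw [Complex.norm_exp]
    simp
  have h1 := hs_int (ι := ℕ) hab
    (F := fun n t => V t * (1 / ((n : ℂ) + 1) ^ ((σ : ℂ) + t * I) * cexp (-(lam * (σ + t * I)))))
    (f := fun t => fz κ Q T (σ + t * I) * cexp (-(lam * (σ + t * I))))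
    (c := fun n => |M| * (((n : ℝ) + 1) ^ (-σ) * Real.exp (-(lam * σ))))
    (fun n => by
      have : (fun t : ℝ => V t * (1 / ((n : ℂ) + 1) ^ ((σ : ℂ) + t * I) * cexp (-(lam * (σ + t * I))))) =
          fun t : ℝ => V t * (((((n : ℝ) + 1) ^ (-σ) * Real.exp (-(lam * σ)) : ℝ) : ℂ) *
            cexp (-(((lam + Real.log ((n : ℝ) + 1) : ℝ) : ℂ) * t) * I)) := by
        funext t
        rw [hterm]
      rw [this]
      exact hVc.mul (by fun_prop))
    ((hsum.mul_right (Real.exp (-(lam * σ)))).mul_left |M|)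
    (fun n t ht => by
      rw [hterm, norm_mul (V t), norm_mul _ (cexp _), hne, mul_one, Complex.norm_real, Real.norm_of_nonneg (by positivity)]
      exact mul_le_mul_of_nonneg_right ((hM t ht).trans (le_abs_self M)) (by positivity))
    (fun t ht => by
      have h2 : HasSum (fun n : ℕ => 1 / ((n : ℂ) + 1) ^ ((σ : ℂ) + t * I)) (riemannZeta (σ + t * I)) := by
        rw [zeta_eq_tsum_one_div_nat_add_one_cpow (by simpa using hσ)]
        refine Summable.hasSum (Summable.of_norm (hsum.congr fun n => ?_))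
        have hn : (0 : ℝ) < (n : ℝ) + 1 := by positivity
        have e : ((n : ℂ) + 1) = (((n : ℝ) + 1 : ℝ) : ℂ) := by push_cast; rfl
        rw [norm_div, norm_one, e, Complex.norm_cpow_eq_rpow_re_of_pos hn, Real.rpow_neg hn.le]
        simp
      have h3 := (h2.mul_right (cexp (-(lam * (σ + t * I))))).mul_left (V t)
      have e1 : V t * (riemannZeta (σ + t * I) * cexp (-(lam * (σ + t * I)))) =
          fz κ Q T (σ + t * I) * cexp (-(lam * (σ + t * I))) := by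
        rw [hV]
        unfold fz
        ring
      rwa [e1] at h3)
  rw [← h1.tsum_eq]
  have h4 : ∀ n : ℕ, ‖∫ t in (T / 2)..(2 * T), V t * (1 / ((n : ℂ) + 1) ^ ((σ : ℂ) + t * I) *
      cexp (-(lam * (σ + t * I))))‖ ≤ ((n : ℝ) + 1) ^ (-σ) * (Real.exp (-(lam * σ)) *
        (C * (T ^ (((m + 1 : ℕ) : ℝ) * (σ - 1 / 2)) * √T))) := by
    intro n
    have e2 : ∀ t : ℝ, V t * (1 / ((n : ℂ) + 1) ^ ((σ : ℂ) + t * I) * cexp (-(lam * (σ + t * I)))) =
        ((((n : ℝ) + 1) ^ (-σ) * Real.exp (-(lam * σ)) : ℝ) : ℂ) * (V t *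
          cexp (-(((lam + Real.log ((n : ℝ) + 1) : ℝ) : ℂ) * t) * I)) := by
      intro t
      rw [hterm]
      ring
    simp_rw [e2]
    rw [intervalIntegral.integral_const_mul, norm_mul, Complex.norm_real, Real.norm_of_nonneg (by positivity),
      mul_assoc]
    refine mul_le_mul_of_nonneg_left (mul_le_mul_of_nonneg_left ?_ (Real.exp_pos _).le) (by positivity)
    exact h T (DD T) _ hT1' hD
  refine (tsum_of_norm_bounded (hsum.mul_right _).hasSum h4).trans (le_of_eq ?_)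
  rw [tsum_mul_right]
  ring

/-- left line -/
theorem leftline (hm : 1 ≤ m) {κ : Fin m → ℂ} (hκ : CC κ) (Q : ℝ) {σ : ℝ} (hσ : σ < 0) :
    ∃ C T1 : ℝ, 0 ≤ C ∧ ∀ T : ℝ, T1 ≤ T → T ≤ DD T ^ 2 → ∀ lam : ℝ,
      ‖∫ t in (T / 2)..(2 * T), fz κ Q T (σ + t * I) * cexp (-(lam * (σ + t * I)))‖ ≤
        C * Real.exp (-(lam * σ)) * (T ^ ((m : ℝ) * (σ - 1 / 2)) * √T) := by
  obtain ⟨C, T1, hC, hT1, h⟩ := osc' hm hκ Q σ
  have hsum : Summable fun n : ℕ => ((n : ℝ) + 1) ^ (-(1 - σ)) := by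
    have h1 := (summable_nat_add_iff 1).2 (Real.summable_nat_rpow.2 (by linarith : -(1 - σ) < -1))
    refine h1.congr fun n => ?_
    push_cast
    rfl
  have hK := KK_nonneg κ
  refine ⟨(∑' n : ℕ, ((n : ℝ) + 1) ^ (-(1 - σ))) * C, max T1 (2 * (2 * KK κ + 5) + 1), ?_, fun T hT hD lam => ?_⟩
  · exact mul_nonneg (tsum_nonneg fun n => by positivity) hC
  have hT1' : T1 ≤ T := (le_max_left _ _).trans hT
  have hT2 : 2 * (2 * KK κ + 5) + 1 ≤ T := (le_max_right _ _).trans hT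
  have hTp : 0 < T := by linarith
  have hab : T / 2 ≤ 2 * T := by linarith
  set V : ℝ → ℂ := fun t => ww T (DD T) (σ + t * I) * YY κ Q (σ + t * I) with hV
  have hVc : ContinuousOn V (Icc (T / 2) (2 * T)) := by
    intro t ht
    have hl := line_hd σ t
    have a1 := (ww_hd T (DD T) (σ + t * I)).comp t hl
    have e1 : ((σ : ℂ) + t * I).im = t := by simp
    have a2 := (YY_hd (κ := κ) (Q := Q) (s := σ + t * I) (by rw [e1]; linarith [ht.1])).comp t hl
    exact ((a1.mul a2).continuousAt).continuousWithinAt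
  obtain ⟨M, hM⟩ := isCompact_Icc.exists_bound_of_continuousOn hVc
  have hterm : ∀ (n : ℕ) (t : ℝ), 1 / ((n : ℂ) + 1) ^ (1 - ((σ : ℂ) + t * I)) * cexp (-(lam * (σ + t * I))) =
      ((((n : ℝ) + 1) ^ (-(1 - σ)) * Real.exp (-(lam * σ)) : ℝ) : ℂ) *
        cexp (-(((lam - Real.log ((n : ℝ) + 1) : ℝ) : ℂ) * t) * I) := by
    intro n t
    have hn : (0 : ℝ) < (n : ℝ) + 1 := by positivity
    have hne : ((n : ℂ) + 1) ≠ 0 := by exact_mod_cast hn.ne'
    rw [Real.rpow_def_of_pos hn, ← Real.exp_add, one_div, Complex.cpow_def_of_ne_zero hne, ← Complex.exp_neg,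
      ← Complex.exp_add]
    have e : Complex.log ((n : ℂ) + 1) = ((Real.log ((n : ℝ) + 1) : ℝ) : ℂ) := by
      rw [Complex.ofReal_log hn.le]
      push_cast
      rfl
    rw [e, Complex.ofReal_exp, ← Complex.exp_add]
    congr 1
    push_cast
    ring
  have hne : ∀ (y : ℝ) (t : ℝ), ‖cexp (-((y : ℂ) * t) * I)‖ = 1 := by
    intro y t
    rw [Complex.norm_exp]
    simp
  have h1 := hs_int (ι := ℕ) hab
    (F := fun n t => V t * (1 / ((n : ℂ) + 1) ^ (1 - ((σ : ℂ) + t * I)) * cexp (-(lam * (σ + t * I)))))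
    (f := fun t => fz κ Q T (σ + t * I) * cexp (-(lam * (σ + t * I))))
    (c := fun n => |M| * (((n : ℝ) + 1) ^ (-(1 - σ)) * Real.exp (-(lam * σ))))
    (fun n => by
      have : (fun t : ℝ => V t * (1 / ((n : ℂ) + 1) ^ (1 - ((σ : ℂ) + t * I)) * cexp (-(lam * (σ + t * I))))) =
          fun t : ℝ => V t * (((((n : ℝ) + 1) ^ (-(1 - σ)) * Real.exp (-(lam * σ)) : ℝ) : ℂ) *
            cexp (-(((lam - Real.log ((n : ℝ) + 1) : ℝ) : ℂ) * t) * I)) := by
        funext t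
        rw [hterm]
      rw [this]
      exact hVc.mul (by fun_prop))
    ((hsum.mul_right (Real.exp (-(lam * σ)))).mul_left |M|)
    (fun n t ht => by
      rw [hterm, norm_mul (V t), norm_mul _ (cexp _), hne, mul_one, Complex.norm_real, Real.norm_of_nonneg (by positivity)]
      exact mul_le_mul_of_nonneg_right ((hM t ht).trans (le_abs_self M)) (by positivity))
    (fun t ht => by
      have htp : ((σ : ℂ) + t * I).im ≠ 0 := by
        have := ht.1
        simp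
        intro h0
        linarith
      have h2 : HasSum (fun n : ℕ => 1 / ((n : ℂ) + 1) ^ (1 - ((σ : ℂ) + t * I))) (riemannZeta (1 - (σ + t * I))) := by
        rw [zeta_eq_tsum_one_div_nat_add_one_cpow (by simp; linarith)]
        refine Summable.hasSum (Summable.of_norm (hsum.congr fun n => ?_))
        have hn : (0 : ℝ) < (n : ℝ) + 1 := by positivity
        have e : ((n : ℂ) + 1) = (((n : ℝ) + 1 : ℝ) : ℂ) := by push_cast; rfl
        rw [norm_div, norm_one, e, Complex.norm_cpow_eq_rpow_re_of_pos hn, Real.rpow_neg hn.le]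
        simp
      have h3 := (h2.mul_right (cexp (-(lam * (σ + t * I))))).mul_left (V t)
      have e1 : V t * (riemannZeta (1 - (σ + t * I)) * cexp (-(lam * (σ + t * I)))) =
          fz κ Q T (σ + t * I) * cexp (-(lam * (σ + t * I))) := by
        have := YY_zeta κ Q htp
        rw [hV]
        unfold fz
        linear_combination (-(ww T (DD T) (σ + t * I) * cexp (-(lam * (σ + t * I))))) * this
      rwa [e1] at h3)
  rw [← h1.tsum_eq]
  have h4 : ∀ n : ℕ, ‖∫ t in (T / 2)..(2 * T), V t * (1 / ((n : ℂ) + 1) ^ (1 - ((σ : ℂ) + t * I)) *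
      cexp (-(lam * (σ + t * I))))‖ ≤ ((n : ℝ) + 1) ^ (-(1 - σ)) * (Real.exp (-(lam * σ)) *
        (C * (T ^ ((m : ℝ) * (σ - 1 / 2)) * √T))) := by
    intro n
    have e2 : ∀ t : ℝ, V t * (1 / ((n : ℂ) + 1) ^ (1 - ((σ : ℂ) + t * I)) * cexp (-(lam * (σ + t * I)))) =
        ((((n : ℝ) + 1) ^ (-(1 - σ)) * Real.exp (-(lam * σ)) : ℝ) : ℂ) * (V t *
          cexp (-(((lam - Real.log ((n : ℝ) + 1) : ℝ) : ℂ) * t) * I)) := by
      intro t
      rw [hterm]
      ring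
    simp_rw [e2]
    rw [intervalIntegral.integral_const_mul, norm_mul, Complex.norm_real, Real.norm_of_nonneg (by positivity),
      mul_assoc]
    refine mul_le_mul_of_nonneg_left (mul_le_mul_of_nonneg_left ?_ (Real.exp_pos _).le) (by positivity)
    exact h T (DD T) _ hT1' hD
  refine (tsum_of_norm_bounded (hsum.mul_right _).hasSum h4).trans (le_of_eq ?_)
  rw [tsum_mul_right]
  ring

end Pool.Agent.TH949.RES
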