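import Pool.Agent.TH949.RES.MainZ
import Pool.Agent.TH949.RES.GL3
import Pool.Agent.W189.TP.Main

/-! Spherical cusp forms on `PGL_n` over `ℚ`: small Hecke eigenvalues and bounds towards Ramanujan. -/

set_option autoImplicit false

namespace Pool.Agent.TH949.RES

open Filter Topology Complex
open Pool.Agent.W189.TP (DS extend extend_id DS_diff PS LL LL_nonneg exp_LL rexp_LL summable_pp zetaS norm_term
  summable_primes_subtype summ_cplx summ_mono)

variable {n : ℕ}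

/-- `log L(s, π × π~) = ∑_p ∑_{k ≥ 1} |∑_i α_{i,p}^k|² / (k p^{ks})`; the pair `(p, k)` stands for the exponent
`k + 1` -/
noncomputable def logL (α : Nat.Primes → Fin n → ℂ) (s : ℂ) : ℂ :=
  ∑' x : Nat.Primes × ℕ, ((‖∑ i, α x.1 i ^ (x.2 + 1)‖ ^ 2 / ((x.2 : ℝ) + 1) : ℝ) : ℂ) *
    (((x.1 : ℕ) : ℂ) ^ (-s)) ^ (x.2 + 1)

/-- Properties of the Satake parameters `α p` (all primes `p`) and of the Langlands parameters `μ` at the real place
of a spherical cusp form `φ` on `PGL_n` over `ℚ`. -/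
structure SphericalCuspForm (α : Nat.Primes → Fin n → ℂ) (μ : Fin n → ℂ) : Prop where
  /-- the Satake parameters are nonzero -/
  ne_zero : ∀ p i, α p i ≠ 0
  /-- `π_p` is unitary -/
  unitary : ∀ p, ∃ τ : Equiv.Perm (Fin n), ∀ i, α p (τ i) = ((starRingEnd ℂ) (α p i))⁻¹
  /-- `π_∞` is unitary -/
  unitary_real : ∃ τ : Equiv.Perm (Fin n), ∀ i, μ (τ i) = -(starRingEnd ℂ) (μ i)
  /-- absolute convergence of `L(s, π × π~)` for `Re s > 1` -/
  summable : ∀ σ : ℝ, 1 < σ → Summable fun x : Nat.Primes × ℕ =>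
    ‖∑ i, α x.1 i ^ (x.2 + 1)‖ ^ 2 / ((x.2 : ℝ) + 1) * (((x.1 : ℕ) : ℝ) ^ (-σ)) ^ (x.2 + 1)
  /-- `L(s, π × π~) = G(s) / (s - 1)` and `Ξ(s) = s (s - 1) L(s, π × π~) ∏ Γ_ℝ(s + μ_i - μ_j)` -/
  continuation : ∃ G Ξ : ℂ → ℂ, Differentiable ℂ G ∧ Differentiable ℂ Ξ ∧
    (∀ s : ℂ, 1 < s.re → G s = (s - 1) * Complex.exp (logL α s)) ∧
    (∀ a b : ℝ, ∃ C A : ℝ, ∀ s : ℂ, a ≤ s.re → s.re ≤ b → ‖G s‖ ≤ C * (1 + |s.im|) ^ A) ∧
    (∀ s : ℂ, 1 < s.re → Ξ s = s * G s * ∏ i, ∏ j, Complex.Gammaℝ (s + (μ i - μ j))) ∧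
    ∀ s : ℂ, Ξ (1 - s) = Ξ s

/-- the restriction to the index type of `W189` -/
def rs (α : Nat.Primes → Fin n → ℂ) : PS ∅ → Fin n → ℂ := fun p => α p.1

/-- the index types -/
def pe : PS ∅ × ℕ ≃ Nat.Primes × ℕ :=
  Equiv.prodCongr (Equiv.subtypeUnivEquiv fun p => Finset.notMem_empty p) (Equiv.refl ℕ)

/-- the coefficients of `log L(s, π × π~)` -/
noncomputable def d0 (α : PS ∅ → Fin n → ℂ) (x : PS ∅ × ℕ) : ℝ :=
  ‖∑ i, α x.1 i ^ (x.2 + 1)‖ ^ 2 / ((x.2 : ℝ) + 1)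

/-- the coefficients of `log L(s, π × π~) - log ζ(s)` -/
noncomputable def d1 (α : PS ∅ → Fin n → ℂ) (x : PS ∅ × ℕ) : ℝ :=
  (‖∑ i, α x.1 i ^ (x.2 + 1)‖ ^ 2 - 1) / ((x.2 : ℝ) + 1)

theorem d0_nonneg (α : PS ∅ → Fin n → ℂ) (x : PS ∅ × ℕ) : 0 ≤ d0 α x := by
  unfold d0
  positivity

theorem logL_eq (α : Nat.Primes → Fin n → ℂ) (s : ℂ) : logL α s = DS (d0 (rs α)) LL s := by
  unfold logL DS
  rw [← pe.tsum_eq]
  refine tsum_congr fun x => ?_
  rw [exp_LL]
  rfl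

theorem summable_d0 {α : Nat.Primes → Fin n → ℂ} {μ : Fin n → ℂ} (h : SphericalCuspForm α μ) {t : ℝ} (ht : 1 < t) :
    Summable fun x : PS ∅ × ℕ => |d0 (rs α) x| * Real.exp (-(t * LL x)) := by
  have h1 := (pe.summable_iff).2 (h.summable t ht)
  refine h1.congr fun x => ?_
  rw [abs_of_nonneg (d0_nonneg _ _), rexp_LL]
  rfl

theorem d1_eq (α : PS ∅ → Fin n → ℂ) (x : PS ∅ × ℕ) : d1 α x = d0 α x - 1 / ((x.2 : ℝ) + 1) := by
  unfold d0 d1
  ring

theorem inv_le_one' (k : ℕ) : |1 / ((k : ℝ) + 1)| ≤ 1 := by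
  rw [abs_of_nonneg (by positivity), div_le_one (by positivity)]
  have : (0 : ℝ) ≤ k := Nat.cast_nonneg _
  linarith

theorem summable_one {t : ℝ} (ht : 1 < t) : Summable fun x : PS ∅ × ℕ => Real.exp (-(t * LL x)) := by
  have h2 := summable_pp (S := ∅) (fun _ => 1) (fun _ => zero_le_one) (by linarith : 0 < t)
    ((summable_primes_subtype ht).congr fun p => (one_mul _).symm)
  simpa using h2

theorem summable_d1 {α : Nat.Primes → Fin n → ℂ} {μ : Fin n → ℂ} (h : SphericalCuspForm α μ) {t : ℝ} (ht : 1 < t) :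
    Summable fun x : PS ∅ × ℕ => |d1 (rs α) x| * Real.exp (-(t * LL x)) := by
  refine Summable.of_nonneg_of_le (fun x => by positivity) (fun x => ?_) ((summable_d0 h ht).add (summable_one ht))
  rw [d1_eq, ← one_mul (Real.exp (-(t * LL x)))]
  rw [one_mul, ← add_one_mul]
  refine mul_le_mul_of_nonneg_right ?_ (Real.exp_pos _).le
  refine (abs_sub _ _).trans ?_
  have := inv_le_one' x.2
  linarith

theorem exp_d1 {α : Nat.Primes → Fin n → ℂ} {μ : Fin n → ℂ} (h : SphericalCuspForm α μ) {s : ℂ} (hs : 1 < s.re) :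
    cexp (DS (d1 (rs α)) LL s) * riemannZeta s = cexp (DS (d0 (rs α)) LL s) := by
  have hz0 := zetaS (S := ∅) hs
  rw [Finset.prod_empty, mul_one] at hz0
  rw [← hz0, ← Complex.exp_add]
  congr 1
  have hz : Summable fun x : PS ∅ × ℕ => ((1 / ((x.2 : ℝ) + 1) : ℝ) : ℂ) * cexp (-(s * LL x)) := by
    refine Summable.of_norm_bounded (summable_one hs) fun x => ?_
    rw [norm_term (fun x : PS ∅ × ℕ => 1 / ((x.2 : ℝ) + 1)) LL s x]
    exact mul_le_of_le_one_left (Real.exp_pos _).le (inv_le_one' x.2)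
  have hd : Summable fun x : PS ∅ × ℕ => ((d1 (rs α) x : ℝ) : ℂ) * cexp (-(s * LL x)) :=
    summ_cplx LL_nonneg le_rfl (summable_d1 h hs)
  unfold DS
  rw [← hd.tsum_add hz]
  refine tsum_congr fun x => ?_
  rw [← add_mul, ← Complex.ofReal_add]
  congr 2
  rw [d1_eq]
  ring

theorem log2_le (x : PS ∅ × ℕ) : Real.log 2 ≤ LL x := by
  unfold LL
  have h1 : Real.log 2 ≤ Real.log ((x.1.1 : ℕ) : ℝ) := by
    refine Real.log_le_log (by norm_num) ?_
    exact_mod_cast x.1.1.2.two_le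
  have h2 : (0 : ℝ) ≤ (x.2 : ℝ) := Nat.cast_nonneg _
  have h3 : 0 < Real.log 2 := Real.log_pos (by norm_num)
  nlinarith

/-- the weight of a prime -/
noncomputable def sm (α : PS ∅ → Fin n → ℂ) (p : PS ∅) : ℝ := max 0 (1 - ‖∑ i, α p i‖ ^ 2)

theorem sm_nonneg (α : PS ∅ → Fin n → ℂ) (p : PS ∅) : 0 ≤ sm α p := le_max_left _ _

theorem sm_le (α : PS ∅ → Fin n → ℂ) (p : PS ∅) : sm α p ≤ 1 := by
  unfold sm
  refine max_le zero_le_one ?_
  nlinarith [sq_nonneg ‖∑ i, α p i‖]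

/-- higher prime powers -/
theorem summable_high {t : ℝ} (ht : 1 / 2 < t) :
    Summable fun x : PS ∅ × ℕ => (if x.2 = 0 then 0 else 1) * Real.exp (-(t * LL x)) := by
  have h1 := summable_pp (S := ∅) (fun p => ((p.1 : ℕ) : ℝ) ^ (-(1 : ℝ))) (fun p => by positivity)
    (by linarith : 0 < t - 1 / 2) (by
      have h2 := summable_primes_subtype (S := ∅) (σ := t + 1 / 2) (by linarith)
      refine h2.congr fun p => ?_
      have hp : (0 : ℝ) < ((p.1 : ℕ) : ℝ) := by exact_mod_cast p.1.2.pos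
      rw [← Real.rpow_add hp]
      congr 1
      ring)
  refine Summable.of_nonneg_of_le (fun x => ?_) (fun x => ?_) h1
  · refine mul_nonneg ?_ (Real.exp_pos _).le
    split_ifs <;> norm_num
  · have hp : (0 : ℝ) < ((x.1.1 : ℕ) : ℝ) := by exact_mod_cast x.1.1.2.pos
    have hp1 : (1 : ℝ) < ((x.1.1 : ℕ) : ℝ) := by exact_mod_cast x.1.1.2.one_lt
    have hl : 0 < Real.log ((x.1.1 : ℕ) : ℝ) := Real.log_pos hp1
    split_ifs with hx
    · rw [zero_mul]
      positivity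
    · rw [one_mul, Real.rpow_def_of_pos hp, ← Real.exp_add]
      refine Real.exp_le_exp.2 ?_
      unfold LL
      have hk : (1 : ℝ) ≤ (x.2 : ℝ) := by exact_mod_cast Nat.one_le_iff_ne_zero.2 hx
      nlinarith

theorem summable_neg {α : Nat.Primes → Fin n → ℂ} {c : ℝ} (hc : 1 / 2 ≤ c)
    (hs : Summable fun p : PS ∅ => sm (rs α) p * ((p.1 : ℕ) : ℝ) ^ (-c)) {t : ℝ} (ht : c < t) :
    Summable fun x : PS ∅ × ℕ => |min (d1 (rs α) x) 0| * Real.exp (-(t * LL x)) := by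
  have h1 := summable_pp (sm (rs α)) (sm_nonneg _) (by linarith : 0 < c) hs
  have h2 := summable_high (lt_of_le_of_lt hc ht)
  refine Summable.of_nonneg_of_le (fun x => by positivity) (fun x => ?_) (h1.add h2)
  have hexp : Real.exp (-(t * LL x)) ≤ Real.exp (-(c * LL x)) := by
    have := LL_nonneg x
    gcongr
  have hE : 0 < Real.exp (-(t * LL x)) := Real.exp_pos _
  by_cases hx : x.2 = 0
  · rw [if_pos hx, zero_mul, add_zero]
    refine mul_le_mul ?_ hexp hE.le (sm_nonneg _ _)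
    unfold d1 sm
    rw [hx]
    simp only [zero_add, pow_one, Nat.cast_zero, div_one]
    rcases le_or_gt (‖∑ i, rs α x.1 i‖ ^ 2 - 1) 0 with h | h
    · rw [min_eq_left h, abs_of_nonpos h]
      refine le_trans (le_of_eq (by ring)) (le_max_right _ _)
    · rw [min_eq_right h.le, abs_zero]
      exact le_max_left _ _
  · rw [if_neg hx, one_mul]
    have h3 : |min (d1 (rs α) x) 0| ≤ 1 := by
      rw [abs_of_nonpos (min_le_right _ _), neg_le]
      refine le_min ?_ (by norm_num)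
      rw [d1_eq]
      have h4 := d0_nonneg (rs α) x
      have h5 := inv_le_one' x.2
      rw [abs_of_nonneg (by positivity)] at h5
      linarith
    have h6 : |min (d1 (rs α) x) 0| * Real.exp (-(t * LL x)) ≤ 1 * Real.exp (-(t * LL x)) :=
      mul_le_mul_of_nonneg_right h3 hE.le
    have h7 := mul_nonneg (sm_nonneg (rs α) x.1) (Real.exp_pos (-(c * LL x))).le
    linarith

/-- **Landau's lemma**: the logarithm of `L(s, π × π~) / ζ(s)` converges absolutely to the right of `c`. -/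
theorem landau_all {α : Nat.Primes → Fin n → ℂ} {μ : Fin n → ℂ} (h : SphericalCuspForm α μ) {G : ℂ → ℂ}
    (hG : Differentiable ℂ G) (hE : ∀ s : ℂ, 1 < s.re → G s = (s - 1) * Complex.exp (logL α s))
    {c : ℝ} (hc : 1 / 2 ≤ c) (hs : Summable fun p : PS ∅ => sm (rs α) p * ((p.1 : ℕ) : ℝ) ^ (-c)) :
    (∀ t, c < t → Summable fun x : PS ∅ × ℕ => |d1 (rs α) x| * Real.exp (-(t * LL x))) ∧
    ∀ s : ℂ, c < s.re → cexp (DS (d1 (rs α)) LL s) * riemannZeta₁ s = G s := by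
  have hVd : Differentiable ℂ riemannZeta₁ := differentiable_riemannZeta₁
  have hid : ∀ s : ℂ, 1 < s.re → cexp (DS (d1 (rs α)) LL s) * riemannZeta₁ s = G s := by
    intro s hs
    have hs1 : s ≠ 1 := by
      rintro rfl
      simp at hs
    rw [hE s hs, logL_eq, ← exp_d1 h hs, riemannZeta_eq_inv_sub_mul hs1]
    have h3 : s - 1 ≠ 0 := sub_ne_zero.2 hs1
    field_simp
  have hext := extend LL_nonneg (fun t ht => summable_d1 h ht) (fun t ht => summable_neg hc hs ht)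
    (hG.differentiableOn) (hVd.differentiableOn) (fun t ht => by
      intro h0
      exact Pool.Agent.H437R2.z1_zero_im (by simp; linarith) h0 (by simp)) hid
  exact ⟨hext, extend_id LL_nonneg hext (hG.differentiableOn) (hVd.differentiableOn) hid⟩

end Pool.Agent.TH949.RES
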