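import Pool.Agent.TH949.RES.PGL

/-! Spherical cusp forms on `PGL_n` over `ℚ`: the bounds. -/

set_option autoImplicit false

namespace Pool.Agent.TH949.RES

open Filter Topology Complex
open Pool.Agent.W189.TP (DS extend extend_id DS_diff PS LL LL_nonneg exp_LL rexp_LL summable_pp zetaS norm_term
  summable_primes_subtype summ_cplx summ_mono)

variable {n : ℕ}

/-! ## The finite places -/

/-- a summable series of power sums bounds the largest number -/
theorem norm_le_one_of_summable {b : Fin n → ℂ} {C : ℝ}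
    (hs : Summable fun k : ℕ => (‖∑ i, b i ^ (k + 1)‖ ^ 2 - 1) / ((k : ℝ) + 1) * C ^ (k + 1)) (hC0 : 0 < C)
    (hC1 : C < 1) : ∀ i, ‖b i‖ ^ 2 * C ≤ 1 := by
  classical
  by_contra hcon
  push Not at hcon
  obtain ⟨i₀, hi₀⟩ := hcon
  -- the largest one
  obtain ⟨j₀, -, hj₀⟩ := Finset.exists_max_image Finset.univ (fun i => ‖b i‖) ⟨i₀, Finset.mem_univ _⟩
  set M := ‖b j₀‖ with hM
  have hMi : ∀ i, ‖b i‖ ≤ M := fun i => hj₀ i (Finset.mem_univ _)
  have hM1 : 1 < M ^ 2 * C := by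
    refine hi₀.trans_le ?_
    exact mul_le_mul_of_nonneg_right (pow_le_pow_left₀ (norm_nonneg _) (hMi i₀) 2) hC0.le
  have hM0 : 0 < M := by
    by_contra h0
    have h1 : M = 0 := le_antisymm (not_lt.1 h0) (norm_nonneg _)
    rw [h1] at hM1
    norm_num at hM1
  have hn : 0 < n := i₀.pos
  have hn' : (0 : ℝ) < n := by exact_mod_cast hn
  set r := M ^ 2 * C with hr
  -- the terms
  have hgeo : Summable fun k : ℕ => C ^ (k + 1) := by
    have := (summable_geometric_of_lt_one hC0.le hC1).mul_right C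
    refine this.congr fun k => ?_
    rw [pow_succ]
  have hs2 : Summable fun k : ℕ => ‖∑ i, b i ^ (k + 1)‖ ^ 2 / ((k : ℝ) + 1) * C ^ (k + 1) := by
    have h1 : Summable fun k : ℕ => 1 / ((k : ℝ) + 1) * C ^ (k + 1) := by
      refine Summable.of_nonneg_of_le (fun k => by positivity) (fun k => ?_) hgeo
      refine mul_le_of_le_one_left (by positivity) ?_
      have := inv_le_one' k
      rwa [abs_of_nonneg (by positivity)] at this
    refine (hs.add h1).congr fun k => ?_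
    ring
  have hlim := hs2.tendsto_atTop_zero
  have hlim2 : Tendsto (fun k : ℕ => r ^ (k + 1) / ((k : ℝ) + 1)) atTop atTop := by
    have h1 := tendsto_pow_const_div_const_pow_of_one_lt 1 hM1
    have h2 : Tendsto (fun k : ℕ => ((k : ℝ) + 1) / r ^ (k + 1)) atTop (𝓝 0) := by
      have h3 := h1.comp (tendsto_add_atTop_nat 1)
      refine h3.congr fun k => ?_
      simp
    have h4 : Tendsto (fun k : ℕ => ((k : ℝ) + 1) / r ^ (k + 1)) atTop (𝓝[>] 0) := by
      refine tendsto_nhdsWithin_iff.2 ⟨h2, Eventually.of_forall fun k => ?_⟩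
      show (0 : ℝ) < _
      have : 0 < r := by linarith
      positivity
    refine h4.inv_tendsto_nhdsGT_zero.congr fun k => ?_
    simp
  have he1 := hlim.eventually (gt_mem_nhds (show (0 : ℝ) < 1 / (n : ℝ) ^ 2 by positivity))
  have he2 := hlim2.eventually_ge_atTop 1
  obtain ⟨K, hK⟩ := eventually_atTop.1 (he1.and he2)
  -- a good power
  set m := K + 1 with hm
  obtain ⟨j, hj1, -, hj3⟩ := Pool.Agent.W189.RS.exists_psum_ge (fun i : Fin n => (b i / M) ^ m)
    ⟨j₀, by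
      rw [norm_pow, norm_div, Complex.norm_real, Real.norm_of_nonneg hM0.le, ← hM, div_self hM0.ne', one_pow]⟩
  rw [Fintype.card_fin] at hj3
  obtain ⟨k, hk⟩ : ∃ k, m * j = k + 1 := ⟨m * j - 1, by
    have : 1 ≤ m * j := Nat.one_le_iff_ne_zero.2 (by positivity)
    omega⟩
  have hkK : K ≤ k := by
    have : m ≤ m * j := Nat.le_mul_of_pos_right _ hj1
    omega
  obtain ⟨h5, h6⟩ := hK k hkK
  have h7 : ∑ i, ((b i / M) ^ m) ^ j = (∑ i, b i ^ (k + 1)) / (M : ℂ) ^ (k + 1) := by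
    rw [Finset.sum_div]
    refine Finset.sum_congr rfl fun i _ => ?_
    rw [← pow_mul, hk, div_pow]
  rw [h7, norm_div, norm_pow, Complex.norm_real, Real.norm_of_nonneg hM0.le, div_le_div_iff₀ hn' (by positivity)] at hj3
  have h8 : M ^ (k + 1) ≤ ‖∑ i, b i ^ (k + 1)‖ * n := by linarith
  have h9 : (M ^ (k + 1)) ^ 2 ≤ (‖∑ i, b i ^ (k + 1)‖ * n) ^ 2 := pow_le_pow_left₀ (by positivity) h8 2
  have h10 : r ^ (k + 1) / ((k : ℝ) + 1) ≤ (n : ℝ) ^ 2 * (‖∑ i, b i ^ (k + 1)‖ ^ 2 / ((k : ℝ) + 1) * C ^ (k + 1)) := by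
    rw [hr, mul_pow, ← pow_mul, mul_comm 2, pow_mul]
    calc (M ^ (k + 1)) ^ 2 * C ^ (k + 1) / ((k : ℝ) + 1) ≤
          (‖∑ i, b i ^ (k + 1)‖ * n) ^ 2 * C ^ (k + 1) / ((k : ℝ) + 1) := by gcongr
      _ = _ := by ring
  have h11 : (n : ℝ) ^ 2 * (‖∑ i, b i ^ (k + 1)‖ ^ 2 / ((k : ℝ) + 1) * C ^ (k + 1)) < 1 := by
    calc _ < (n : ℝ) ^ 2 * (1 / (n : ℝ) ^ 2) := mul_lt_mul_of_pos_left h5 (by positivity)
      _ = 1 := by field_simp
  linarith

/-- **The bound at the finite places.** -/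
theorem finite_bound {α : Nat.Primes → Fin n → ℂ} {μ : Fin n → ℂ} (h : SphericalCuspForm α μ) {c : ℝ} (hc : 0 < c)
    (hs : ∀ t, c < t → Summable fun x : PS ∅ × ℕ => |d1 (rs α) x| * Real.exp (-(t * LL x)))
    (p : Nat.Primes) (i : Fin n) : |Real.logb ((p : ℕ) : ℝ) ‖α p i‖| ≤ c / 2 := by
  have hp : (0 : ℝ) < ((p : ℕ) : ℝ) := by exact_mod_cast p.2.pos
  have hp1 : (1 : ℝ) < ((p : ℕ) : ℝ) := by exact_mod_cast p.2.one_lt
  have hne : ∀ i, 0 < ‖α p i‖ := fun i => norm_pos_iff.2 (h.ne_zero p i)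
  have key : ∀ i, Real.logb ((p : ℕ) : ℝ) ‖α p i‖ ≤ c / 2 := by
    intro i
    refine le_of_forall_gt_imp_ge_of_dense fun y hy => ?_
    have ht := hs (2 * y) (by linarith)
    have h1 : Summable fun k : ℕ => (‖∑ i, α p i ^ (k + 1)‖ ^ 2 - 1) / ((k : ℝ) + 1) *
        (((p : ℕ) : ℝ) ^ (-(2 * y))) ^ (k + 1) := by
      have h2 := ht.comp_injective (i := fun k : ℕ => ((⟨p, Finset.notMem_empty p⟩, k) : PS ∅ × ℕ))
        (fun a b hab => (Prod.mk.inj hab).2)
      refine Summable.of_norm (h2.congr fun k => ?_)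
      simp only [Function.comp]
      rw [rexp_LL, norm_mul, Real.norm_eq_abs, Real.norm_of_nonneg (by positivity)]
      rfl
    have hC0 : 0 < ((p : ℕ) : ℝ) ^ (-(2 * y)) := by positivity
    have hC1 : ((p : ℕ) : ℝ) ^ (-(2 * y)) < 1 := Real.rpow_lt_one_of_one_lt_of_neg hp1 (by linarith)
    have h3 := norm_le_one_of_summable h1 hC0 hC1 i
    have h4 : ‖α p i‖ ^ 2 ≤ (((p : ℕ) : ℝ) ^ y) ^ 2 := by
      rw [Real.rpow_neg hp.le, ← div_eq_mul_inv, div_le_one (by positivity)] at h3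
      refine h3.trans (le_of_eq ?_)
      rw [← Real.rpow_natCast, ← Real.rpow_mul hp.le]
      congr 1
      push_cast
      ring
    have h5 : ‖α p i‖ ≤ ((p : ℕ) : ℝ) ^ y := (pow_le_pow_iff_left₀ (norm_nonneg _) (by positivity) two_ne_zero).1 h4
    rw [Real.logb_le_iff_le_rpow hp1 (hne i)]
    exact h5
  rw [abs_le]
  refine ⟨?_, key i⟩
  obtain ⟨τ, hτ⟩ := h.unitary p
  have h1 := key (τ i)
  rw [hτ i, norm_inv, RCLike.norm_conj, Real.logb_inv] at h1
  linarith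

/-! ## The real place -/

/-- the identity between `G` and `Ξ` -/
theorem xi_id {μ : Fin n → ℂ} {G Ξ : ℂ → ℂ} (hG : Differentiable ℂ G) (hΞ : Differentiable ℂ Ξ)
    (hid : ∀ s : ℂ, 1 < s.re → Ξ s = s * G s * ∏ i, ∏ j, Gammaℝ (s + (μ i - μ j))) (s : ℂ) :
    s * G s = Ξ s * ∏ i, ∏ j, (Gammaℝ (s + (μ i - μ j)))⁻¹ := by
  have hP : Differentiable ℂ fun s : ℂ => ∏ i, ∏ j, (Gammaℝ (s + (μ i - μ j)))⁻¹ := by
    refine Differentiable.fun_finsetProd fun i _ => Differentiable.fun_finsetProd fun j _ => ?_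
    exact differentiable_Gammaℝ_inv.comp (differentiable_id.add_const _)
  have h1 : AnalyticOnNhd ℂ (fun s => s * G s) Set.univ := (differentiable_id.mul hG).differentiableOn.analyticOnNhd
    isOpen_univ
  have h2 : AnalyticOnNhd ℂ (fun s => Ξ s * ∏ i, ∏ j, (Gammaℝ (s + (μ i - μ j)))⁻¹) Set.univ :=
    (hΞ.mul hP).differentiableOn.analyticOnNhd isOpen_univ
  set B : ℝ := 1 + ∑ i, ‖μ i‖ + ∑ i, ‖μ i‖ with hB
  have hle : ∀ i, ‖μ i‖ ≤ ∑ i, ‖μ i‖ := fun i =>
    Finset.single_le_sum (f := fun i => ‖μ i‖) (fun _ _ => norm_nonneg _) (Finset.mem_univ i)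
  have hnn : 0 ≤ ∑ i, ‖μ i‖ := Finset.sum_nonneg fun _ _ => norm_nonneg _
  have h3 : (fun s => s * G s) =ᶠ[𝓝 (((B + 1 : ℝ)) : ℂ)]
      fun s => Ξ s * ∏ i, ∏ j, (Gammaℝ (s + (μ i - μ j)))⁻¹ := by
    filter_upwards [(isOpen_lt continuous_const Complex.continuous_re).mem_nhds
      (show B < (((B + 1 : ℝ)) : ℂ).re by simp)] with s hs
    have hs' : B < s.re := hs
    have h1s : 1 < s.re := by
      rw [hB] at hs'
      linarith
    rw [hid s h1s]
    have hne : ∀ i j, Gammaℝ (s + (μ i - μ j)) ≠ 0 := by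
      intro i j
      refine Gammaℝ_ne_zero_of_re_pos ?_
      rw [Complex.add_re, Complex.sub_re]
      have a1 := (abs_le.1 (Complex.abs_re_le_norm (μ i))).1
      have a2 := (abs_le.1 (Complex.abs_re_le_norm (μ j))).2
      have a3 := hle i
      have a4 := hle j
      rw [hB] at hs'
      linarith
    have e : (∏ i, ∏ j, Gammaℝ (s + (μ i - μ j))) * ∏ i, ∏ j, (Gammaℝ (s + (μ i - μ j)))⁻¹ = 1 := by
      rw [← Finset.prod_mul_distrib]
      refine Finset.prod_eq_one fun i _ => ?_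
      rw [← Finset.prod_mul_distrib]
      exact Finset.prod_eq_one fun j _ => mul_inv_cancel₀ (hne i j)
    rw [mul_assoc, e, mul_one]
  exact h1.eqOn_of_preconnected_of_eventuallyEq h2 isPreconnected_univ (Set.mem_univ _) h3 (Set.mem_univ s)

/-- **The bound at the real place.** -/
theorem real_bound {α : Nat.Primes → Fin n → ℂ} {μ : Fin n → ℂ} (h : SphericalCuspForm α μ) {G Ξ : ℂ → ℂ}
    (hG : Differentiable ℂ G) (hΞ : Differentiable ℂ Ξ)
    (hid : ∀ s : ℂ, 1 < s.re → Ξ s = s * G s * ∏ i, ∏ j, Gammaℝ (s + (μ i - μ j))) {c : ℝ} (hc : 0 < c)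
    (hL : ∀ s : ℂ, c < s.re → cexp (DS (d1 (rs α)) LL s) * riemannZeta₁ s = G s) (i : Fin n) :
    |(μ i).re| ≤ c / 2 := by
  obtain ⟨τ, hτ⟩ := h.unitary_real
  have key : ∀ i, -(μ i).re ≤ c / 2 := by
    intro i
    by_contra hcon
    push Not at hcon
    set s : ℂ := ((-(2 * (μ i).re) : ℝ) : ℂ) with hs
    have hsre : s.re = -(2 * (μ i).re) := by rw [hs, Complex.ofReal_re]
    have h1 := xi_id hG hΞ hid s
    have h2 : ∏ i, ∏ j, (Gammaℝ (s + (μ i - μ j)))⁻¹ = 0 := by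
      refine Finset.prod_eq_zero (Finset.mem_univ i) (Finset.prod_eq_zero (Finset.mem_univ (τ i)) ?_)
      have h3 : s + (μ i - μ (τ i)) = 0 := by
        rw [hτ i, hs, sub_neg_eq_add, Complex.add_conj]
        push_cast
        ring
      rw [h3, inv_eq_zero, Gammaℝ_eq_zero_iff]
      exact ⟨0, by simp⟩
    rw [h2, mul_zero, mul_eq_zero] at h1
    rcases h1 with h1 | h1
    · rw [h1, Complex.zero_re] at hsre
      linarith
    · have h3 := hL s (by rw [hsre]; linarith)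
      rw [h1, mul_eq_zero] at h3
      rcases h3 with h3 | h3
      · exact Complex.exp_ne_zero _ h3
      · exact Pool.Agent.H437R2.z1_zero_im (by rw [hsre]; linarith) h3 (by rw [hs]; exact Complex.ofReal_im _)
  rw [abs_le]
  refine ⟨by linarith [key i], ?_⟩
  have h1 := key (τ i)
  rw [hτ i] at h1
  simpa using h1

end Pool.Agent.TH949.RES
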