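import Pool.Agent.TH949.RES.MainZB
import Pool.Agent.TH949.RES.PGL4

/-! Unitary cuspidal representations of `GL_n` over `ℚ`, arbitrary ramification: small Hecke eigenvalues and the
poles of the local factors of `L(s, Π × Π~)`. -/

set_option autoImplicit false

namespace Pool.Agent.TH949.RES

open Filter Topology Complex
open Pool.Agent.W189.TP (DS extend extend_id DS_diff PS LL LL_nonneg exp_LL rexp_LL summable_pp zetaS norm_term
  summable_primes_subtype summ_cplx summ_mono logRS bad bad_diff)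

variable {n : ℕ} {S : Finset Nat.Primes}

/-- Properties of a unitary cuspidal automorphic representation `Π` of `GL_n` over `ℚ`, unramified outside the finite
set `S` of primes: the Satake parameters `α p`, `p ∉ S`; the reciprocal roots `β p` of the Euler factors of
`L(s, Π × Π~)` at `p ∈ S`; the parameters `0, κ` of the Gamma factors of `L(s, Π × Π~)`. -/
structure CuspidalRep (S : Finset Nat.Primes) (α : PS S → Fin n → ℂ) (β : Nat.Primes → Fin (n ^ 2) → ℂ)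
    (κ : Fin (n ^ 2 - 1) → ℂ) : Prop where
  /-- the Satake parameters are nonzero -/
  ne_zero : ∀ p i, α p i ≠ 0
  /-- `Π_p` is unitary -/
  unitary : ∀ p, ∃ τ : Equiv.Perm (Fin n), ∀ i, α p (τ i) = ((starRingEnd ℂ) (α p i))⁻¹
  /-- `Π × Π~` is Hermitian at the real place -/
  conj : Multiset.map (fun j => (starRingEnd ℂ) (κ j)) Finset.univ.val = Multiset.map κ Finset.univ.val
  /-- absolute convergence of `L(s, Π × Π~)` for `Re s > 1` -/
  summable : ∀ σ : ℝ, 1 < σ → Summable fun x : PS S × ℕ =>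
    ‖∑ i, α x.1 i ^ (x.2 + 1)‖ ^ 2 / ((x.2 : ℝ) + 1) * (((x.1.1 : ℕ) : ℝ) ^ (-σ)) ^ (x.2 + 1)
  /-- `L(s, Π × Π~) = G(s) / (s - 1)`, `Ξ(s) = s (s - 1) Q^s Γ_ℝ(s) ∏ Γ_ℝ(s + κ_j) L(s, Π × Π~)` -/
  continuation : ∃ (G Ξ : ℂ → ℂ) (Q : ℝ) (ω : ℂ), Differentiable ℂ G ∧ Differentiable ℂ Ξ ∧ 0 < Q ∧ ω ≠ 0 ∧
    (∀ s : ℂ, 1 < s.re → G s * ∏ p ∈ S, ∏ i, (1 - β p i * ((p : ℕ) : ℂ) ^ (-s)) =
      (s - 1) * Complex.exp (logRS α s)) ∧
    (∀ a b : ℝ, ∃ C A : ℝ, ∀ s : ℂ, a ≤ s.re → s.re ≤ b → ‖G s‖ ≤ C * (1 + |s.im|) ^ A) ∧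
    (∀ s : ℂ, 1 < s.re → Ξ s = s * G s * ((Q : ℂ) ^ s * Complex.Gammaℝ s * ∏ j, Complex.Gammaℝ (s + κ j))) ∧
    ∀ s : ℂ, Ξ (1 - s) = ω * Ξ s

/-! ## Extension by zero -/

open scoped Classical in
/-- extension by zero to all primes -/
noncomputable def ez (α : PS S → Fin n → ℂ) : PS ∅ → Fin n → ℂ :=
  fun p => if h : p.1 ∉ S then α ⟨p.1, h⟩ else 0

theorem ez_of (α : PS S → Fin n → ℂ) (p : PS S) : ez α ⟨p.1, Finset.notMem_empty _⟩ = α p := by
  unfold ez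
  rw [dif_pos p.2]

/-- the inclusion of the index sets -/
def ic (x : PS S × ℕ) : PS ∅ × ℕ := (⟨x.1.1, Finset.notMem_empty _⟩, x.2)

theorem ic_inj : Function.Injective (ic : PS S × ℕ → PS ∅ × ℕ) := by
  rintro ⟨⟨p, hp⟩, k⟩ ⟨⟨q, hq⟩, l⟩ h
  simp only [ic, Prod.mk.injEq, Subtype.mk.injEq] at h
  obtain ⟨rfl, rfl⟩ := h
  rfl

theorem d0_off (α : PS S → Fin n → ℂ) (x : PS ∅ × ℕ) (hx : x ∉ Set.range (ic : PS S × ℕ → PS ∅ × ℕ)) :
    d0 (ez α) x = 0 := by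
  have h : ¬ x.1.1 ∉ S := by
    intro h
    exact hx ⟨(⟨x.1.1, h⟩, x.2), rfl⟩
  unfold d0 ez
  rw [dif_neg h]
  simp

theorem ez_logRS (α : PS S → Fin n → ℂ) (s : ℂ) : logRS α s = DS (d0 (ez α)) LL s := by
  unfold logRS DS
  rw [← ic_inj.tsum_eq (f := fun x : PS ∅ × ℕ => (d0 (ez α) x : ℂ) * cexp (-(s * LL x)))]
  · refine tsum_congr fun x => ?_
    rw [exp_LL]
    unfold d0
    have : ez α (ic x).1 = α x.1 := ez_of α x.1
    rw [this]
    rfl
  · intro x hx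
    by_contra h
    exact hx (by simp [d0_off α x h])

theorem ez_summable {α : PS S → Fin n → ℂ} {t : ℝ} (h : Summable fun x : PS S × ℕ =>
    ‖∑ i, α x.1 i ^ (x.2 + 1)‖ ^ 2 / ((x.2 : ℝ) + 1) * (((x.1.1 : ℕ) : ℝ) ^ (-t)) ^ (x.2 + 1)) :
    Summable fun x : PS ∅ × ℕ => |d0 (ez α) x| * Real.exp (-(t * LL x)) := by
  refine (ic_inj.summable_iff (fun x hx => ?_)).1 (h.congr fun x => ?_)
  · rw [d0_off α x hx, abs_zero, zero_mul]
  · simp only [Function.comp]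
    rw [abs_of_nonneg (d0_nonneg _ _), rexp_LL]
    unfold d0
    have : ez α (ic x).1 = α x.1 := ez_of α x.1
    rw [this]
    rfl

/-! ## Landau's lemma, with an arbitrary index -/

variable {a : PS ∅ → Fin n → ℂ}

theorem sd1 (h : ∀ t : ℝ, 1 < t → Summable fun x : PS ∅ × ℕ => |d0 a x| * Real.exp (-(t * LL x))) {t : ℝ}
    (ht : 1 < t) : Summable fun x : PS ∅ × ℕ => |d1 a x| * Real.exp (-(t * LL x)) := by
  refine Summable.of_nonneg_of_le (fun x => by positivity) (fun x => ?_) ((h t ht).add (summable_one ht))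
  rw [d1_eq, ← add_one_mul]
  refine mul_le_mul_of_nonneg_right ?_ (Real.exp_pos _).le
  refine (abs_sub _ _).trans ?_
  have := inv_le_one' x.2
  linarith

theorem ed1 (h : ∀ t : ℝ, 1 < t → Summable fun x : PS ∅ × ℕ => |d0 a x| * Real.exp (-(t * LL x))) {s : ℂ}
    (hs : 1 < s.re) : cexp (DS (d1 a) LL s) * riemannZeta s = cexp (DS (d0 a) LL s) := by
  have hz0 := zetaS (S := ∅) hs
  rw [Finset.prod_empty, mul_one] at hz0
  rw [← hz0, ← Complex.exp_add]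
  congr 1
  have hz : Summable fun x : PS ∅ × ℕ => ((1 / ((x.2 : ℝ) + 1) : ℝ) : ℂ) * cexp (-(s * LL x)) := by
    refine Summable.of_norm_bounded (summable_one hs) fun x => ?_
    rw [norm_term (fun x : PS ∅ × ℕ => 1 / ((x.2 : ℝ) + 1)) LL s x]
    exact mul_le_of_le_one_left (Real.exp_pos _).le (inv_le_one' x.2)
  have hd : Summable fun x : PS ∅ × ℕ => ((d1 a x : ℝ) : ℂ) * cexp (-(s * LL x)) :=
    summ_cplx LL_nonneg le_rfl (sd1 h hs)
  unfold DS
  rw [← hd.tsum_add hz]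
  refine tsum_congr fun x => ?_
  rw [← add_mul, ← Complex.ofReal_add]
  congr 2
  rw [d1_eq]
  ring

theorem sneg {c : ℝ} (hc : 1 / 2 ≤ c)
    (hs : Summable fun p : PS ∅ => sm a p * ((p.1 : ℕ) : ℝ) ^ (-c)) {t : ℝ} (ht : c < t) :
    Summable fun x : PS ∅ × ℕ => |min (d1 a x) 0| * Real.exp (-(t * LL x)) := by
  have h1 := summable_pp (sm a) (sm_nonneg _) (by linarith : 0 < c) hs
  have h2 := summable_high (lt_of_le_of_lt hc ht)
  refine Summable.of_nonneg_of_le (fun x => by positivity) (fun x => ?_) (h1.add h2)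
  have hexp : Real.exp (-(t * LL x)) ≤ Real.exp (-(c * LL x)) := by
    have := LL_nonneg x
    gcongr
  have hE : 0 < Real.exp (-(t * LL x)) := Real.exp_pos _
  by_cases hx : x.2 = 0
  · rw [if_pos hx, zero_mul, add_zero]
    refine mul_le_mul ?_ hexp hE.le (sm_nonneg _ _)
    unfold d1 sm
    rw [hx]
    simp only [zero_add, pow_one, Nat.cast_zero, div_one]
    rcases le_or_gt (‖∑ i, a x.1 i‖ ^ 2 - 1) 0 with h | h
    · rw [min_eq_left h, abs_of_nonpos h]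
      refine le_trans (le_of_eq (by ring)) (le_max_right _ _)
    · rw [min_eq_right h.le, abs_zero]
      exact le_max_left _ _
  · rw [if_neg hx, one_mul]
    have h3 : |min (d1 a x) 0| ≤ 1 := by
      rw [abs_of_nonpos (min_le_right _ _), neg_le]
      refine le_min ?_ (by norm_num)
      rw [d1_eq]
      have h4 := d0_nonneg a x
      have h5 := inv_le_one' x.2
      rw [abs_of_nonneg (by positivity)] at h5
      linarith
    have h6 : |min (d1 a x) 0| * Real.exp (-(t * LL x)) ≤ 1 * Real.exp (-(t * LL x)) :=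
      mul_le_mul_of_nonneg_right h3 hE.le
    have h7 := mul_nonneg (sm_nonneg a x.1) (Real.exp_pos (-(c * LL x))).le
    linarith

theorem land (h : ∀ t : ℝ, 1 < t → Summable fun x : PS ∅ × ℕ => |d0 a x| * Real.exp (-(t * LL x)))
    {U : ℂ → ℂ} (hU : Differentiable ℂ U)
    (hE : ∀ s : ℂ, 1 < s.re → U s = (s - 1) * Complex.exp (DS (d0 a) LL s))
    {c : ℝ} (hc : 1 / 2 ≤ c) (hs : Summable fun p : PS ∅ => sm a p * ((p.1 : ℕ) : ℝ) ^ (-c)) :
    (∀ t, c < t → Summable fun x : PS ∅ × ℕ => |d1 a x| * Real.exp (-(t * LL x))) ∧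
    ∀ s : ℂ, c < s.re → cexp (DS (d1 a) LL s) * riemannZeta₁ s = U s := by
  have hVd : Differentiable ℂ riemannZeta₁ := differentiable_riemannZeta₁
  have hid : ∀ s : ℂ, 1 < s.re → cexp (DS (d1 a) LL s) * riemannZeta₁ s = U s := by
    intro s hs
    have hs1 : s ≠ 1 := by
      rintro rfl
      simp at hs
    rw [hE s hs, ← ed1 h hs, riemannZeta_eq_inv_sub_mul hs1]
    have h3 : s - 1 ≠ 0 := sub_ne_zero.2 hs1
    field_simp
  have hext := extend LL_nonneg (fun t ht => sd1 h ht) (fun t ht => sneg hc hs ht)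
    (hU.differentiableOn) (hVd.differentiableOn) (fun t ht => by
      intro h0
      exact Pool.Agent.H437R2.z1_zero_im (by simp; linarith) h0 (by simp)) hid
  exact ⟨hext, extend_id LL_nonneg hext (hU.differentiableOn) (hVd.differentiableOn) hid⟩

/-! ## The local bounds -/

theorem finite_bound' {p : PS ∅} {c : ℝ} (hc : 0 < c) (h0 : ∀ i, a p i ≠ 0)
    (hU : ∃ τ : Equiv.Perm (Fin n), ∀ i, a p (τ i) = ((starRingEnd ℂ) (a p i))⁻¹)
    (hs : ∀ t, c < t → Summable fun x : PS ∅ × ℕ => |d1 a x| * Real.exp (-(t * LL x))) (i : Fin n) :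
    |Real.logb ((p.1 : ℕ) : ℝ) ‖a p i‖| ≤ c / 2 := by
  have hp : (0 : ℝ) < ((p.1 : ℕ) : ℝ) := by exact_mod_cast p.1.2.pos
  have hp1 : (1 : ℝ) < ((p.1 : ℕ) : ℝ) := by exact_mod_cast p.1.2.one_lt
  have hne : ∀ i, 0 < ‖a p i‖ := fun i => norm_pos_iff.2 (h0 i)
  have key : ∀ i, Real.logb ((p.1 : ℕ) : ℝ) ‖a p i‖ ≤ c / 2 := by
    intro i
    refine le_of_forall_gt_imp_ge_of_dense fun y hy => ?_
    have ht := hs (2 * y) (by linarith)
    have h1 : Summable fun k : ℕ => (‖∑ i, a p i ^ (k + 1)‖ ^ 2 - 1) / ((k : ℝ) + 1) *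
        (((p.1 : ℕ) : ℝ) ^ (-(2 * y))) ^ (k + 1) := by
      have h2 := ht.comp_injective (i := fun k : ℕ => ((p, k) : PS ∅ × ℕ)) (fun a b hab => (Prod.mk.inj hab).2)
      refine Summable.of_norm (h2.congr fun k => ?_)
      simp only [Function.comp]
      rw [rexp_LL, norm_mul, Real.norm_eq_abs, Real.norm_of_nonneg (by positivity)]
      rfl
    have hC0 : 0 < ((p.1 : ℕ) : ℝ) ^ (-(2 * y)) := by positivity
    have hC1 : ((p.1 : ℕ) : ℝ) ^ (-(2 * y)) < 1 := Real.rpow_lt_one_of_one_lt_of_neg hp1 (by linarith)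
    have h3 := norm_le_one_of_summable h1 hC0 hC1 i
    have h4 : ‖a p i‖ ^ 2 ≤ (((p.1 : ℕ) : ℝ) ^ y) ^ 2 := by
      rw [Real.rpow_neg hp.le, ← div_eq_mul_inv, div_le_one (by positivity)] at h3
      refine h3.trans (le_of_eq ?_)
      rw [← Real.rpow_natCast, ← Real.rpow_mul hp.le]
      congr 1
      push_cast
      ring
    have h5 : ‖a p i‖ ≤ ((p.1 : ℕ) : ℝ) ^ y := (pow_le_pow_iff_left₀ (norm_nonneg _) (by positivity) two_ne_zero).1 h4
    rw [Real.logb_le_iff_le_rpow hp1 (hne i)]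
    exact h5
  rw [abs_le]
  refine ⟨?_, key i⟩
  obtain ⟨τ, hτ⟩ := hU
  have h1 := key (τ i)
  rw [hτ i, norm_inv, RCLike.norm_conj, Real.logb_inv] at h1
  linarith

/-- the identity between `G` and `Ξ` -/
theorem xi_id' {m : ℕ} {κ : Fin m → ℂ} {Q : ℝ} (hQ : 0 < Q) {G Ξ : ℂ → ℂ} (hG : Differentiable ℂ G)
    (hΞ : Differentiable ℂ Ξ)
    (hid : ∀ s : ℂ, 1 < s.re → Ξ s = s * G s * ((Q : ℂ) ^ s * Gammaℝ s * ∏ j, Gammaℝ (s + κ j))) (s : ℂ) :
    s * G s = Ξ s * (cexp (-(s * Real.log Q)) * (Gammaℝ s)⁻¹ * ∏ j, (Gammaℝ (s + κ j))⁻¹) := by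
  have hP : Differentiable ℂ fun s : ℂ => cexp (-(s * Real.log Q)) * (Gammaℝ s)⁻¹ * ∏ j, (Gammaℝ (s + κ j))⁻¹ := by
    refine (Differentiable.mul (by fun_prop) differentiable_Gammaℝ_inv).mul
      (Differentiable.fun_finsetProd fun j _ => ?_)
    exact differentiable_Gammaℝ_inv.comp (differentiable_id.add_const _)
  have h1 : AnalyticOnNhd ℂ (fun s => s * G s) Set.univ := (differentiable_id.mul hG).differentiableOn.analyticOnNhd
    isOpen_univ
  have h2 : AnalyticOnNhd ℂ (fun s => Ξ s * (cexp (-(s * Real.log Q)) * (Gammaℝ s)⁻¹ *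
      ∏ j, (Gammaℝ (s + κ j))⁻¹)) Set.univ := (hΞ.mul hP).differentiableOn.analyticOnNhd isOpen_univ
  set B : ℝ := 1 + ∑ i, ‖κ i‖ with hB
  have hle : ∀ i, ‖κ i‖ ≤ ∑ i, ‖κ i‖ := fun i =>
    Finset.single_le_sum (f := fun i => ‖κ i‖) (fun _ _ => norm_nonneg _) (Finset.mem_univ i)
  have hnn : 0 ≤ ∑ i, ‖κ i‖ := Finset.sum_nonneg fun _ _ => norm_nonneg _
  have h3 : (fun s => s * G s) =ᶠ[𝓝 (((B + 1 : ℝ)) : ℂ)]
      fun s => Ξ s * (cexp (-(s * Real.log Q)) * (Gammaℝ s)⁻¹ * ∏ j, (Gammaℝ (s + κ j))⁻¹) := by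
    filter_upwards [(isOpen_lt continuous_const Complex.continuous_re).mem_nhds
      (show B < (((B + 1 : ℝ)) : ℂ).re by simp)] with s hs
    have hs' : B < s.re := hs
    have h1s : 1 < s.re := by
      rw [hB] at hs'
      linarith
    rw [hid s h1s]
    have hne : ∀ j, Gammaℝ (s + κ j) ≠ 0 := by
      intro j
      refine Gammaℝ_ne_zero_of_re_pos ?_
      rw [Complex.add_re]
      have a1 := (abs_le.1 (Complex.abs_re_le_norm (κ j))).1
      have a3 := hle j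
      rw [hB] at hs'
      linarith
    have e : (∏ j, Gammaℝ (s + κ j)) * ∏ j, (Gammaℝ (s + κ j))⁻¹ = 1 := by
      rw [← Finset.prod_mul_distrib]
      exact Finset.prod_eq_one fun j _ => mul_inv_cancel₀ (hne j)
    have e2 : Gammaℝ s * (Gammaℝ s)⁻¹ = 1 := mul_inv_cancel₀ (Gammaℝ_ne_zero_of_re_pos (by linarith))
    have e3 : (Q : ℂ) ^ s * cexp (-(s * Real.log Q)) = 1 := by
      rw [Q_cpow hQ, ← Complex.exp_add]
      simp
    linear_combination (-(s * G s)) * ((Gammaℝ s * (Gammaℝ s)⁻¹) * ((∏ j, Gammaℝ (s + κ j)) *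
      ∏ j, (Gammaℝ (s + κ j))⁻¹) * e3 + ((∏ j, Gammaℝ (s + κ j)) * ∏ j, (Gammaℝ (s + κ j))⁻¹) * e2 + e)
  exact h1.eqOn_of_preconnected_of_eventuallyEq h2 isPreconnected_univ (Set.mem_univ _) h3 (Set.mem_univ s)

end Pool.Agent.TH949.RES
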