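import Pool.Agent.W355.LJ.Gam
import Pool.Agent.W45.WP.Dig

/-! The derivative of the digamma function. -/

set_option autoImplicit false

namespace Pool.Agent.TH949.RES

open Filter Topology Complex MeasureTheory Set

/-- the trigamma function -/
noncomputable def Tg (z : ℂ) : ℂ := ∑' n : ℕ, 1 / (z + n) ^ 2

theorem im_le_norm_add (z : ℂ) (n : ℕ) : |z.im| ≤ ‖z + n‖ := by
  have := Complex.abs_im_le_norm (z + n)
  simpa using this

/-- `|z + n|² ≥ (n - k)² + t²` -/
theorem norm_sq_ge {z : ℂ} {k : ℕ} (hk : -(k : ℝ) ≤ z.re) (m : ℕ) :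
    (m : ℝ) ^ 2 + z.im ^ 2 ≤ ‖z + ((m + k : ℕ) : ℂ)‖ ^ 2 := by
  rw [← Complex.normSq_eq_norm_sq, Complex.normSq_apply]
  simp only [Complex.add_re, Complex.add_im, Complex.natCast_re, Complex.natCast_im, add_zero]
  push_cast
  have h1 : (m : ℝ) ≤ z.re + (m + k) := by linarith
  have h2 : (0 : ℝ) ≤ m := Nat.cast_nonneg m
  nlinarith

theorem tele {t : ℝ} (ht : 1 ≤ t) (M : ℕ) :
    ∑ m ∈ Finset.range M, 1 / ((m : ℝ) ^ 2 + t ^ 2) ≤ 2 / (t - 1 / 2) - 2 / (M + t - 1 / 2) := by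
  induction M with
  | zero =>
    simp
  | succ M ih =>
    rw [Finset.sum_range_succ]
    push_cast
    have hM : (0 : ℝ) ≤ M := Nat.cast_nonneg M
    have h1 : 1 / ((M : ℝ) ^ 2 + t ^ 2) ≤ 2 / (M + t) ^ 2 := by
      rw [div_le_div_iff₀ (by positivity) (by positivity)]
      nlinarith [sq_nonneg ((M : ℝ) - t)]
    have h3 : 0 < (M : ℝ) + t - 1 / 2 := by linarith
    have h4 : 0 < (M : ℝ) + 1 + t - 1 / 2 := by linarith
    have h2 : 2 / ((M : ℝ) + t) ^ 2 ≤ 2 / (M + t - 1 / 2) - 2 / (M + 1 + t - 1 / 2) := by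
      rw [div_sub_div _ _ h3.ne' h4.ne', div_le_div_iff₀ (by positivity) (by positivity)]
      nlinarith
    linarith

theorem sum_bd {z : ℂ} {k : ℕ} (hk : -(k : ℝ) ≤ z.re) (ht : 1 ≤ |z.im|) (M : ℕ) :
    ∑ n ∈ Finset.range M, 1 / ‖z + (n : ℂ)‖ ^ 2 ≤ ((k : ℝ) + 4) / |z.im| := by
  have ht0 : 0 < |z.im| := by linarith
  have h0 : ∀ n : ℕ, 0 < ‖z + (n : ℂ)‖ := fun n => lt_of_lt_of_le ht0 (im_le_norm_add z n)
  have h1 : ∑ n ∈ Finset.range M, 1 / ‖z + (n : ℂ)‖ ^ 2 ≤
      ∑ n ∈ Finset.range (k + M), 1 / ‖z + (n : ℂ)‖ ^ 2 := by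
    refine Finset.sum_le_sum_of_subset_of_nonneg ?_ fun n _ _ => by positivity
    exact Finset.range_mono (by omega)
  refine h1.trans ?_
  rw [Finset.sum_range_add]
  have h2 : ∑ n ∈ Finset.range k, 1 / ‖z + (n : ℂ)‖ ^ 2 ≤ k * (1 / |z.im|) := by
    refine (Finset.sum_le_card_nsmul _ _ (1 / |z.im|) fun n _ => ?_).trans (by simp)
    have h3 := im_le_norm_add z n
    rw [div_le_div_iff₀ (by have := h0 n; positivity) ht0]
    nlinarith
  have h3 : ∑ m ∈ Finset.range M, 1 / ‖z + ((k + m : ℕ) : ℂ)‖ ^ 2 ≤ 4 / |z.im| := by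
    have h4 : ∑ m ∈ Finset.range M, 1 / ‖z + ((k + m : ℕ) : ℂ)‖ ^ 2 ≤
        ∑ m ∈ Finset.range M, 1 / ((m : ℝ) ^ 2 + |z.im| ^ 2) := by
      refine Finset.sum_le_sum fun m _ => ?_
      have h5 := norm_sq_ge hk m
      rw [add_comm m k] at h5
      rw [sq_abs]
      refine one_div_le_one_div_of_le ?_ h5
      have : 0 < z.im ^ 2 := by rw [← sq_abs]; positivity
      positivity
    refine h4.trans ((tele ht M).trans ?_)
    have h5 : 0 ≤ 2 / ((M : ℝ) + |z.im| - 1 / 2) := by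
      have : (0 : ℝ) ≤ M := Nat.cast_nonneg M
      have : 0 < (M : ℝ) + |z.im| - 1 / 2 := by linarith
      positivity
    have h6 : 2 / (|z.im| - 1 / 2) ≤ 4 / |z.im| := by
      rw [div_le_div_iff₀ (by linarith) ht0]
      linarith
    linarith
  calc _ ≤ k * (1 / |z.im|) + 4 / |z.im| := add_le_add h2 h3
    _ = _ := by ring

theorem summ_sq {z : ℂ} (ht : 1 ≤ |z.im|) : Summable fun n : ℕ => 1 / ‖z + (n : ℂ)‖ ^ 2 := by
  obtain ⟨k, hk⟩ := exists_nat_ge (-z.re)
  refine summable_of_sum_range_le (c := ((k : ℝ) + 4) / |z.im|) (fun n => by positivity) fun M => ?_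
  exact sum_bd (by linarith) ht M

theorem hasSum_inv {z : ℂ} (ht : 1 ≤ |z.im|) :
    HasSum (fun n : ℕ => 1 / (z + n) - 1 / (z + n + 1)) (1 / z) := by
  have h0 : ∀ n : ℕ, z + (n : ℂ) ≠ 0 := fun n => by
    rw [← norm_pos_iff]
    exact lt_of_lt_of_le (by linarith) (im_le_norm_add z n)
  have h0' : ∀ n : ℕ, z + (n : ℂ) + 1 ≠ 0 := fun n => by
    have := h0 (n + 1)
    push_cast at this
    rwa [add_assoc]
  have hs : Summable fun n : ℕ => ‖1 / (z + n) - 1 / (z + n + 1)‖ := by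
    obtain ⟨k, hk⟩ := exists_nat_ge (-z.re)
    have h1 := summ_sq ht
    have h2 : Summable fun n : ℕ => 1 / ‖z + (n : ℂ) + 1‖ ^ 2 := by
      have := (summable_nat_add_iff 1).2 h1
      refine this.congr fun n => ?_
      push_cast
      rw [add_assoc]
    refine Summable.of_nonneg_of_le (fun n => norm_nonneg _) (fun n => ?_) (h1.add h2)
    have e : 1 / (z + n) - 1 / (z + n + 1) = 1 / (z + n) * (1 / (z + n + 1)) := by
      have := h0 n
      have := h0' n
      field_simp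
      ring
    rw [e, norm_mul, norm_div, norm_div, norm_one]
    set x := 1 / ‖z + (n : ℂ)‖
    set y := 1 / ‖z + (n : ℂ) + 1‖
    have e1 : 1 / ‖z + (n : ℂ)‖ ^ 2 = x ^ 2 := by simp [x]
    have e2 : 1 / ‖z + (n : ℂ) + 1‖ ^ 2 = y ^ 2 := by simp [y]
    rw [e1, e2]
    nlinarith [sq_nonneg (x - y), sq_nonneg x, sq_nonneg y]
  rw [hasSum_iff_tendsto_nat_of_summable_norm hs]
  have h1 : ∀ M : ℕ, ∑ n ∈ Finset.range M, (1 / (z + n) - 1 / (z + n + 1)) = 1 / z - 1 / (z + M) := by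
    intro M
    induction M with
    | zero => simp
    | succ M ih =>
      rw [Finset.sum_range_succ, ih]
      push_cast
      rw [add_assoc z]
      ring
  simp_rw [h1]
  have h2 : Tendsto (fun M : ℕ => 1 / (z + (M : ℂ))) atTop (𝓝 0) := by
    have h3 : Tendsto (fun M : ℕ => ‖z + (M : ℂ)‖) atTop atTop := by
      refine tendsto_atTop_mono (fun M => ?_) (tendsto_atTop_add_const_left atTop z.re
        tendsto_natCast_atTop_atTop)
      have := Complex.re_le_norm (z + (M : ℂ))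
      simpa using this
    have h4 := (tendsto_norm_atTop_iff_cobounded.1 h3)
    have h5 := tendsto_inv₀_cobounded.comp h4
    refine h5.congr fun M => ?_
    simp [one_div]
  have h3 := (tendsto_const_nhds (x := 1 / z)).sub h2
  rwa [sub_zero] at h3

theorem summable_Tg {z : ℂ} (ht : 1 ≤ |z.im|) : Summable fun n : ℕ => 1 / (z + (n : ℂ)) ^ 2 := by
  refine Summable.of_norm ((summ_sq ht).congr fun n => ?_)
  rw [norm_div, norm_one, norm_pow]

/-- the asymptotics of the trigamma function -/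
theorem Tg_near {z : ℂ} {k : ℕ} (hk : -(k : ℝ) ≤ z.re) (ht : 1 ≤ |z.im|) :
    ‖Tg z - 1 / z‖ ≤ ((k : ℝ) + 4) / |z.im| ^ 2 := by
  have ht0 : 0 < |z.im| := by linarith
  have h0 : ∀ n : ℕ, z + (n : ℂ) ≠ 0 := fun n => by
    rw [← norm_pos_iff]
    exact lt_of_lt_of_le (by linarith) (im_le_norm_add z n)
  have h0' : ∀ n : ℕ, z + (n : ℂ) + 1 ≠ 0 := fun n => by
    have := h0 (n + 1)
    push_cast at this
    rwa [add_assoc]
  have h1 : Tg z - 1 / z = ∑' n : ℕ, (1 / (z + (n : ℂ)) ^ 2 - (1 / (z + n) - 1 / (z + n + 1))) := by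
    rw [(summable_Tg ht).tsum_sub (hasSum_inv ht).summable, (hasSum_inv ht).tsum_eq]
    rfl
  have hb : ∀ n : ℕ, ‖1 / (z + (n : ℂ)) ^ 2 - (1 / (z + n) - 1 / (z + n + 1))‖ ≤
      1 / ‖z + (n : ℂ)‖ ^ 2 * (1 / |z.im|) := by
    intro n
    have e : 1 / (z + (n : ℂ)) ^ 2 - (1 / (z + n) - 1 / (z + n + 1)) =
        1 / (z + (n : ℂ)) ^ 2 * (1 / (z + n + 1)) := by
      have := h0 n
      have := h0' n
      field_simp
      ring
    rw [e, norm_mul, norm_div, norm_div, norm_one, norm_pow]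
    refine mul_le_mul_of_nonneg_left (one_div_le_one_div_of_le ht0 ?_) (by positivity)
    have := im_le_norm_add z (n + 1)
    push_cast at this
    rwa [add_assoc]
  have hs := (summ_sq ht).mul_right (1 / |z.im|)
  rw [h1]
  refine (tsum_of_norm_bounded hs.hasSum hb).trans ?_
  rw [tsum_mul_right]
  have h2 : ∑' n : ℕ, 1 / ‖z + (n : ℂ)‖ ^ 2 ≤ ((k : ℝ) + 4) / |z.im| :=
    (summ_sq ht).tsum_le_of_sum_range_le fun M => sum_bd hk ht M
  calc _ ≤ ((k : ℝ) + 4) / |z.im| * (1 / |z.im|) := mul_le_mul_of_nonneg_right h2 (by positivity)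
    _ = _ := by rw [sq]; field_simp

/-- the derivative of the digamma function, right half-plane -/
theorem psi_deriv0 {z : ℂ} (hz : 0 < z.re) (ht : 1 ≤ |z.im|) :
    HasDerivAt (logDeriv Complex.Gamma) (Tg z) z := by
  have hopen : IsOpen {w : ℂ | 0 < w.re} := isOpen_lt continuous_const Complex.continuous_re
  have hne : ∀ (n : ℕ) (w : ℂ), 0 < w.re → w + ((n : ℂ) + 1) ≠ 0 := by
    intro n w hw h
    have := congrArg Complex.re h
    simp at this
    have hn : (0 : ℝ) ≤ n := Nat.cast_nonneg n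
    linarith
  have h1 : HasDerivAt (fun w => ∑' n, Pool.Agent.W45.WP.dg n w) (∑' n : ℕ, 1 / (z + ((n : ℂ) + 1)) ^ 2) z := by
    refine hasDerivAt_tsum_of_isPreconnected (g := Pool.Agent.W45.WP.dg)
      (g' := fun n w => 1 / (w + ((n : ℂ) + 1)) ^ 2) (u := fun n : ℕ => 1 / ((n : ℝ) + 1) ^ 2)
      H370.DG.summable_inv_sq hopen (convex_halfSpace_re_gt 0).isPreconnected (fun n w hw => ?_)
      (fun n w hw => ?_) (y₀ := z) hz (Pool.Agent.W45.WP.summable_dg hz) hz
    · have h2 : HasDerivAt (fun w : ℂ => w + ((n : ℂ) + 1)) 1 w := (hasDerivAt_id w).add_const _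
      have h3 := (h2.inv (hne n w hw)).const_sub (1 / ((n : ℂ) + 1))
      unfold Pool.Agent.W45.WP.dg
      refine (h3.congr_deriv ?_).congr_of_eventuallyEq ?_
      · ring
      · exact Eventually.of_forall fun y => by simp [one_div]
    · have hn : (0 : ℝ) ≤ n := Nat.cast_nonneg n
      have hw' : 0 < w.re := hw
      rw [norm_div, norm_one, norm_pow]
      refine one_div_le_one_div_of_le (by positivity) (pow_le_pow_left₀ (by positivity) ?_ 2)
      refine le_trans ?_ (Complex.re_le_norm _)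
      simp
      linarith
  have hz0 : z ≠ 0 := by
    rintro rfl
    simp at hz
  have h2 : HasDerivAt (fun w : ℂ => -(Real.eulerMascheroniConstant : ℂ) - 1 / w) (1 / z ^ 2) z := by
    have h3 := (hasDerivAt_inv hz0).const_sub (-(Real.eulerMascheroniConstant : ℂ))
    refine (h3.congr_deriv ?_).congr_of_eventuallyEq ?_
    · ring
    · exact Eventually.of_forall fun y => by simp [one_div]
  have h3 := h2.add h1
  have h4 : (1 / z ^ 2 + ∑' n : ℕ, 1 / (z + ((n : ℂ) + 1)) ^ 2) = Tg z := by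
    unfold Tg
    rw [(summable_Tg ht).tsum_eq_zero_add]
    simp
  rw [h4] at h3
  refine h3.congr_of_eventuallyEq ?_
  filter_upwards [hopen.mem_nhds hz] with w hw
  exact Pool.Agent.W45.WP.logDeriv_Gamma_eq hw

theorem psi_deriv_aux (k : ℕ) : ∀ z : ℂ, -(k : ℝ) < z.re → 1 < |z.im| →
    HasDerivAt (logDeriv Complex.Gamma) (Tg z) z := by
  induction k with
  | zero =>
    intro z hz ht
    exact psi_deriv0 (by simpa using hz) ht.le
  | succ k ih =>
    intro z hz ht
    push_cast at hz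
    have h1 := ih (z + 1) (by simp; linarith) (by simpa using ht)
    have h2 : HasDerivAt (fun w => logDeriv Complex.Gamma (w + 1)) (Tg (z + 1)) z := by
      have h3 : HasDerivAt (fun w : ℂ => w + 1) 1 z := (hasDerivAt_id z).add_const 1
      have h4 := h1.comp z h3
      rw [mul_one] at h4
      exact h4
    have him : z.im ≠ 0 := by
      intro h
      rw [h, abs_zero] at ht
      linarith
    have hz0 : z ≠ 0 := by
      rintro rfl
      simp at him
    have h3 := h2.sub (hasDerivAt_inv hz0)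
    have h4 : Tg (z + 1) - -(z ^ 2)⁻¹ = Tg z := by
      unfold Tg
      rw [(summable_Tg ht.le).tsum_eq_zero_add]
      simp only [Nat.cast_zero, add_zero, Nat.cast_add, Nat.cast_one]
      rw [sub_neg_eq_add, add_comm, one_div]
      congr 1
      refine tsum_congr fun n => ?_
      congr 2
      ring
    rw [h4] at h3
    refine h3.congr_of_eventuallyEq ?_
    have hopen : IsOpen {w : ℂ | w.im ≠ 0} := isOpen_ne_fun Complex.continuous_im continuous_const
    filter_upwards [hopen.mem_nhds him] with w hw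
    have h5 := Complex.digamma_apply_add_one w (fun m hm => by
      apply hw
      rw [hm]
      simp)
    rw [Complex.digamma_def] at h5
    simp only [Pi.sub_apply]
    rw [h5]
    ring

/-- the derivative of the digamma function -/
theorem psi_deriv {z : ℂ} (ht : 1 < |z.im|) : HasDerivAt (logDeriv Complex.Gamma) (Tg z) z := by
  obtain ⟨k, hk⟩ := exists_nat_gt (-z.re)
  exact psi_deriv_aux k z (by linarith) ht

/-- the derivative of the logarithmic derivative of `Γ_ℝ` -/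
noncomputable def TR (w : ℂ) : ℂ := 1 / 4 * Tg (w / 2)

theorem psiR_deriv {w : ℂ} (ht : 2 < |w.im|) : HasDerivAt (logDeriv Gammaℝ) (TR w) w := by
  have hw : 1 < |(w / 2).im| := by
    have : (w / 2).im = w.im / 2 := by simp
    rw [this, abs_div, abs_of_pos (by norm_num : (0:ℝ) < 2)]
    linarith
  have h1 := psi_deriv hw
  have h2 : HasDerivAt (fun w : ℂ => w / 2) (1 / 2) w := (hasDerivAt_id w).div_const 2
  have h3 := ((h1.comp w h2).const_mul (1 / 2 : ℂ)).const_add (-(((1 / 2 * Real.log Real.pi : ℝ)) : ℂ))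
  have h4 : HasDerivAt (fun w : ℂ => -(((1 / 2 * Real.log Real.pi : ℝ)) : ℂ) +
      1 / 2 * logDeriv Complex.Gamma (w / 2)) (TR w) w := by
    refine h3.congr_deriv ?_
    unfold TR
    ring
  refine h4.congr_of_eventuallyEq ?_
  have him : w.im ≠ 0 := by
    intro h
    rw [h, abs_zero] at ht
    linarith
  have hopen : IsOpen {w : ℂ | w.im ≠ 0} := isOpen_ne_fun Complex.continuous_im continuous_const
  filter_upwards [hopen.mem_nhds him] with w hw
  exact Pool.Agent.W355.LJ.gr_logDeriv w hw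

theorem TR_near {w : ℂ} {k : ℕ} (hk : -(2 * (k : ℝ)) ≤ w.re) (ht : 2 ≤ |w.im|) :
    ‖TR w - 1 / (2 * w)‖ ≤ ((k : ℝ) + 4) / |w.im| ^ 2 := by
  have e1 : (w / 2).im = w.im / 2 := by simp
  have e2 : (w / 2).re = w.re / 2 := by simp
  have h1 := Tg_near (z := w / 2) (k := k) (by rw [e2]; linarith) (by
    rw [e1, abs_div, abs_of_pos (by norm_num : (0:ℝ) < 2)]
    linarith)
  rw [e1, abs_div, abs_of_pos (by norm_num : (0:ℝ) < 2)] at h1
  have h2 : TR w - 1 / (2 * w) = 1 / 4 * (Tg (w / 2) - 1 / (w / 2)) := by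
    unfold TR
    have hw : w ≠ 0 := by
      rintro rfl
      simp at ht
      linarith
    field_simp
    ring
  rw [h2, norm_mul]
  have e3 : ‖(1 / 4 : ℂ)‖ = 1 / 4 := by simp
  rw [e3]
  calc _ ≤ 1 / 4 * (((k : ℝ) + 4) / (|w.im| / 2) ^ 2) := mul_le_mul_of_nonneg_left h1 (by norm_num)
    _ = _ := by
      have : 0 < |w.im| := by linarith
      field_simp
      ring

end Pool.Agent.TH949.RES
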